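import Mathlib
import Pool.Agent.H7.VojtaMain

/-!
# Powers of an elliptic curve: basic definitions

`E : Y²Z = X³ + aXZ² + bZ³` over a field `K`, `E^n ⊂ (P²)^n`, polynomial ring in the variables
`X (i, k)`, `i < n`, `k < 3`.
-/

set_option autoImplicit false

open MvPolynomial WeierstrassCurve WeierstrassCurve.Affine Height NumberField

namespace Pool.Agent.GE

universe u

/-- Projective coordinates `(X : Y : Z)` of a point of a Weierstrass curve. -/
def coords {F : Type u} [Field F] {W : Affine F} : W.Point → Fin 3 → F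
  | 0 => ![0, 1, 0]
  | .some x y _ => ![x, y, 1]

/-- `x` is a vector of homogeneous coordinates of the `n`-tuple of points `P`. -/
def IsCoord {F : Type u} [Field F] {W : Affine F} {n : ℕ} (P : Fin n → W.Point)
    (x : Fin n × Fin 3 → F) : Prop :=
  ∀ i, ∃ s : F, s ≠ 0 ∧ ∀ k, x (i, k) = s * coords (P i) k

/-- The multidegree of the variable `X (i, k)` is the `i`-th unit vector. -/
def wt (n : ℕ) : Fin n × Fin 3 → (Fin n → ℕ) := fun v => Pi.single v.1 1

/-- `p` is multihomogeneous of multidegree `d`. -/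
def MultiHom {R : Type u} [CommSemiring R] {n : ℕ} (p : MvPolynomial (Fin n × Fin 3) R)
    (d : Fin n → ℕ) : Prop :=
  IsWeightedHomogeneous (wt n) p d

/-- The equation `Y²Z - X³ - aXZ² - bZ³` in the `i`-th block of variables. -/
noncomputable def curveEq {K : Type u} [Field K] (W : Affine K) {n : ℕ} (i : Fin n) :
    MvPolynomial (Fin n × Fin 3) K :=
  X (i, 1) ^ 2 * X (i, 2) - X (i, 0) ^ 3 - C W.a₄ * X (i, 0) * X (i, 2) ^ 2
    - C W.a₆ * X (i, 2) ^ 3

instance isShortNF_baseChange {K : Type u} [Field K] (W : Affine K) [W.IsShortNF] (F : Type u)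
    [Field F] [Algebra K F] : (W⁄F).IsShortNF where
  a₁ := by
    have : (W⁄F).a₁ = algebraMap K F W.a₁ := rfl
    rw [this, WeierstrassCurve.a₁_of_isShortNF, map_zero]
  a₂ := by
    have : (W⁄F).a₂ = algebraMap K F W.a₂ := rfl
    rw [this, WeierstrassCurve.a₂_of_isShortNF, map_zero]
  a₃ := by
    have : (W⁄F).a₃ = algebraMap K F W.a₃ := rfl
    rw [this, WeierstrassCurve.a₃_of_isShortNF, map_zero]

/-- First addition law of Bosma and Lenstra (it degenerates on the diagonal). -/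
def law1 {R : Type u} [CommRing R] (a b : R) (p q : Fin 3 → R) : Fin 3 → R :=
  ![(p 0 * q 1 - q 0 * p 1) * (p 1 * q 2 + q 1 * p 2) + (p 0 * q 2 - q 0 * p 2) * (p 1 * q 1)
      - a * (p 0 * q 2 + q 0 * p 2) * (p 0 * q 2 - q 0 * p 2)
      - 3 * b * (p 0 * q 2 - q 0 * p 2) * (p 2 * q 2),
    -3 * (p 0 * q 0) * (p 0 * q 1 - q 0 * p 1) - (p 1 * q 1) * (p 1 * q 2 - q 1 * p 2)
      - a * (p 0 * q 1 - q 0 * p 1) * (p 2 * q 2)
      + a * (p 0 * q 2 + q 0 * p 2) * (p 1 * q 2 - q 1 * p 2)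
      + 3 * b * (p 1 * q 2 - q 1 * p 2) * (p 2 * q 2),
    3 * (p 0 * q 0) * (p 0 * q 2 - q 0 * p 2)
      - (p 1 * q 2 + q 1 * p 2) * (p 1 * q 2 - q 1 * p 2)
      + a * (p 0 * q 2 - q 0 * p 2) * (p 2 * q 2)]

/-- Second addition law of Bosma and Lenstra. -/
def law2 {R : Type u} [CommRing R] (a b : R) (p q : Fin 3 → R) : Fin 3 → R :=
  ![(p 1 * q 1) * (p 0 * q 1 + q 0 * p 1) - a * (p 0 * q 0) * (p 1 * q 2 + q 1 * p 2)
      - a * (p 0 * q 1 + q 0 * p 1) * (p 0 * q 2 + q 0 * p 2)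
      - 3 * b * (p 0 * q 1 + q 0 * p 1) * (p 2 * q 2)
      - 3 * b * (p 0 * q 2 + q 0 * p 2) * (p 1 * q 2 + q 1 * p 2)
      + a ^ 2 * (p 1 * q 2 + q 1 * p 2) * (p 2 * q 2),
    p 1 ^ 2 * q 1 ^ 2 + 3 * a * (p 0 ^ 2 * q 0 ^ 2) + 9 * b * (p 0 * q 0) * (p 0 * q 2 + q 0 * p 2)
      - a ^ 2 * (p 0 * q 2) * (p 0 * q 2 + 2 * (q 0 * p 2))
      - a ^ 2 * (q 0 * p 2) * (2 * (p 0 * q 2) + q 0 * p 2)
      - 3 * a * b * (p 2 * q 2) * (p 0 * q 2 + q 0 * p 2)
      - (a ^ 3 + 9 * b ^ 2) * (p 2 ^ 2 * q 2 ^ 2),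
    3 * (p 0 * q 0) * (p 0 * q 1 + q 0 * p 1) + (p 1 * q 1) * (p 1 * q 2 + q 1 * p 2)
      + a * (p 0 * q 1 + q 0 * p 1) * (p 2 * q 2)
      + a * (p 0 * q 2 + q 0 * p 2) * (p 1 * q 2 + q 1 * p 2)
      + 3 * b * (p 1 * q 2 + q 1 * p 2) * (p 2 * q 2)]

/-- A finite set of representations of `P ↦ ∑ b_i P_i` by multihomogeneous polynomials of
multidegree `d`, at least one of which is nondegenerate at any given `P`. -/
structure RepSet {K : Type u} [Field K] (W : Affine K) {n : ℕ} (b : Fin n → ℤ) (d : Fin n → ℕ)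
    (S : Finset (Fin 3 → MvPolynomial (Fin n × Fin 3) K)) : Prop where
  homog : ∀ ρ ∈ S, ∀ k, MultiHom (ρ k) d
  spec : ∀ (F : Type u) [Field F] [DecidableEq F] [Algebra K F] (P : Fin n → (W⁄F).Point)
    (x : Fin n × Fin 3 → F), IsCoord P x → ∀ ρ ∈ S, ∃ l : F, ∀ k,
      aeval x (ρ k) = l * coords (∑ i, b i • P i) k
  complete : ∀ (F : Type u) [Field F] [DecidableEq F] [Algebra K F] (P : Fin n → (W⁄F).Point)
    (x : Fin n × Fin 3 → F), IsCoord P x → ∃ ρ ∈ S, ∃ k, aeval x (ρ k) ≠ 0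

/-- The form of multidegree `c` in the coordinates `(X : Z)` of `s` points attached to a
polynomial `f(x_1, …, x_s)` with `deg_j f ≤ c_j`. -/
noncomputable def homForm {K : Type u} [Field K] {A : Type u} [CommRing A] [Algebra K A] {s : ℕ}
    (f : MvPolynomial (Fin s) K) (c : Fin s → ℕ) (r : Fin s → Fin 3 → A) : A :=
  ∑ e ∈ f.support, algebraMap K A (coeff e f) * ∏ j, (r j 0 ^ e j * r j 2 ^ (c j - e j))

/-- The dimension over `K` of the space of forms of multidegree `(D, …, D)` modulo `I`. -/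
noncomputable def hilb {K : Type u} [Field K] {n : ℕ} (I : Ideal (MvPolynomial (Fin n × Fin 3) K))
    (D : ℕ) : ℕ :=
  Module.finrank K ((weightedHomogeneousSubmodule K (wt n) (fun _ => D)).map
    (Ideal.Quotient.mkₐ K I).toLinearMap)

/-- The closed subscheme of `(P²)^n` defined by `I` has dimension at most `m`: its Hilbert
function in the multidegrees `(D, …, D)` is `O(D^m)`. -/
def DimLE {K : Type u} [Field K] {n : ℕ} (I : Ideal (MvPolynomial (Fin n × Fin 3) K)) (m : ℕ) :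
    Prop :=
  ∃ C : ℕ, ∀ D : ℕ, hilb I D ≤ C * (D + 1) ^ m

/-- How close `P` is to the subscheme `F_1 = … = F_t = 0`, w.r.t. an absolute value. -/
noncomputable def closeness {K L : Type u} [Field K] [Field L] [Algebra K L] {W : Affine L}
    {n t : ℕ} (F : Fin t → MvPolynomial (Fin n × Fin 3) K) (D : Fin t → Fin n → ℕ)
    (P : Fin n → W.Point) (v : L → ℝ) : ℝ :=
  ⨆ j, v (aeval (fun q : Fin n × Fin 3 => coords (P q.1) q.2) (F j)) /
    ∏ i, (⨆ k, v (coords (P i) k)) ^ D j i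

/-- Sum over all places of `- log closeness`. -/
noncomputable def centreSum {K L : Type u} [Field K] [Field L] [NumberField L] [Algebra K L]
    {W : Affine L} {n t : ℕ} (F : Fin t → MvPolynomial (Fin n × Fin 3) K)
    (D : Fin t → Fin n → ℕ) (P : Fin n → W.Point) : ℝ :=
  ∑ w : InfinitePlace L, w.mult * (-Real.log (closeness F D P w)) +
    ∑ᶠ w : FinitePlace L, -Real.log (closeness F D P w)

/-- The coordinates of `P` generate a subgroup of rank at most `r`. -/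
def RankLE {A : Type u} [AddCommGroup A] {n : ℕ} (P : Fin n → A) (r : ℕ) : Prop :=
  ∃ Q : Fin r → A, ∀ i, ∃ N : ℤ, N ≠ 0 ∧ N • P i ∈ AddSubgroup.closure (Set.range Q)

end Pool.Agent.GE
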