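import Mathlib
import Pool.Agent.GE.Defs

/-! # Certificates (module Cert) -/

set_option autoImplicit false

open MvPolynomial WeierstrassCurve WeierstrassCurve.Affine

namespace Pool.Agent.GE

universe u

/-- Radical = intersection of primes, in the language of points over fields. -/
theorem mem_radical_of_forall {K : Type u} {σ : Type} [Field K] (I : Ideal (MvPolynomial σ K))
    (f : MvPolynomial σ K)
    (h : ∀ (F : Type u) [Field F] [Algebra K F] (x : σ → F), (∀ g ∈ I, aeval x g = 0) →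
      aeval x f = 0) : f ∈ I.radical := by
  rw [Ideal.radical_eq_sInf, Ideal.mem_sInf]
  rintro J ⟨hIJ, hJ⟩
  let F := FractionRing (MvPolynomial σ K ⧸ J)
  let x : σ → F := fun v => algebraMap (MvPolynomial σ K ⧸ J) F (Ideal.Quotient.mk J (X v))
  have hx : ∀ g : MvPolynomial σ K, aeval x g =
      algebraMap (MvPolynomial σ K ⧸ J) F (Ideal.Quotient.mk J g) := by
    intro g
    have : (aeval x : MvPolynomial σ K →ₐ[K] F) =
        (IsScalarTower.toAlgHom K (MvPolynomial σ K ⧸ J) F).comp (Ideal.Quotient.mkₐ K J) := by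
      ext v
      simp [x]
    rw [this]
    rfl
  have h0 := h F x (fun g hg => by
    rw [hx, Ideal.Quotient.eq_zero_iff_mem.mpr (hIJ hg), map_zero])
  rw [hx] at h0
  have h1 : Ideal.Quotient.mk J f = 0 := by
    apply IsFractionRing.injective (MvPolynomial σ K ⧸ J) F
    rw [h0, map_zero]
  exact Ideal.Quotient.eq_zero_iff_mem.mp h1

theorem exists_point {K : Type u} [Field K] (W : Affine K) [W.IsElliptic] [W.IsShortNF] {n : ℕ}
    (F : Type u) [Field F] [Algebra K F] (x : Fin n × Fin 3 → F)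
    (hcurve : ∀ i, aeval x (curveEq W (n := n) i) = 0) (hx : ∀ i, ∃ k, x (i, k) ≠ 0) :
    ∃ P : Fin n → (W⁄F).Point, IsCoord P x := by
  suffices h : ∀ i, ∃ P : (W⁄F).Point, ∃ s : F, s ≠ 0 ∧ ∀ k, x (i, k) = s * coords P k by
    choose P hP using h
    exact ⟨P, hP⟩
  intro i
  have hc := hcurve i
  simp only [curveEq, map_sub, map_mul, map_pow, aeval_X, MvPolynomial.algHom_C] at hc
  by_cases hz : x (i, 2) = 0
  · rw [hz] at hc
    have h0 : x (i, 0) = 0 := by
      apply pow_eq_zero_iff (three_ne_zero) |>.mp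
      linear_combination -hc
    have h1 : x (i, 1) ≠ 0 := by
      obtain ⟨k, hk⟩ := hx i
      fin_cases k
      · exact absurd h0 hk
      · exact hk
      · exact absurd hz hk
    refine ⟨0, x (i, 1), h1, fun k => ?_⟩
    have e : coords (0 : (W⁄F).Point) = ![0, 1, 0] := rfl
    rw [e]
    fin_cases k
    · simpa using h0
    · simp
    · simpa using hz
  · have heq : (W⁄F).Equation (x (i, 0) / x (i, 2)) (x (i, 1) / x (i, 2)) := by
      rw [equation_iff, a₁_of_isShortNF, a₂_of_isShortNF, a₃_of_isShortNF]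
      have e4 : (W⁄F).a₄ = algebraMap K F W.a₄ := rfl
      have e6 : (W⁄F).a₆ = algebraMap K F W.a₆ := rfl
      rw [e4, e6]
      field_simp
      linear_combination hc
    have hns : (W⁄F).Nonsingular (x (i, 0) / x (i, 2)) (x (i, 1) / x (i, 2)) :=
      equation_iff_nonsingular.mp heq
    refine ⟨Point.some _ _ hns, x (i, 2), hz, fun k => ?_⟩
    have e : coords (Point.some _ _ hns) = ![x (i, 0) / x (i, 2), x (i, 1) / x (i, 2), 1] := rfl
    rw [e]
    fin_cases k
    · simp only [Fin.zero_eta, Matrix.cons_val_zero]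
      rw [mul_div_cancel₀ _ hz]
    · simp only [Fin.mk_one, Matrix.cons_val_one, Matrix.cons_val_zero]
      rw [mul_div_cancel₀ _ hz]
    · simp

theorem RepSet.cert {K : Type u} [Field K] {W : Affine K} [W.IsElliptic] [W.IsShortNF] {n : ℕ}
    {b : Fin n → ℤ} {d : Fin n → ℕ} {S : Finset (Fin 3 → MvPolynomial (Fin n × Fin 3) K)}
    (hS : RepSet W b d S) (T : Fin n → Fin 3) :
    ∏ i, (X (i, T i) : MvPolynomial (Fin n × Fin 3) K) ∈
      (Ideal.span ({p | ∃ ρ ∈ S, ∃ k, p = ρ k} ∪ Set.range (curveEq W (n := n)))).radical := by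
  classical
  apply mem_radical_of_forall
  intro F _ _ x hx
  rw [map_prod]
  simp only [aeval_X]
  by_contra hne
  have hne' : ∀ i, x (i, T i) ≠ 0 := fun i =>
    (Finset.prod_ne_zero_iff.mp hne) i (Finset.mem_univ i)
  obtain ⟨P, hP⟩ := exists_point W F x
    (fun i => hx _ (Ideal.subset_span (Or.inr ⟨i, rfl⟩))) (fun i => ⟨T i, hne' i⟩)
  obtain ⟨ρ, hρ, k, hk⟩ := hS.complete F P x hP
  exact hk (hx _ (Ideal.subset_span (Or.inl ⟨ρ, hρ, k, rfl⟩)))

end Pool.Agent.GE
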