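import Mathlib
import Pool.Agent.GE.Defs

/-! # Formal properties of `homForm` (module Hom) -/

set_option autoImplicit false

open MvPolynomial WeierstrassCurve WeierstrassCurve.Affine

namespace Pool.Agent.GE

universe u

section

variable {K : Type u} [Field K] {A B : Type u} [CommRing A] [Algebra K A] [CommRing B]
  [Algebra K B] {s : ℕ}

lemma homForm_map (φ : A →ₐ[K] B) (f : MvPolynomial (Fin s) K) (c : Fin s → ℕ)
    (r : Fin s → Fin 3 → A) :
    φ (homForm f c r) = homForm f c (fun j k => φ (r j k)) := by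
  simp only [homForm, map_sum, map_mul, map_prod, map_pow, AlgHom.commutes]

lemma homForm_smul (f : MvPolynomial (Fin s) K) (c : Fin s → ℕ) (hd : ∀ j, degreeOf j f ≤ c j)
    (l : Fin s → A) (r : Fin s → Fin 3 → A) :
    homForm f c (fun j k => l j * r j k) = (∏ j, l j ^ c j) * homForm f c r := by
  simp only [homForm, Finset.mul_sum]
  refine Finset.sum_congr rfl fun e he => ?_
  have h : ∏ j, ((l j * r j 0) ^ e j * (l j * r j 2) ^ (c j - e j)) =
      (∏ j, l j ^ c j) * ∏ j, (r j 0 ^ e j * r j 2 ^ (c j - e j)) := by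
    rw [← Finset.prod_mul_distrib]
    refine Finset.prod_congr rfl fun j _ => ?_
    have hj : e j ≤ c j := (monomial_le_degreeOf j he).trans (hd j)
    rw [mul_pow, mul_pow]
    calc _ = l j ^ (e j + (c j - e j)) * (r j 0 ^ e j * r j 2 ^ (c j - e j)) := by
          rw [pow_add]; ring
      _ = _ := by rw [Nat.add_sub_cancel' hj]
  rw [h]
  ring

end

lemma homForm_multiHom {K : Type u} [Field K] {n s : ℕ} (f : MvPolynomial (Fin s) K)
    (c : Fin s → ℕ) (hd : ∀ j, degreeOf j f ≤ c j) (d : Fin s → Fin n → ℕ)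
    (ρ : Fin s → Fin 3 → MvPolynomial (Fin n × Fin 3) K) (hρ : ∀ j k, MultiHom (ρ j k) (d j)) :
    MultiHom (homForm f c ρ) (∑ j, c j • d j) := by
  unfold MultiHom homForm
  refine IsWeightedHomogeneous.sum _ _ _ fun e he => ?_
  have h1 : IsWeightedHomogeneous (wt n) (algebraMap K (MvPolynomial (Fin n × Fin 3) K)
      (coeff e f)) 0 := by
    rw [MvPolynomial.algebraMap_eq]
    exact isWeightedHomogeneous_C _ _
  have h2 : IsWeightedHomogeneous (wt n) (∏ j, (ρ j 0 ^ e j * ρ j 2 ^ (c j - e j)))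
      (∑ j, c j • d j) := by
    refine IsWeightedHomogeneous.prod _ _ _ fun j _ => ?_
    have hj : e j ≤ c j := (monomial_le_degreeOf j he).trans (hd j)
    have h3 := ((hρ j 0).pow (e j)).mul ((hρ j 2).pow (c j - e j))
    rw [← add_smul, Nat.add_sub_cancel' hj] at h3
    exact h3
  have h4 := h1.mul h2
  rwa [zero_add] at h4

end Pool.Agent.GE
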