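import Mathlib
import Pool.Agent.GE.Cert
import Pool.Agent.GE.Hom

/-! # The dimension count (module Dim) -/

set_option autoImplicit false

open MvPolynomial WeierstrassCurve WeierstrassCurve.Affine

namespace Pool.Agent.GE

universe u

/-- `homForm` as a linear map in `f`. -/
noncomputable def homFormL {K : Type u} [Field K] {A : Type u} [CommRing A] [Algebra K A] {s : ℕ}
    (c : Fin s → ℕ) (r : Fin s → Fin 3 → A) : MvPolynomial (Fin s) K →ₗ[K] A :=
  (basisMonomials (Fin s) K).constr K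
    (fun e : Fin s →₀ ℕ => ∏ j, (r j 0 ^ e j * r j 2 ^ (c j - e j)))

lemma homFormL_apply {K : Type u} [Field K] {A : Type u} [CommRing A] [Algebra K A] {s : ℕ}
    (c : Fin s → ℕ) (r : Fin s → Fin 3 → A) (f : MvPolynomial (Fin s) K) :
    homFormL c r f = homForm f c r := by
  have h1 : ∀ e : Fin s →₀ ℕ, ∀ a : K, homFormL c r (monomial e a) =
      algebraMap K A a * ∏ j, (r j 0 ^ e j * r j 2 ^ (c j - e j)) := by
    intro e a
    have : (monomial e a : MvPolynomial (Fin s) K) = a • basisMonomials (Fin s) K e := by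
      rw [coe_basisMonomials, smul_monomial, smul_eq_mul, mul_one]
    rw [this, map_smul, homFormL, Module.Basis.constr_basis, Algebra.smul_def]
  conv_lhs => rw [← support_sum_monomial_coeff f]
  rw [map_sum, homForm]
  exact Finset.sum_congr rfl fun e _ => h1 e _

section

variable {K : Type u} [Field K]

/-- The finite-dimensional space of forms of multidegree `(D, …, D)`. -/
lemma finite_forms {n : ℕ} (D : ℕ) :
    Module.Finite K (weightedHomogeneousSubmodule K (wt n) (fun _ => D)) := by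
  set s : Set (Fin n × Fin 3 →₀ ℕ) := {e | ∀ v, e v ≤ D} with hs
  have hfin : s.Finite := by
    have : s = Set.Iic (Finsupp.equivFunOnFinite.symm fun _ => D) := by
      ext e
      simp only [hs, Set.mem_ofPred_eq, Set.mem_Iic, Finsupp.le_def,
        Finsupp.equivFunOnFinite_symm_apply_apply]
    rw [this]
    exact Set.finite_Iic _
  have hle : weightedHomogeneousSubmodule K (wt n) (fun _ => D) ≤ restrictSupport K s := by
    intro p hp
    rw [mem_restrictSupport_iff]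
    intro e he v
    have h1 := hp (mem_support_iff.mp he)
    have h2 := congrFun h1 v.1
    rw [Finsupp.weight_apply, Finsupp.sum, Finset.sum_apply] at h2
    by_cases hv : v ∈ e.support
    · have h3 := Finset.single_le_sum (f := fun a => (e a • wt n a) v.1)
        (fun _ _ => Nat.zero_le _) hv
      have h4 : (e v • wt n v) v.1 = e v := by
        simp [wt]
      rw [h2] at h3
      simpa [h4] using h3
    · rw [Finsupp.notMem_support_iff.mp hv]
      exact Nat.zero_le _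
  have : Module.Finite K (restrictSupport K s) := by
    have := hfin.to_subtype
    exact Module.Finite.of_basis (basisRestrictSupport K s)
  exact Submodule.finiteDimensional_of_le hle

lemma finrank_forms_map_le {n : ℕ} {I J : Ideal (MvPolynomial (Fin n × Fin 3) K)} (h : I ≤ J)
    (D : ℕ) : Module.finrank K ((weightedHomogeneousSubmodule K (wt n) (fun _ => D)).map
      (Ideal.Quotient.mkₐ K J).toLinearMap) ≤ hilb I D := by
  have hfin := finite_forms (K := K) (n := n) D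
  have e : (Ideal.Quotient.mkₐ K J).toLinearMap =
      (Ideal.Quotient.factorₐ K h).toLinearMap ∘ₗ (Ideal.Quotient.mkₐ K I).toLinearMap := by
    ext x
    rfl
  rw [e, Submodule.map_comp]
  exact Submodule.finrank_map_le _ _

/-- The space of polynomials with `deg_j ≤ c_j`. -/
lemma finrank_restrict {s : ℕ} (c : Fin s → ℕ) :
    Module.finrank K (restrictSupport K {e : Fin s →₀ ℕ | ∀ j, e j ≤ c j}) =
      ∏ j, (c j + 1) := by
  classical
  set t : Set (Fin s →₀ ℕ) := {e | ∀ j, e j ≤ c j} with ht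
  have e1 : t = ↑(Finset.Iic (Finsupp.equivFunOnFinite.symm c)) := by
    ext e
    simp only [ht, Set.mem_ofPred_eq, Finset.coe_Iic, Set.mem_Iic, Finsupp.le_def,
      Finsupp.equivFunOnFinite_symm_apply_apply]
  rw [Module.finrank_eq_nat_card_basis (basisRestrictSupport K t), e1]
  rw [Nat.card_coe_set_eq, Set.ncard_coe_finset, Finsupp.card_Iic]
  have h2 : ∀ j, (Finset.Iic ((Finsupp.equivFunOnFinite.symm c) j)).card = c j + 1 := by
    intro j
    rw [Nat.card_Iic, Finsupp.equivFunOnFinite_symm_apply_apply]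
  simp only [h2]
  apply Finset.prod_subset (Finset.subset_univ _)
  intro j _ hj
  rw [Finsupp.notMem_support_iff, Finsupp.equivFunOnFinite_symm_apply_apply] at hj
  rw [hj, zero_add]

variable (W : Affine K) [W.IsElliptic] [W.IsShortNF] {n s : ℕ}

/-- At a prime not containing an irrelevant ideal there are nondegenerate representations, and
vanishing can be tested with them. -/
lemma prime_lemma (𝔭 : Ideal (MvPolynomial (Fin n × Fin 3) K)) [h𝔭 : 𝔭.IsPrime]
    (hcurve : ∀ i, curveEq W (n := n) i ∈ 𝔭)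
    (hgood : ∀ i, ∃ k, (X (i, k) : MvPolynomial (Fin n × Fin 3) K) ∉ 𝔭)
    (b : Fin s → Fin n → ℤ) (c : Fin s → ℕ)
    (d : Fin s → Fin n → ℕ) (S : Fin s → Finset (Fin 3 → MvPolynomial (Fin n × Fin 3) K))
    (hS : ∀ j, RepSet W (b j) (d j) (S j)) :
    ∃ ρ : Fin s → Fin 3 → MvPolynomial (Fin n × Fin 3) K, (∀ j, ρ j ∈ S j) ∧
      ∀ f : MvPolynomial (Fin s) K, (∀ j, degreeOf j f ≤ c j) → homForm f c ρ ∈ 𝔭 →
        ∀ ρ' : Fin s → Fin 3 → MvPolynomial (Fin n × Fin 3) K, (∀ j, ρ' j ∈ S j) →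
          homForm f c ρ' ∈ 𝔭 := by
  classical
  let F := FractionRing (MvPolynomial (Fin n × Fin 3) K ⧸ 𝔭)
  let x : Fin n × Fin 3 → F :=
    fun v => algebraMap (MvPolynomial (Fin n × Fin 3) K ⧸ 𝔭) F (Ideal.Quotient.mk 𝔭 (X v))
  have hx : ∀ g : MvPolynomial (Fin n × Fin 3) K, aeval x g =
      algebraMap (MvPolynomial (Fin n × Fin 3) K ⧸ 𝔭) F (Ideal.Quotient.mk 𝔭 g) := by
    intro g
    have : (aeval x : MvPolynomial (Fin n × Fin 3) K →ₐ[K] F) =
        (IsScalarTower.toAlgHom K (MvPolynomial (Fin n × Fin 3) K ⧸ 𝔭) F).comp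
          (Ideal.Quotient.mkₐ K 𝔭) := by
      ext v
      simp [x]
    rw [this]
    rfl
  have hx0 : ∀ g : MvPolynomial (Fin n × Fin 3) K, aeval x g = 0 ↔ g ∈ 𝔭 := by
    intro g
    rw [hx, ← Ideal.Quotient.eq_zero_iff_mem]
    constructor
    · intro h
      apply IsFractionRing.injective (MvPolynomial (Fin n × Fin 3) K ⧸ 𝔭) F
      rw [h, map_zero]
    · intro h
      rw [h, map_zero]
  obtain ⟨P, hP⟩ := exists_point W F x (fun i => (hx0 _).mpr (hcurve i)) (fun i => by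
    obtain ⟨k, hk⟩ := hgood i
    refine ⟨k, fun h => hk ?_⟩
    rw [← hx0, aeval_X]
    exact h)
  have h1 := fun j => (hS j).complete F P x hP
  choose ρ hρ k hk using h1
  refine ⟨ρ, hρ, ?_⟩
  intro f hf hmem ρ' hρ'
  have h2 : ∀ j, ∃ l : F, ∀ k, aeval x (ρ j k) =
      l * coords (∑ i, b j i • P i) k := fun j => (hS j).spec F P _ hP _ (hρ j)
  choose l hl using h2
  have h2' : ∀ j, ∃ l : F, ∀ k, aeval x (ρ' j k) =
      l * coords (∑ i, b j i • P i) k := fun j => (hS j).spec F P _ hP _ (hρ' j)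
  choose l' hl' using h2'
  have hl0 : ∀ j, l j ≠ 0 := fun j h0 => hk j (by rw [hl j, h0, zero_mul])
  have h3 : aeval x (homForm f c ρ) =
      (∏ j, l j ^ c j) * homForm f c (fun j => coords (∑ i, b j i • P i)) := by
    rw [homForm_map, ← homForm_smul f c hf]
    congr 1
    funext j k
    exact hl j k
  have h3' : aeval x (homForm f c ρ') =
      (∏ j, l' j ^ c j) * homForm f c (fun j => coords (∑ i, b j i • P i)) := by
    rw [homForm_map, ← homForm_smul f c hf]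
    congr 1
    funext j k
    exact hl' j k
  rw [(hx0 _).mpr hmem] at h3
  have h4 : homForm f c (fun j => coords (∑ i, b j i • P i)) = 0 := by
    rcases mul_eq_zero.mp h3.symm with h | h
    · exact absurd h (Finset.prod_ne_zero_iff.mpr fun j _ => pow_ne_zero _ (hl0 j))
    · exact h
  rw [h4, mul_zero] at h3'
  exact (hx0 _).mp h3'

/-- Existence of the auxiliary function vanishing on the centre. -/
theorem exists_aux {m : ℕ}
    (I : Ideal (MvPolynomial (Fin n × Fin 3) K)) (hI : ∀ i, curveEq W (n := n) i ∈ I)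
    (hdim : DimLE I m) : ∃ A : ℕ, ∀ (s : ℕ) (b : Fin s → Fin n → ℤ) (c : Fin s → ℕ)
      (d : Fin s → Fin n → ℕ) (S : Fin s → Finset (Fin 3 → MvPolynomial (Fin n × Fin 3) K)),
      (∀ j, RepSet W (b j) (d j) (S j)) → ∀ D : ℕ, (∀ i, ∑ j, c j * d j i ≤ D) →
      A * (D + 1) ^ m < ∏ j, (c j + 1) →
      ∃ f : MvPolynomial (Fin s) K, f ≠ 0 ∧ (∀ j, degreeOf j f ≤ c j) ∧
        ∀ ρ : Fin s → Fin 3 → MvPolynomial (Fin n × Fin 3) K, (∀ j, ρ j ∈ S j) →
          ∀ T : Fin n → Fin 3, homForm f c ρ * ∏ i, X (i, T i) ∈ I.radical := by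
  classical
  obtain ⟨C, hC⟩ := hdim
  have h𝓜fin : I.minimalPrimes.Finite := Ideal.finite_minimalPrimes_of_isNoetherianRing _ I
  set 𝓟 : Finset (Ideal (MvPolynomial (Fin n × Fin 3) K)) :=
    h𝓜fin.toFinset.filter (fun 𝔭 => ∀ i, ∃ k, (X (i, k) : MvPolynomial (Fin n × Fin 3) K) ∉ 𝔭)
    with h𝓟
  refine ⟨𝓟.card * C, ?_⟩
  intro s b c d S hS D hD hcount
  have hprime : ∀ 𝔭 : 𝓟, 𝔭.1.IsPrime ∧ I ≤ 𝔭.1 ∧
      ∀ i, ∃ k, (X (i, k) : MvPolynomial (Fin n × Fin 3) K) ∉ 𝔭.1 := by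
    rintro ⟨𝔭, h⟩
    rw [h𝓟, Finset.mem_filter, h𝓜fin.mem_toFinset] at h
    exact ⟨h.1.1.1, h.1.1.2, h.2⟩
  have hch : ∀ 𝔭 : 𝓟, ∃ ρ : Fin s → Fin 3 → MvPolynomial (Fin n × Fin 3) K, (∀ j, ρ j ∈ S j) ∧
      ∀ f : MvPolynomial (Fin s) K, (∀ j, degreeOf j f ≤ c j) → homForm f c ρ ∈ 𝔭.1 →
        ∀ ρ' : Fin s → Fin 3 → MvPolynomial (Fin n × Fin 3) K, (∀ j, ρ' j ∈ S j) →
          homForm f c ρ' ∈ 𝔭.1 := by
    intro 𝔭
    have := (hprime 𝔭).1
    exact prime_lemma W 𝔭.1 (fun i => (hprime 𝔭).2.1 (hI i)) (hprime 𝔭).2.2 b c d S hS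
  choose ρ hρ hρ2 using hch
  choose T hT using fun 𝔭 : 𝓟 => (hprime 𝔭).2.2
  -- the linear map
  set δ : Fin n → ℕ := ∑ j, c j • d j with hδ
  have hδD : ∀ i, δ i ≤ D := by
    intro i
    rw [hδ, Finset.sum_apply]
    simpa using hD i
  set V := restrictSupport K {e : Fin s →₀ ℕ | ∀ j, e j ≤ c j} with hV
  have hVdeg : ∀ f ∈ V, ∀ j, degreeOf j f ≤ c j := by
    intro f hf j
    rw [degreeOf_le_iff]
    intro e he
    exact ((mem_restrictSupport_iff K).mp hf) he j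
  let Wp : ∀ 𝔭 : 𝓟, Submodule K (MvPolynomial (Fin n × Fin 3) K ⧸ 𝔭.1) := fun 𝔭 =>
    (weightedHomogeneousSubmodule K (wt n) (fun _ => D)).map
      (Ideal.Quotient.mkₐ K 𝔭.1).toLinearMap
  let mono : 𝓟 → MvPolynomial (Fin n × Fin 3) K := fun 𝔭 => ∏ i, X (i, T 𝔭 i) ^ (D - δ i)
  have hmono : ∀ 𝔭, MultiHom (mono 𝔭) (fun i => D - δ i) := by
    intro 𝔭
    have h1 : MultiHom (mono 𝔭) (∑ i, (D - δ i) • (Pi.single i 1 : Fin n → ℕ)) :=
      IsWeightedHomogeneous.prod _ _ _ fun i _ =>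
        (isWeightedHomogeneous_X K (wt n) (i, T 𝔭 i)).pow (D - δ i)
    have h2 : (∑ i, (D - δ i) • (Pi.single i 1 : Fin n → ℕ)) = fun i => D - δ i := by
      funext i
      rw [Finset.sum_apply]
      rw [Finset.sum_eq_single i]
      · simp
      · intro j _ hj
        simp [Pi.single_eq_of_ne hj.symm]
      · intro h; exact absurd (Finset.mem_univ i) h
    rwa [h2] at h1
  have hmem : ∀ 𝔭 : 𝓟, ∀ f : V, homFormL c (ρ 𝔭) (f : MvPolynomial (Fin s) K) * mono 𝔭 ∈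
      weightedHomogeneousSubmodule K (wt n) (fun _ => D) := by
    intro 𝔭 f
    rw [homFormL_apply]
    have h1 : MultiHom (homForm (f : MvPolynomial (Fin s) K) c (ρ 𝔭)) δ :=
      homForm_multiHom _ c (hVdeg f f.2) d (ρ 𝔭) (fun j k => (hS j).homog _ (hρ 𝔭 j) k)
    have h2 := IsWeightedHomogeneous.mul h1 (hmono 𝔭)
    have h3 : (δ + fun i => D - δ i) = fun _ => D := by
      funext i
      simp only [Pi.add_apply]
      exact Nat.add_sub_cancel' (hδD i)
    rw [h3] at h2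
    exact h2
  let Φ : V →ₗ[K] (∀ 𝔭 : 𝓟, Wp 𝔭) := LinearMap.pi fun 𝔭 =>
    LinearMap.codRestrict _ ((Ideal.Quotient.mkₐ K 𝔭.1).toLinearMap ∘ₗ
      (LinearMap.mulRight K (mono 𝔭)) ∘ₗ (homFormL c (ρ 𝔭)) ∘ₗ V.subtype)
      (fun f => ⟨_, hmem 𝔭 f, rfl⟩)
  have hVfin : Module.Finite K V := by
    apply Module.finite_of_finrank_pos
    rw [hV, finrank_restrict]
    exact Finset.prod_pos fun j _ => Nat.succ_pos _
  have hWfin : ∀ 𝔭, Module.Finite K (Wp 𝔭) := by
    intro 𝔭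
    have := finite_forms (K := K) (n := n) D
    exact Module.Finite.map _ _
  have hWfree : ∀ 𝔭, Module.Free K (Wp 𝔭) := fun 𝔭 => Module.Free.of_divisionRing K (Wp 𝔭)
  have hfr : Module.finrank K (∀ 𝔭 : 𝓟, Wp 𝔭) < Module.finrank K V := by
    rw [hV, finrank_restrict, Module.finrank_pi_fintype]
    refine lt_of_le_of_lt ?_ hcount
    calc ∑ 𝔭 : 𝓟, Module.finrank K (Wp 𝔭) ≤ ∑ _𝔭 : 𝓟, C * (D + 1) ^ m :=
          Finset.sum_le_sum fun 𝔭 _ =>
            (finrank_forms_map_le (hprime 𝔭).2.1 D).trans (hC D)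
      _ = 𝓟.card * C * (D + 1) ^ m := by
          rw [Finset.sum_const, Finset.card_univ, Fintype.card_coe, smul_eq_mul, mul_assoc]
  have hker : LinearMap.ker Φ ≠ ⊥ :=
    LinearMap.ker_ne_bot_of_finrank_lt (K := K) (V := V) (V₂ := ∀ 𝔭 : 𝓟, Wp 𝔭) (f := Φ) hfr
  obtain ⟨f, hf, hf0⟩ := (Submodule.ne_bot_iff _).mp hker
  refine ⟨f, fun h => hf0 (Subtype.ext h), hVdeg f f.2, ?_⟩
  have hΦ : ∀ 𝔭 : 𝓟, homForm (f : MvPolynomial (Fin s) K) c (ρ 𝔭) ∈ 𝔭.1 := by
    intro 𝔭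
    have h1 : Φ f = 0 := hf
    have h2 : (Ideal.Quotient.mkₐ K 𝔭.1) (homFormL c (ρ 𝔭) (f : MvPolynomial (Fin s) K) *
        mono 𝔭) = 0 := congrArg Subtype.val (congrFun h1 𝔭)
    rw [homFormL_apply] at h2
    have h3 := Ideal.Quotient.eq_zero_iff_mem.mp h2
    have := (hprime 𝔭).1
    rcases this.mem_or_mem h3 with h | h
    · exact h
    · exfalso
      rw [Ideal.IsPrime.prod_mem_iff] at h
      obtain ⟨i, -, hi⟩ := h
      exact hT 𝔭 i (this.mem_of_pow_mem _ hi)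
  intro ρ' hρ' T'
  rw [← Ideal.sInf_minimalPrimes, Ideal.mem_sInf]
  intro 𝔮 h𝔮
  by_cases hg : ∀ i, ∃ k, (X (i, k) : MvPolynomial (Fin n × Fin 3) K) ∉ 𝔮
  · have h𝔮' : 𝔮 ∈ 𝓟 := by
      rw [h𝓟, Finset.mem_filter, h𝓜fin.mem_toFinset]
      exact ⟨h𝔮, hg⟩
    exact Ideal.mul_mem_right _ _ (hρ2 ⟨𝔮, h𝔮'⟩ f (hVdeg f f.2) (hΦ ⟨𝔮, h𝔮'⟩) ρ' hρ')
  · push Not at hg
    obtain ⟨i, hi⟩ := hg
    refine Ideal.mul_mem_left _ _ ?_
    rw [← Finset.mul_prod_erase _ _ (Finset.mem_univ i)]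
    exact Ideal.mul_mem_right _ _ (hi _)

end

end Pool.Agent.GE
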