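import Mathlib
import Pool.Agent.GE.Hom
import Pool.Agent.GE.Cert
import Pool.Agent.H7.VojtaLocalBounds
import Pool.Agent.H7.VojtaMain

/-! # Local estimates and their sum (module Local, helper7) -/

set_option autoImplicit false

open MvPolynomial WeierstrassCurve WeierstrassCurve.Affine Height NumberField
open Pool.Agent.H7.Vojta (exists_local_bounds finitePlace_natCast_le_one)

namespace Pool.Agent.GE

universe u

/-- A property of the places of number fields `L ⊇ K` with a constant, which holds with a constant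
that is uniform at the infinite places and `|m|⁻¹` at the finite ones. -/
def Unif (K : Type u) [Field K] [NumberField K]
    (Φ : ∀ (L : Type u) [Field L] [NumberField L] [Algebra K L], AbsoluteValue L ℝ → ℝ → Prop) :
    Prop :=
  ∃ (m : ℕ) (B : ℝ), m ≠ 0 ∧ 1 ≤ B ∧ ∀ (L : Type u) [Field L] [NumberField L] [Algebra K L],
    (∀ v : InfinitePlace L, Φ L v.val B) ∧ (∀ v : FinitePlace L, Φ L v.val (v (m : L))⁻¹)

section unif

variable {K : Type u} [Field K] [NumberField K]

lemma Unif.all {ι : Type*} [Finite ι]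
    {Φ : ι → ∀ (L : Type u) [Field L] [NumberField L] [Algebra K L], AbsoluteValue L ℝ → ℝ → Prop}
    (hmono : ∀ a (L : Type u) [Field L] [NumberField L] [Algebra K L] (v : AbsoluteValue L ℝ)
      (c c' : ℝ), c ≤ c' → Φ a L v c → Φ a L v c')
    (h : ∀ a, Unif K (Φ a)) : Unif K (fun L _ _ _ v c => ∀ a, Φ a L v c) := by
  classical
  have := Fintype.ofFinite ι
  choose m B hm hB hmB using h
  have hB0 : ∀ a, 0 ≤ B a := fun a => zero_le_one.trans (hB a)
  refine ⟨∏ a, m a, 1 + ∑ a, B a, Finset.prod_ne_zero_iff.mpr fun a _ => hm a,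
    by have := Finset.sum_nonneg (s := Finset.univ) fun a _ => hB0 a; linarith, ?_⟩
  intro L _ _ _
  refine ⟨fun v a => ?_, fun v a => ?_⟩
  · refine hmono a L v.val _ _ ?_ ((hmB a L).1 v)
    have := Finset.single_le_sum (f := B) (fun a _ => hB0 a) (Finset.mem_univ a)
    linarith
  · refine hmono a L v.val _ _ ?_ ((hmB a L).2 v)
    have ha : (m a : L) ≠ 0 := by exact_mod_cast hm a
    have hall : ((∏ a, m a : ℕ) : L) ≠ 0 := by
      exact_mod_cast Finset.prod_ne_zero_iff.mpr fun a _ => hm a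
    have h0 : 0 < v (m a : L) := FinitePlace.pos_iff.mpr ha
    have h1 : 0 < v ((∏ a, m a : ℕ) : L) := FinitePlace.pos_iff.mpr hall
    refine inv_anti₀ h1 ?_
    obtain ⟨e, he⟩ := Finset.dvd_prod_of_mem m (Finset.mem_univ a)
    rw [he, Nat.cast_mul, map_mul]
    exact mul_le_of_le_one_right h0.le (finitePlace_natCast_le_one v e)

lemma unif_eval {σ : Type} [Fintype σ] (p : MvPolynomial σ K) :
    Unif K (fun L _ _ _ v c => ∀ x : σ → L, (∀ i, v (x i) ≤ 1) → v (aeval x p) ≤ c) := by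
  classical
  obtain ⟨m, B, hm, hB, hmB⟩ := exists_local_bounds.{u, u} (p.support.image fun e => coeff e p)
  have hcard : (0 : ℝ) ≤ p.support.card := Nat.cast_nonneg _
  refine ⟨m, (p.support.card + 1) * B, hm, by nlinarith, ?_⟩
  intro L _ _ _
  obtain ⟨hinf, hfin⟩ := hmB L
  have hterm : ∀ (v : AbsoluteValue L ℝ) (x : σ → L), (∀ i, v (x i) ≤ 1) → ∀ e,
      v (algebraMap K L (coeff e p) * ∏ i, x i ^ e i) ≤ v (algebraMap K L (coeff e p)) := by
    intro v x hx e
    rw [map_mul, map_prod]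
    refine mul_le_of_le_one_right (v.nonneg _) (Finset.prod_le_one (fun i _ => v.nonneg _) ?_)
    intro i _
    rw [map_pow]
    exact pow_le_one₀ (v.nonneg _) (hx i)
  refine ⟨fun v x hx => ?_, fun v x hx => ?_⟩
  · rw [aeval_def, eval₂_eq']
    calc v.val (∑ e ∈ p.support, algebraMap K L (coeff e p) * ∏ i, x i ^ e i)
        ≤ ∑ e ∈ p.support, v.val (algebraMap K L (coeff e p) * ∏ i, x i ^ e i) :=
          v.val.sum_le _ _
      _ ≤ ∑ e ∈ p.support, B := by
          refine Finset.sum_le_sum fun e he => (hterm v.val x hx e).trans ?_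
          exact hinf v _ (Finset.mem_image_of_mem _ he)
      _ = p.support.card * B := by rw [Finset.sum_const, nsmul_eq_mul]
      _ ≤ _ := by nlinarith
  · have hm' : (m : L) ≠ 0 := by exact_mod_cast hm
    have h0 : 0 < v (m : L) := FinitePlace.pos_iff.mpr hm'
    rw [aeval_def, eval₂_eq']
    refine Finset.sum_induction _ (fun a => v.val a ≤ (v (m : L))⁻¹) ?_ ?_ ?_
    · intro a b ha hb
      exact (FinitePlace.add_le v a b).trans (max_le ha hb)
    · rw [map_zero]
      exact (inv_pos.mpr h0).le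
    · intro e he
      refine (hterm v.val x hx e).trans ?_
      rw [← one_div, le_div_iff₀ h0, mul_comm]
      exact hfin v _ (Finset.mem_image_of_mem _ he)

lemma unif_cert {σ : Type} [Fintype σ] (G Z : Set (MvPolynomial σ K)) (p : MvPolynomial σ K)
    (hp : p ∈ Ideal.span (G ∪ Z)) :
    Unif K (fun L _ _ _ v c => ∀ x : σ → L, (∀ i, v (x i) ≤ 1) → (∀ z ∈ Z, aeval x z = 0) →
      aeval x p ≠ 0 → ∃ g ∈ G, v (aeval x p) ≤ c * v (aeval x g)) := by
  classical
  rw [Ideal.span_union] at hp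
  obtain ⟨p₁, hp₁, p₂, hp₂, rfl⟩ := Submodule.mem_sup.mp hp
  obtain ⟨N, a, g, hag⟩ := Submodule.mem_span_set'.mp hp₁
  have h := Unif.all (K := K) (ι := Fin N)
    (Φ := fun i L _ _ _ v c => ∀ x : σ → L, (∀ i, v (x i) ≤ 1) → v (aeval x (a i)) ≤ c)
    (fun i L _ _ _ v c c' hc h x hx => (h x hx).trans hc) (fun i => unif_eval (a i))
  obtain ⟨m, B, hm, hB, hmB⟩ := h
  refine ⟨m, (N + 1) * B, hm, by nlinarith [(Nat.cast_nonneg N : (0 : ℝ) ≤ N)], ?_⟩
  intro L _ _ _
  obtain ⟨hinf, hfin⟩ := hmB L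
  have hval : ∀ x : σ → L, (∀ z ∈ Z, aeval x z = 0) →
      aeval x (p₁ + p₂) = ∑ i, aeval x (a i) * aeval x (g i).1 := by
    intro x hx
    have h2 : aeval x p₂ = 0 := by
      have hle : Ideal.span Z ≤ RingHom.ker (aeval x : MvPolynomial σ K →ₐ[K] L) := by
        rw [Ideal.span_le]
        intro z hz
        exact hx z hz
      exact hle hp₂
    rw [map_add, h2, add_zero, ← hag, map_sum]
    exact Finset.sum_congr rfl fun i _ => by rw [smul_eq_mul, map_mul]
  have hmax : ∀ (v : AbsoluteValue L ℝ) (x : σ → L), (∀ z ∈ Z, aeval x z = 0) →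
      aeval x (p₁ + p₂) ≠ 0 → ∃ i₀, ∀ i, v (aeval x (g i).1) ≤ v (aeval x (g i₀).1) := by
    intro v x hx h0
    have : Nonempty (Fin N) := by
      by_contra hN
      rw [not_nonempty_iff] at hN
      exact h0 (by rw [hval x hx, Finset.univ_eq_empty, Finset.sum_empty])
    exact Finite.exists_max fun i => v (aeval x (g i).1)
  refine ⟨fun v x hx hz h0 => ?_, fun v x hx hz h0 => ?_⟩
  · obtain ⟨i₀, hi₀⟩ := hmax v.val x hz h0
    refine ⟨_, (g i₀).2, ?_⟩
    have hB0 : 0 ≤ B := zero_le_one.trans hB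
    rw [hval x hz]
    calc v.val (∑ i, aeval x (a i) * aeval x (g i).1)
        ≤ ∑ i, v.val (aeval x (a i) * aeval x (g i).1) := v.val.sum_le _ _
      _ ≤ ∑ i : Fin N, B * v.val (aeval x (g i₀).1) := by
          refine Finset.sum_le_sum fun i _ => ?_
          rw [map_mul]
          exact mul_le_mul (hinf v i x hx) (hi₀ i) (v.val.nonneg _) hB0
      _ = N * (B * v.val (aeval x (g i₀).1)) := by
          rw [Finset.sum_const, Finset.card_univ, Fintype.card_fin, nsmul_eq_mul]
      _ ≤ _ := by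
          have := mul_nonneg hB0 (v.val.nonneg (aeval x (g i₀).1))
          nlinarith
  · obtain ⟨i₀, hi₀⟩ := hmax v.val x hz h0
    refine ⟨_, (g i₀).2, ?_⟩
    have hm' : (m : L) ≠ 0 := by exact_mod_cast hm
    have hpos : 0 < v (m : L) := FinitePlace.pos_iff.mpr hm'
    rw [hval x hz]
    refine Finset.sum_induction _
      (fun b => v.val b ≤ (v (m : L))⁻¹ * v.val (aeval x (g i₀).1)) ?_ ?_ ?_
    · intro a b ha hb
      exact (FinitePlace.add_le v a b).trans (max_le ha hb)
    · rw [map_zero]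
      exact mul_nonneg (inv_pos.mpr hpos).le (v.val.nonneg _)
    · intro i _
      rw [map_mul]
      exact mul_le_mul (hfin v i x hx) (hi₀ i) (v.val.nonneg _) (inv_pos.mpr hpos).le

lemma Unif.and
    {Φ Ψ : ∀ (L : Type u) [Field L] [NumberField L] [Algebra K L], AbsoluteValue L ℝ → ℝ → Prop}
    (hΦ : ∀ (L : Type u) [Field L] [NumberField L] [Algebra K L] (v : AbsoluteValue L ℝ)
      (c c' : ℝ), c ≤ c' → Φ L v c → Φ L v c')
    (hΨ : ∀ (L : Type u) [Field L] [NumberField L] [Algebra K L] (v : AbsoluteValue L ℝ)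
      (c c' : ℝ), c ≤ c' → Ψ L v c → Ψ L v c')
    (h : Unif K Φ) (h' : Unif K Ψ) : Unif K (fun L _ _ _ v c => Φ L v c ∧ Ψ L v c) := by
  obtain ⟨m, B, hm, hB, hmB⟩ := h
  obtain ⟨m', B', hm', hB', hmB'⟩ := h'
  refine ⟨m * m', B + B', mul_ne_zero hm hm', by linarith, ?_⟩
  intro L _ _ _
  refine ⟨fun v => ⟨?_, ?_⟩, fun v => ⟨?_, ?_⟩⟩
  · exact hΦ L v.val _ _ (by linarith) ((hmB L).1 v)
  · exact hΨ L v.val _ _ (by linarith) ((hmB' L).1 v)
  · refine hΦ L v.val _ _ ?_ ((hmB L).2 v)
    have ha : (m : L) ≠ 0 := by exact_mod_cast hm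
    have hall : ((m * m' : ℕ) : L) ≠ 0 := by exact_mod_cast mul_ne_zero hm hm'
    have h1 : 0 < v ((m * m' : ℕ) : L) := FinitePlace.pos_iff.mpr hall
    refine inv_anti₀ h1 ?_
    rw [Nat.cast_mul, map_mul]
    exact mul_le_of_le_one_right (FinitePlace.pos_iff.mpr ha).le (finitePlace_natCast_le_one v m')
  · refine hΨ L v.val _ _ ?_ ((hmB' L).2 v)
    have ha : (m' : L) ≠ 0 := by exact_mod_cast hm'
    have hall : ((m * m' : ℕ) : L) ≠ 0 := by exact_mod_cast mul_ne_zero hm hm'
    have h1 : 0 < v ((m * m' : ℕ) : L) := FinitePlace.pos_iff.mpr hall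
    refine inv_anti₀ h1 ?_
    rw [Nat.cast_mul, map_mul]
    exact mul_le_of_le_one_left (FinitePlace.pos_iff.mpr ha).le (finitePlace_natCast_le_one v m)

end unif

section scale

variable {K L : Type u} [Field K] [Field L] [Algebra K L] {n : ℕ}

lemma MultiHom.sum_eq {p : MvPolynomial (Fin n × Fin 3) K} {d : Fin n → ℕ} (hp : MultiHom p d)
    {e : Fin n × Fin 3 →₀ ℕ} (he : e ∈ p.support) (i : Fin n) : ∑ k, e (i, k) = d i := by
  have h := hp (mem_support_iff.mp he)
  have h2 := congrFun h i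
  rw [← h2, Finsupp.weight_apply,
    Finsupp.sum_fintype e (fun q c => c • wt n q) (fun q => zero_smul ℕ (wt n q)),
    Finset.sum_apply, Fintype.sum_prod_type]
  rw [Finset.sum_eq_single i]
  · refine Finset.sum_congr rfl fun k _ => ?_
    simp [wt]
  · intro j _ hj
    refine Finset.sum_eq_zero fun k _ => ?_
    simp [wt, Ne.symm hj]
  · intro h
    exact absurd (Finset.mem_univ i) h

lemma MultiHom.aeval_smul {p : MvPolynomial (Fin n × Fin 3) K} {d : Fin n → ℕ}
    (hp : MultiHom p d) (s : Fin n → L) (y : Fin n × Fin 3 → L) :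
    aeval (fun q => s q.1 * y q) p = (∏ i, s i ^ d i) * aeval y p := by
  rw [aeval_def, aeval_def, eval₂_eq', eval₂_eq', Finset.mul_sum]
  refine Finset.sum_congr rfl fun e he => ?_
  have h1 : ∏ q : Fin n × Fin 3, (s q.1 * y q) ^ e q =
      (∏ i, s i ^ d i) * ∏ q, y q ^ e q := by
    simp only [mul_pow]
    rw [Finset.prod_mul_distrib]
    congr 1
    rw [Fintype.prod_prod_type]
    refine Finset.prod_congr rfl fun i _ => ?_
    simp only
    rw [Finset.prod_pow_eq_pow_sum, hp.sum_eq he]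
  rw [h1]
  ring

lemma coords_ne_zero {W : Affine L} (P : W.Point) : ∃ k, coords P k = 1 := by
  match P with
  | 0 => exact ⟨1, rfl⟩
  | .some x y h => exact ⟨2, rfl⟩

lemma aeval_curveEq {W : Affine K} [W.IsShortNF] (P : Fin n → (W⁄L).Point)
    (x : Fin n × Fin 3 → L) (hx : IsCoord P x) (i : Fin n) : aeval x (curveEq W i) = 0 := by
  obtain ⟨s, hs, h⟩ := hx i
  simp only [curveEq, map_sub, map_mul, map_pow, aeval_X, aeval_C, h]
  match P i with
  | 0 =>
    have h0 : coords (0 : (W⁄L).Point) 0 = 0 := rfl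
    have h1 : coords (0 : (W⁄L).Point) 1 = 1 := rfl
    have h2 : coords (0 : (W⁄L).Point) 2 = 0 := rfl
    rw [h0, h1, h2]; ring
  | .some a b hab =>
    have h0 : coords (Point.some a b hab : (W⁄L).Point) 0 = a := rfl
    have h1 : coords (Point.some a b hab : (W⁄L).Point) 1 = b := rfl
    have h2 : coords (Point.some a b hab : (W⁄L).Point) 2 = 1 := rfl
    have h4 := (equation_iff _ _).mp hab.1
    rw [WeierstrassCurve.a₁_of_isShortNF, WeierstrassCurve.a₂_of_isShortNF,
      WeierstrassCurve.a₃_of_isShortNF] at h4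
    have e4 : (W⁄L).a₄ = algebraMap K L W.a₄ := rfl
    have e6 : (W⁄L).a₆ = algebraMap K L W.a₆ := rfl
    rw [e4, e6] at h4
    rw [h0, h1, h2]
    linear_combination s ^ 3 * h4

/-- Normalised coordinates at a place. -/
lemma exists_normal {W : Affine L} (v : AbsoluteValue L ℝ) (P : Fin n → W.Point) :
    ∃ (T : Fin n → Fin 3) (x : Fin n × Fin 3 → L), IsCoord P x ∧ (∀ q, v (x q) ≤ 1) ∧
      (∀ i, x (i, T i) = 1) ∧
      ∀ (p : MvPolynomial (Fin n × Fin 3) K) (d : Fin n → ℕ), MultiHom p d →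
        v (aeval x p) = v (aeval (fun q : Fin n × Fin 3 => coords (P q.1) q.2) p) /
          ∏ i, (⨆ k, v (coords (P i) k)) ^ d i := by
  have h1 : ∀ i, ∃ T, ∀ k, v (coords (P i) k) ≤ v (coords (P i) T) := fun i =>
    Finite.exists_max fun k => v (coords (P i) k)
  choose T hT using h1
  have hT1 : ∀ i, 1 ≤ v (coords (P i) (T i)) := by
    intro i
    obtain ⟨k, hk⟩ := coords_ne_zero (P i)
    have := hT i k
    rwa [hk, map_one] at this
  have hT0 : ∀ i, coords (P i) (T i) ≠ 0 := by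
    intro i h0
    have := hT1 i
    rw [h0, map_zero] at this
    linarith
  have hsup : ∀ i, (⨆ k, v (coords (P i) k)) = v (coords (P i) (T i)) := by
    intro i
    exact le_antisymm (ciSup_le (hT i)) (Finite.le_ciSup (fun k => v (coords (P i) k)) (T i))
  refine ⟨T, fun q => (coords (P q.1) (T q.1))⁻¹ * coords (P q.1) q.2, ?_, ?_, ?_, ?_⟩
  · intro i
    exact ⟨_, inv_ne_zero (hT0 i), fun k => rfl⟩
  · intro q
    simp only
    rw [map_mul, map_inv₀, inv_mul_le_iff₀ (by linarith [hT1 q.1]), mul_one]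
    exact hT q.1 q.2
  · intro i
    exact inv_mul_cancel₀ (hT0 i)
  · intro p d hp
    rw [hp.aeval_smul (fun i => (coords (P i) (T i))⁻¹)
      (fun q : Fin n × Fin 3 => coords (P q.1) q.2), map_mul, map_prod]
    simp only [map_pow, map_inv₀, hsup]
    rw [div_eq_mul_inv, mul_comm, ← Finset.prod_inv_distrib]
    congr 1
    exact Finset.prod_congr rfl fun i _ => by rw [inv_pow]

/-- The estimate at one place. -/
lemma place_bound [DecidableEq L] (W : Affine K) [W.IsShortNF] {t s : ℕ}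
    (F : Fin t → MvPolynomial (Fin n × Fin 3) K) (D : Fin t → Fin n → ℕ)
    (hF : ∀ j, MultiHom (F j) (D j)) (b : Fin s → Fin n → ℤ) (c : Fin s → ℕ)
    (d : Fin s → Fin n → ℕ) (S : Fin s → Finset (Fin 3 → MvPolynomial (Fin n × Fin 3) K))
    (f : MvPolynomial (Fin s) K) (hS : ∀ j, RepSet W (b j) (d j) (S j))
    (hd : ∀ j, degreeOf j f ≤ c j) (N : ℕ) (M : Fin s → (Fin n → Fin 3) → ℕ)
    (v : AbsoluteValue L ℝ) (κ : ℝ) (hκ : 1 ≤ κ)
    (h1 : ∀ (a : Fin s × (Fin n → Fin 3)) (x : Fin n × Fin 3 → L), (∀ i, v (x i) ≤ 1) →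
      (∀ z ∈ Set.range (curveEq W (n := n)), aeval x z = 0) →
      aeval x ((∏ i, X (i, a.2 i) : MvPolynomial (Fin n × Fin 3) K) ^ M a.1 a.2) ≠ 0 →
      ∃ g ∈ {p | ∃ ρ ∈ S a.1, ∃ k, p = ρ k},
        v (aeval x ((∏ i, X (i, a.2 i) : MvPolynomial (Fin n × Fin 3) K) ^ M a.1 a.2)) ≤
          κ * v (aeval x g))
    (h2 : ∀ (a : (∀ j, {ρ // ρ ∈ S j}) × (Fin n → Fin 3)) (x : Fin n × Fin 3 → L),
      (∀ i, v (x i) ≤ 1) → (∀ z ∈ Set.range (curveEq W (n := n)), aeval x z = 0) →
      aeval x ((homForm f c (fun j => (a.1 j).1) * ∏ i, X (i, a.2 i)) ^ N) ≠ 0 →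
      ∃ g ∈ Set.range F, v (aeval x ((homForm f c (fun j => (a.1 j).1) *
        ∏ i, X (i, a.2 i)) ^ N)) ≤ κ * v (aeval x g))
    (P : Fin n → (W⁄L).Point)
    (hg : homForm f c (fun j => coords (∑ i, b j i • P i)) ≠ 0) :
    0 < closeness F D P v ∧ -Real.log (closeness F D P v) ≤
      (1 + N * ∑ j, (c j : ℝ)) * Real.log κ +
        N * ∑ j, c j * Real.log (⨆ k, v (coords (∑ i, b j i • P i) k)) -
        N * Real.log (v (homForm f c (fun j => coords (∑ i, b j i • P i)))) := by
  obtain ⟨T, x, hx, hx1, hxT, hscale⟩ := exists_normal (K := K) v P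
  have hκ0 : 0 < κ := by linarith
  have hcurve : ∀ z ∈ Set.range (curveEq W (n := n)), aeval x z = 0 := by
    rintro z ⟨i, rfl⟩
    exact aeval_curveEq P x hx i
  have hprod : aeval x (∏ i, X (i, T i) : MvPolynomial (Fin n × Fin 3) K) = 1 := by
    rw [map_prod]
    exact Finset.prod_eq_one fun i _ => by rw [aeval_X, hxT]
  have hrep : ∀ j, ∃ ρ ∈ S j, ∃ k, 1 ≤ κ * v (aeval x (ρ k)) := by
    intro j
    obtain ⟨g, ⟨ρ, hρ, k, rfl⟩, hle⟩ := h1 (j, T) x hx1 hcurve (by
      rw [map_pow, hprod, one_pow]; exact one_ne_zero)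
    refine ⟨ρ, hρ, k, ?_⟩
    rw [map_pow, hprod, one_pow, map_one] at hle
    exact hle
  choose ρ hρ k hk using hrep
  have hspec : ∀ j, ∃ l : L, ∀ k, aeval x (ρ j k) = l * coords (∑ i, b j i • P i) k :=
    fun j => (hS j).spec L P x hx _ (hρ j)
  choose l hl using hspec
  set g := homForm f c (fun j => coords (∑ i, b j i • P i)) with hgdef
  set H : Fin s → ℝ := fun j => ⨆ k, v (coords (∑ i, b j i • P i) k) with hH
  have hHle : ∀ j k, v (coords (∑ i, b j i • P i) k) ≤ H j := fun j k =>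
    Finite.le_ciSup (fun k => v (coords (∑ i, b j i • P i) k)) k
  have hH1 : ∀ j, 1 ≤ H j := by
    intro j
    obtain ⟨k, hk⟩ := coords_ne_zero (∑ i, b j i • P i)
    have := hHle j k
    rwa [hk, map_one] at this
  have hlH : ∀ j, 1 ≤ κ * (v (l j) * H j) := by
    intro j
    refine (hk j).trans ?_
    rw [hl, map_mul]
    exact mul_le_mul_of_nonneg_left (mul_le_mul_of_nonneg_left (hHle j _) (v.nonneg _)) hκ0.le
  have hl0 : ∀ j, 0 < v (l j) := by
    intro j
    rcases (v.nonneg (l j)).eq_or_lt with h | h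
    · have := hlH j
      rw [← h] at this
      simp at this
      linarith
    · exact h
  have hlog : ∀ j, -Real.log κ - Real.log (H j) ≤ Real.log (v (l j)) := by
    intro j
    have h3 := Real.log_nonneg (hlH j)
    have h4 : (0 : ℝ) < H j := by linarith [hH1 j]
    rw [Real.log_mul hκ0.ne' (mul_pos (hl0 j) h4).ne', Real.log_mul (hl0 j).ne' h4.ne'] at h3
    linarith
  have hform : aeval x (homForm f c ρ) = (∏ j, l j ^ c j) * g := by
    rw [hgdef, ← homForm_smul f c hd, homForm_map]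
    congr 1
    funext j k
    exact hl j k
  have hg0 : 0 < v g := v.pos hg
  have hq : v (aeval x ((homForm f c ρ * ∏ i, X (i, T i)) ^ N)) =
      ((∏ j, v (l j) ^ c j) * v g) ^ N := by
    rw [map_pow, map_mul, hprod, mul_one, hform, map_pow, map_mul, map_prod]
    simp only [map_pow]
  have hprodpos : 0 < ∏ j, v (l j) ^ c j := Finset.prod_pos fun j _ => pow_pos (hl0 j) _
  have hqpos : 0 < ((∏ j, v (l j) ^ c j) * v g) ^ N := pow_pos (mul_pos hprodpos hg0) _
  obtain ⟨_, ⟨j₀, rfl⟩, hle⟩ := h2 (fun j => ⟨ρ j, hρ j⟩, T) x hx1 hcurve (by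
    intro h0
    have h5 := hq
    simp only at h0
    rw [h0, map_zero] at h5
    exact hqpos.ne h5)
  simp only at hle
  rw [hq] at hle
  have hclose : v (aeval x (F j₀)) ≤ closeness F D P v := by
    rw [hscale _ _ (hF j₀)]
    exact Finite.le_ciSup (fun j => v (aeval (fun q : Fin n × Fin 3 => coords (P q.1) q.2)
      (F j)) / ∏ i, (⨆ k, v (coords (P i) k)) ^ D j i) j₀
  have hle2 : ((∏ j, v (l j) ^ c j) * v g) ^ N ≤ κ * closeness F D P v :=
    hle.trans (mul_le_mul_of_nonneg_left hclose hκ0.le)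
  have hcpos : 0 < closeness F D P v := by
    have := hqpos.trans_le hle2
    exact pos_of_mul_pos_right this hκ0.le
  refine ⟨hcpos, ?_⟩
  have hlog2 := Real.log_le_log hqpos hle2
  rw [Real.log_pow, Real.log_mul hprodpos.ne' hg0.ne', Real.log_mul hκ0.ne' hcpos.ne',
    Real.log_prod (fun j _ => (pow_pos (hl0 j) _).ne')] at hlog2
  simp only [Real.log_pow] at hlog2
  have hsum : ∑ j, (c j : ℝ) * (-Real.log κ - Real.log (H j)) ≤ ∑ j, c j * Real.log (v (l j)) :=
    Finset.sum_le_sum fun j _ => mul_le_mul_of_nonneg_left (hlog j) (Nat.cast_nonneg _)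
  have hsum2 : ∑ j, (c j : ℝ) * (-Real.log κ - Real.log (H j)) =
      -(∑ j, (c j : ℝ)) * Real.log κ - ∑ j, c j * Real.log (H j) := by
    simp only [mul_sub, Finset.sum_sub_distrib, neg_mul, mul_neg, Finset.sum_neg_distrib,
      Finset.sum_mul]
  have hN : (0 : ℝ) ≤ N := Nat.cast_nonneg _
  have h6 := mul_le_mul_of_nonneg_left hsum hN
  rw [hsum2] at h6
  have e1 : ∑ j, (c j : ℝ) * Real.log (⨆ k, v (coords (∑ i, b j i • P i) k)) =
      ∑ j, c j * Real.log (H j) := rfl
  rw [e1]
  nlinarith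

end scale

section sums

variable {L : Type u} [Field L] [NumberField L]

lemma finite_support_sup {y : Fin 3 → L} (hy : ∃ k, y k = 1) :
    (fun w : FinitePlace L => ⨆ k, w (y k)).HasFiniteMulSupport := by
  obtain ⟨k₀, hk₀⟩ := hy
  have hfin : (⋃ k ∈ {k | y k ≠ 0}, {w : FinitePlace L | w (y k) ≠ 1}).Finite := by
    refine Set.Finite.biUnion (Set.toFinite _) fun k hk => ?_
    exact FinitePlace.hasFiniteMulSupport hk
  refine hfin.subset ?_
  intro w hw
  by_contra hcon
  apply hw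
  have h1 : ∀ k, w (y k) ≤ 1 := by
    intro k
    by_cases hk : y k = 0
    · rw [hk, map_zero]; exact zero_le_one
    · by_contra h
      apply hcon
      simp only [Set.mem_iUnion]
      exact ⟨k, hk, fun h' => h h'.le⟩
  refine le_antisymm (ciSup_le h1) ?_
  have h2 := Finite.le_ciSup (fun k => w (y k)) k₀
  rw [hk₀, map_one] at h2
  exact h2

lemma HasFiniteMulSupport_log {α : Type*} {f : α → ℝ} (h : f.HasFiniteMulSupport) :
    (fun a => Real.log (f a)).HasFiniteSupport := by
  refine Set.Finite.subset h ?_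
  intro a ha ha'
  apply ha
  simp only [ha', Real.log_one]

lemma logHeight_eq_sum {y : Fin 3 → L} (hy : ∃ k, y k = 1) :
    logHeight y = ∑ w : InfinitePlace L, w.mult * Real.log (⨆ k, w (y k)) +
      ∑ᶠ w : FinitePlace L, Real.log (⨆ k, w (y k)) := by
  have hy0 : y ≠ 0 := by
    obtain ⟨k, hk⟩ := hy
    intro h
    rw [h] at hk
    exact zero_ne_one hk
  have hge : ∀ w : L → ℝ, w 1 = 1 → 0 < ⨆ k, w (y k) := by
    intro w hw
    obtain ⟨k, hk⟩ := hy
    have h2 := Finite.le_ciSup (fun k => w (y k)) k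
    simp only [hk, hw] at h2
    linarith
  have h1 : ∀ w : InfinitePlace L, 0 < ⨆ k, w (y k) := fun w => hge w (map_one w)
  have h2 : ∀ w : FinitePlace L, 0 < ⨆ k, w (y k) := fun w => hge w (map_one w)
  have h3 : 0 < ∏ᶠ w : FinitePlace L, ⨆ k, w (y k) := finprod_induction (fun x : ℝ => 0 < x) one_pos (fun _ _ => mul_pos) h2
  rw [logHeight_eq_log_mulHeight, NumberField.mulHeight_eq hy0, Real.log_mul
    (Finset.prod_pos fun w _ => pow_pos (h1 w) _).ne' h3.ne', Real.log_finprod h2,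
    Real.log_prod fun w _ => (pow_pos (h1 w) _).ne']
  simp only [Real.log_pow]

lemma sum_log_eq_zero {g : L} (hg : g ≠ 0) :
    ∑ w : InfinitePlace L, w.mult * Real.log (w g) + ∑ᶠ w : FinitePlace L, Real.log (w g) = 0 := by
  have h1 : ∀ w : InfinitePlace L, 0 < w g := fun w => InfinitePlace.pos_iff.mpr hg
  have h2 : ∀ w : FinitePlace L, 0 < w g := fun w => FinitePlace.pos_iff.mpr hg
  have h := congrArg Real.log (prod_abs_eq_one hg)
  rw [Real.log_mul (Finset.prod_pos fun w _ => pow_pos (h1 w) _).ne' (finprod_induction (fun x : ℝ => 0 < x) one_pos (fun _ _ => mul_pos) h2 :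
      0 < ∏ᶠ w : FinitePlace L, w g).ne',
    Real.log_finprod h2, Real.log_prod (fun w _ => (pow_pos (h1 w) _).ne'), Real.log_one] at h
  simpa only [Real.log_pow] using h

end sums

theorem exists_centreSum_le {K : Type u} [Field K] [NumberField K] (W : Affine K) [W.IsElliptic]
    [W.IsShortNF] {n t : ℕ} (F : Fin t → MvPolynomial (Fin n × Fin 3) K)
    (D : Fin t → Fin n → ℕ) (hF : ∀ j, MultiHom (F j) (D j)) :
    ∃ N : ℕ, ∀ (s : ℕ) (b : Fin s → Fin n → ℤ) (c : Fin s → ℕ)
      (d : Fin s → Fin n → ℕ) (S : Fin s → Finset (Fin 3 → MvPolynomial (Fin n × Fin 3) K))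
      (f : MvPolynomial (Fin s) K),
      (∀ j, RepSet W (b j) (d j) (S j)) → (∀ j, degreeOf j f ≤ c j) →
      (∀ ρ : Fin s → Fin 3 → MvPolynomial (Fin n × Fin 3) K, (∀ j, ρ j ∈ S j) →
          ∀ T : Fin n → Fin 3, homForm f c ρ * ∏ i, X (i, T i) ∈
            (Ideal.span (Set.range F ∪ Set.range (curveEq W (n := n)))).radical) →
      ∃ C : ℝ, 0 ≤ C ∧ ∀ (L : Type u) [Field L] [NumberField L] [DecidableEq L] [Algebra K L]
        (P : Fin n → (W⁄L).Point),
        homForm f c (fun j => coords (∑ i, b j i • P i)) ≠ 0 →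
        centreSum F D P ≤ N * ∑ j, c j * logHeight (coords (∑ i, b j i • P i)) +
          C * totalWeight L := by
  classical
  set I := Ideal.span (Set.range F ∪ Set.range (curveEq W (n := n))) with hI
  obtain ⟨N, hN⟩ := Ideal.exists_radical_pow_le_of_fg I (IsNoetherian.noetherian _)
  refine ⟨N, ?_⟩
  intro s b c d S f hS hd hfI
  -- the certificates
  have hM : ∀ (j : Fin s) (T : Fin n → Fin 3), ∃ M : ℕ,
      (∏ i, X (i, T i) : MvPolynomial (Fin n × Fin 3) K) ^ M ∈
        Ideal.span ({p | ∃ ρ ∈ S j, ∃ k, p = ρ k} ∪ Set.range (curveEq W (n := n))) :=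
    fun j T => Ideal.mem_radical_iff.mp ((hS j).cert T)
  choose M hM using hM
  have hu1 := Unif.all (K := K) (ι := Fin s × (Fin n → Fin 3))
    (Φ := fun a L _ _ _ v κ => ∀ x : Fin n × Fin 3 → L, (∀ i, v (x i) ≤ 1) →
      (∀ z ∈ Set.range (curveEq W (n := n)), aeval x z = 0) →
      aeval x ((∏ i, X (i, a.2 i) : MvPolynomial (Fin n × Fin 3) K) ^ M a.1 a.2) ≠ 0 →
      ∃ g ∈ {p | ∃ ρ ∈ S a.1, ∃ k, p = ρ k},
        v (aeval x ((∏ i, X (i, a.2 i) : MvPolynomial (Fin n × Fin 3) K) ^ M a.1 a.2)) ≤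
          κ * v (aeval x g))
    (by
      intro a L _ _ _ v κ κ' hκ h x hx hz h0
      obtain ⟨g, hg, hle⟩ := h x hx hz h0
      exact ⟨g, hg, hle.trans (mul_le_mul_of_nonneg_right hκ (v.nonneg _))⟩)
    (fun a => unif_cert _ _ _ (hM a.1 a.2))
  have hu2 := Unif.all (K := K) (ι := (∀ j, {ρ // ρ ∈ S j}) × (Fin n → Fin 3))
    (Φ := fun a L _ _ _ v κ => ∀ x : Fin n × Fin 3 → L, (∀ i, v (x i) ≤ 1) →
      (∀ z ∈ Set.range (curveEq W (n := n)), aeval x z = 0) →
      aeval x ((homForm f c (fun j => (a.1 j).1) * ∏ i, X (i, a.2 i)) ^ N) ≠ 0 →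
      ∃ g ∈ Set.range F, v (aeval x ((homForm f c (fun j => (a.1 j).1) *
        ∏ i, X (i, a.2 i)) ^ N)) ≤ κ * v (aeval x g))
    (by
      intro a L _ _ _ v κ κ' hκ h x hx hz h0
      obtain ⟨g, hg, hle⟩ := h x hx hz h0
      exact ⟨g, hg, hle.trans (mul_le_mul_of_nonneg_right hκ (v.nonneg _))⟩)
    (fun a => unif_cert _ _ _
      (hN (Ideal.pow_mem_pow (hfI (fun j => (a.1 j).1) (fun j => (a.1 j).2) a.2) N)))
  have hu3 := Unif.all (K := K) (ι := Fin t)
    (Φ := fun a L _ _ _ v κ => ∀ x : Fin n × Fin 3 → L, (∀ i, v (x i) ≤ 1) →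
      v (aeval x (F a)) ≤ κ)
    (fun a L _ _ _ v κ κ' hκ h x hx => (h x hx).trans hκ) (fun a => unif_eval (F a))
  have hu := Unif.and (K := K)
    (by
      rintro L _ _ _ v κ κ' hκ h a x hx hz h0
      obtain ⟨g, hg, hle⟩ := h a x hx hz h0
      exact ⟨g, hg, hle.trans (mul_le_mul_of_nonneg_right hκ (v.nonneg _))⟩)
    (by
      rintro L _ _ _ v κ κ' hκ ⟨h, h'⟩
      refine ⟨fun a x hx hz h0 => ?_, fun a x hx => (h' a x hx).trans hκ⟩
      obtain ⟨g, hg, hle⟩ := h a x hx hz h0
      exact ⟨g, hg, hle.trans (mul_le_mul_of_nonneg_right hκ (v.nonneg _))⟩)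
    hu1 (Unif.and (K := K)
      (by
        rintro L _ _ _ v κ κ' hκ h a x hx hz h0
        obtain ⟨g, hg, hle⟩ := h a x hx hz h0
        exact ⟨g, hg, hle.trans (mul_le_mul_of_nonneg_right hκ (v.nonneg _))⟩)
      (fun L _ _ _ v κ κ' hκ h a x hx => (h a x hx).trans hκ) hu2 hu3)
  obtain ⟨m, B, hm, hB, hmB⟩ := hu
  have hm1 : (1 : ℝ) ≤ m := by exact_mod_cast Nat.one_le_iff_ne_zero.mpr hm
  set a : ℝ := 1 + N * ∑ j, (c j : ℝ) with ha
  have ha0 : 0 ≤ a := by positivity
  refine ⟨a * (Real.log B + Real.log m),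
    mul_nonneg ha0 (add_nonneg (Real.log_nonneg hB) (Real.log_nonneg hm1)), ?_⟩
  intro L _ _ _ _ P hg
  obtain ⟨hinf, hfin⟩ := hmB L
  set g := homForm f c (fun j => coords (∑ i, b j i • P i)) with hgdef
  set R : Fin s → (W⁄L).Point := fun j => ∑ i, b j i • P i with hR
  set φ : (L → ℝ) → ℝ := fun w =>
    N * ∑ j, c j * Real.log (⨆ k, w (coords (R j) k)) - N * Real.log (w g) with hφ
  have hI1 : ∀ w : InfinitePlace L, -Real.log (closeness F D P w) ≤ a * Real.log B + φ w := by
    intro w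
    have h := (place_bound W F D hF b c d S f hS hd N M w.val B hB (hinf w).1 (hinf w).2.1 P hg).2
    calc _ ≤ _ := h
      _ = _ := by rw [hφ]; ring!
  have hm' : (m : L) ≠ 0 := by exact_mod_cast hm
  have hF1 : ∀ w : FinitePlace L, 0 < closeness F D P w ∧
      -Real.log (closeness F D P w) ≤ a * -Real.log (w (m : L)) + φ w := by
    intro w
    have hw0 : 0 < w (m : L) := FinitePlace.pos_iff.mpr hm'
    have hw1 : 1 ≤ (w (m : L))⁻¹ := (one_le_inv₀ hw0).mpr (finitePlace_natCast_le_one w m)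
    have h := place_bound W F D hF b c d S f hS hd N M w.val _ hw1 (hfin w).1 (hfin w).2.1 P hg
    refine ⟨h.1, ?_⟩
    rw [Real.log_inv] at h
    calc _ ≤ _ := h.2
      _ = _ := by rw [hφ]; ring!
  have hF2 : ∀ w : FinitePlace L, closeness F D P w ≤ (w (m : L))⁻¹ := by
    intro w
    have hw0 : 0 < w (m : L) := FinitePlace.pos_iff.mpr hm'
    obtain ⟨T, x, hx, hx1, hxT, hscale⟩ := exists_normal (K := K) w.val P
    refine Real.iSup_le (fun j => ?_) (inv_pos.mpr hw0).le
    have h2 := (hfin w).2.2 j x hx1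
    rw [hscale _ _ (hF j)] at h2
    exact h2
  have hsR : ∀ j, (fun w : FinitePlace L => Real.log (⨆ k, w (coords (R j) k))).HasFiniteSupport :=
    fun j => HasFiniteMulSupport_log (finite_support_sup (coords_ne_zero (R j)))
  have hsg : (fun w : FinitePlace L => Real.log (w g)).HasFiniteSupport :=
    HasFiniteMulSupport_log (FinitePlace.hasFiniteMulSupport hg)
  have hsR' : ∀ j, (fun w : FinitePlace L =>
      (c j : ℝ) * Real.log (⨆ k, w (coords (R j) k))).HasFiniteSupport := by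
    intro j
    refine (hsR j).subset ?_
    intro w hw hw'
    apply hw
    have : Real.log (⨆ k, w (coords (R j) k)) = 0 := hw'
    simp only [this, mul_zero]
  have hsum : (fun w : FinitePlace L =>
      ∑ j, (c j : ℝ) * Real.log (⨆ k, w (coords (R j) k))).HasFiniteSupport := by
    refine Set.Finite.subset (Set.finite_iUnion hsR') ?_
    intro w hw
    by_contra hcon
    apply hw
    refine Finset.sum_eq_zero fun j _ => ?_
    by_contra h
    exact hcon (Set.mem_iUnion.mpr ⟨j, h⟩)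
  have hsum' : (fun w : FinitePlace L =>
      (N : ℝ) * ∑ j, (c j : ℝ) * Real.log (⨆ k, w (coords (R j) k))).HasFiniteSupport := by
    refine hsum.subset ?_
    intro w hw hw'
    apply hw
    have : ∑ j, (c j : ℝ) * Real.log (⨆ k, w (coords (R j) k)) = 0 := hw'
    simp only [this, mul_zero]
  have hsg' : (fun w : FinitePlace L => (N : ℝ) * Real.log (w g)).HasFiniteSupport := by
    refine hsg.subset ?_
    intro w hw hw'
    apply hw
    have : Real.log (w g) = 0 := hw'
    simp only [this, mul_zero]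
  have hsφ : (fun w : FinitePlace L => φ w).HasFiniteSupport := by
    refine Set.Finite.subset (Set.Finite.union hsum' hsg') ?_
    intro w hw
    by_contra hcon
    rw [Set.mem_union, not_or] at hcon
    apply hw
    have h1 : (N : ℝ) * ∑ j, (c j : ℝ) * Real.log (⨆ k, w (coords (R j) k)) = 0 :=
      Function.notMem_support.mp hcon.1
    have h2 : (N : ℝ) * Real.log (w g) = 0 := Function.notMem_support.mp hcon.2
    simp only [hφ]
    rw [h1, h2, sub_zero]
  have hφsum : ∑ w : InfinitePlace L, w.mult * φ w + ∑ᶠ w : FinitePlace L, φ w =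
      N * ∑ j, c j * logHeight (coords (R j)) := by
    have e1 : ∑ w : InfinitePlace L, (w.mult : ℝ) * φ w =
        N * ∑ j, c j * ∑ w : InfinitePlace L, w.mult * Real.log (⨆ k, w (coords (R j) k)) -
          N * ∑ w : InfinitePlace L, w.mult * Real.log (w g) := by
      simp only [hφ, mul_sub, Finset.sum_sub_distrib, Finset.mul_sum]
      congr 1
      · rw [Finset.sum_comm]
        exact Finset.sum_congr rfl fun j _ => Finset.sum_congr rfl fun w _ => by ring
      · exact Finset.sum_congr rfl fun w _ => by ring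
    have e2 : ∑ᶠ w : FinitePlace L, φ w =
        N * ∑ j, c j * ∑ᶠ w : FinitePlace L, Real.log (⨆ k, w (coords (R j) k)) -
          N * ∑ᶠ w : FinitePlace L, Real.log (w g) := by
      simp only [hφ]
      rw [finsum_sub_distrib hsum' hsg', ← mul_finsum, ← mul_finsum,
        finsum_sum_comm _ _ fun j _ => hsR' j]
      simp only [mul_finsum]
    have e3 := sum_log_eq_zero hg
    rw [e1, e2]
    have e4 : ∑ j, (c j : ℝ) * logHeight (coords (R j)) =
        ∑ j, c j * ∑ w : InfinitePlace L, w.mult * Real.log (⨆ k, w (coords (R j) k)) +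
        ∑ j, c j * ∑ᶠ w : FinitePlace L, Real.log (⨆ k, w (coords (R j) k)) := by
      rw [← Finset.sum_add_distrib]
      refine Finset.sum_congr rfl fun j _ => ?_
      rw [logHeight_eq_sum (coords_ne_zero (R j)), mul_add]
    rw [e4]
    linear_combination (-(N : ℝ)) * e3
  -- the infinite places
  have hsumI : ∑ w : InfinitePlace L, w.mult * (-Real.log (closeness F D P w)) ≤
      ∑ w : InfinitePlace L, w.mult * φ w + a * Real.log B * totalWeight L := by
    have h1 : ∑ w : InfinitePlace L, w.mult * (-Real.log (closeness F D P w)) ≤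
        ∑ w : InfinitePlace L, (w.mult * φ w + a * Real.log B * w.mult) := by
      apply Finset.sum_le_sum
      intro w _
      have := mul_le_mul_of_nonneg_left (hI1 w) (Nat.cast_nonneg w.mult : (0 : ℝ) ≤ w.mult)
      linarith
    rw [Finset.sum_add_distrib, ← Finset.mul_sum] at h1
    rw [totalWeight_eq_sum_mult]
    push_cast
    exact h1
  -- the finite places
  have hsumF : ∑ᶠ w : FinitePlace L, -Real.log (closeness F D P w) ≤
      ∑ᶠ w : FinitePlace L, φ w + a * (Real.log m * totalWeight L) := by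
    have hs2 : (fun w : FinitePlace L => a * -Real.log (w (m : L))).HasFiniteSupport := by
      refine Set.Finite.subset (H7.Vojta.finite_support_neg_log_natCast (K := L) hm) ?_
      intro w hw hw'
      apply hw
      have : -Real.log (w (m : L)) = 0 := hw'
      simp only [this, mul_zero]
    have hs3 : (fun w : FinitePlace L => φ w + a * -Real.log (w (m : L))).HasFiniteSupport :=
      hsφ.add hs2
    rw [← H7.Vojta.finsum_neg_log_natCast hm, mul_finsum, ← finsum_add_distrib hsφ hs2]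
    refine finsum_le_finsum' ?_ hs3 (fun w => by have := (hF1 w).2; linarith)
    refine Set.Finite.subset (Set.Finite.union hs3
      (FinitePlace.hasFiniteMulSupport hm')) ?_
    intro w hw
    by_contra hcon
    rw [Set.mem_union, not_or] at hcon
    apply hw
    have h1 : φ w + a * -Real.log (w (m : L)) = 0 := Function.notMem_support.mp hcon.1
    have h2 : w (m : L) = 1 := Function.notMem_mulSupport.mp hcon.2
    have h3 := (hF1 w).2
    have h4 := hF2 w
    rw [h2, inv_one] at h4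
    have h5 := Real.log_nonpos (hF1 w).1.le h4
    exact le_antisymm (by linarith) (by linarith)
  unfold centreSum
  calc _ ≤ (∑ w : InfinitePlace L, w.mult * φ w + a * Real.log B * totalWeight L) +
        (∑ᶠ w : FinitePlace L, φ w + a * (Real.log m * totalWeight L)) := add_le_add hsumI hsumF
    _ = _ := by
        rw [← hφsum]; ring

end Pool.Agent.GE
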