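import Mathlib
import Pool.Agent.GE.Defs
import Pool.Agent.H7.VojtaAbstract
import Pool.Agent.H7.VojtaPara

/-! # Canonical heights (module Canon, helper7) -/

set_option autoImplicit false

open MvPolynomial WeierstrassCurve WeierstrassCurve.Affine Height NumberField
open Pool.Agent.H7.Vojta
open scoped MatrixOrder ComplexOrder

namespace Pool.Agent.GE

universe u

private lemma canon_sum_left {G : Type*} [AddCommGroup G] {q : G → ℝ} (h : Para q) {ι : Type*}
    (s : Finset ι) (x : ι → G) (y : G) : bil q (∑ i ∈ s, x i) y = ∑ i ∈ s, bil q (x i) y := by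
  exact map_sum (h.bilHom y) x s

private lemma canon_bil_sum {G : Type*} [AddCommGroup G] {q : G → ℝ} (h : Para q) {ι κ : Type*}
    (s : Finset ι) (t : Finset κ) (a : ι → ℤ) (x : ι → G) (b : κ → ℤ) (y : κ → G) :
    bil q (∑ i ∈ s, a i • x i) (∑ j ∈ t, b j • y j) =
      ∑ i ∈ s, ∑ j ∈ t, (a i : ℝ) * b j * bil q (x i) (y j) := by
  rw [canon_sum_left h]
  refine Finset.sum_congr rfl fun i _ => ?_
  rw [h.bil_zsmul_left, bil_comm, canon_sum_left h, Finset.mul_sum]
  refine Finset.sum_congr rfl fun j _ => ?_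
  rw [h.bil_zsmul_left, bil_comm]
  ring

/-- The Gram matrix of finitely many elements is positive semidefinite. -/
private lemma canon_gram_psd {G : Type*} [AddCommGroup G] {q : G → ℝ} (h : Para q)
    (h0 : ∀ x, 0 ≤ q x) {r : ℕ} (Q : Fin r → G) :
    (Matrix.of fun k l => bil q (Q k) (Q l) / 2 : Matrix (Fin r) (Fin r) ℝ).PosSemidef := by
  set A : Matrix (Fin r) (Fin r) ℝ := Matrix.of fun k l => bil q (Q k) (Q l) / 2 with hA
  have hAa : ∀ k l, A k l = bil q (Q k) (Q l) / 2 := fun _ _ => rfl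
  have hval : ∀ x : Fin r → ℝ, star x ⬝ᵥ (A.mulVec x) = ∑ k, ∑ l, x k * x l * A k l := by
    intro x
    simp only [dotProduct, Matrix.mulVec, star_trivial, Finset.mul_sum]
    exact Finset.sum_congr rfl fun k _ => Finset.sum_congr rfl fun l _ => by ring
  have hint : ∀ z : Fin r → ℤ, 0 ≤ ∑ k, ∑ l, (z k : ℝ) * z l * A k l := by
    intro z
    have h1 := canon_bil_sum h Finset.univ Finset.univ z Q z Q
    rw [h.bil_self] at h1
    have h2 : ∑ k, ∑ l, (z k : ℝ) * z l * A k l = q (∑ k, z k • Q k) := by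
      have : ∑ k, ∑ l, (z k : ℝ) * z l * A k l =
          (∑ k, ∑ l, (z k : ℝ) * z l * bil q (Q k) (Q l)) / 2 := by
        rw [Finset.sum_div]
        refine Finset.sum_congr rfl fun k _ => ?_
        rw [Finset.sum_div]
        exact Finset.sum_congr rfl fun l _ => by rw [hAa]; ring
      rw [this, ← h1]; ring
    rw [h2]
    exact h0 _
  have hrat : ∀ x : Fin r → ℚ, 0 ≤ ∑ k, ∑ l, (x k : ℝ) * x l * A k l := by
    intro x
    set N : ℕ := ∏ k, (x k).den with hN
    have hN0 : (0 : ℝ) < N := by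
      exact_mod_cast Finset.prod_pos fun k _ => (x k).pos
    have hz : ∀ k, ∃ z : ℤ, (z : ℝ) = N * x k := by
      intro k
      refine ⟨(x k).num * ∏ j ∈ Finset.univ.erase k, ((x j).den : ℤ), ?_⟩
      have h1 : (N : ℝ) = (x k).den * ∏ j ∈ Finset.univ.erase k, ((x j).den : ℝ) := by
        rw [hN, ← Finset.mul_prod_erase _ _ (Finset.mem_univ k)]
        push_cast; ring
      have h2 : ((x k : ℚ) : ℝ) = (x k).num / (x k).den := by
        exact_mod_cast congrArg (fun t : ℚ => (t : ℝ)) (Rat.num_div_den (x k)).symm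
      have h3 : ((x k).den : ℝ) ≠ 0 := by exact_mod_cast (x k).pos.ne'
      rw [h1, h2]
      push_cast
      field_simp
    choose z hz using hz
    have h1 := hint z
    have h2 : ∑ k, ∑ l, (z k : ℝ) * z l * A k l =
        (N : ℝ) ^ 2 * ∑ k, ∑ l, (x k : ℝ) * x l * A k l := by
      rw [Finset.mul_sum]
      refine Finset.sum_congr rfl fun k _ => ?_
      rw [Finset.mul_sum]
      refine Finset.sum_congr rfl fun l _ => ?_
      rw [hz, hz]; ring
    rw [h2] at h1
    exact nonneg_of_mul_nonneg_right h1 (by positivity)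
  refine Matrix.PosSemidef.of_dotProduct_mulVec_nonneg ?_ fun x => ?_
  · ext k l
    simp only [Matrix.conjTranspose_apply, star_trivial, hAa, bil_comm q (Q l) (Q k)]
  · rw [hval]
    have hd : DenseRange (Pi.map fun _ : Fin r => ((↑) : ℚ → ℝ)) :=
      DenseRange.piMap fun _ => Rat.denseRange_cast
    refine hd.induction_on (p := fun x : Fin r → ℝ => 0 ≤ ∑ k, ∑ l, x k * x l * A k l) x ?_ ?_
    · exact isClosed_le continuous_const (by fun_prop)
    · intro y
      exact hrat y

lemma canon_gram {G : Type*} [AddCommGroup G] {q : G → ℝ} (h : Para q)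
    (h0 : ∀ x, 0 ≤ q x) {n r : ℕ} (P : Fin n → G) (hP : RankLE P r) :
    ∃ M : Matrix (Fin n) (Fin r) ℝ, ∀ b : Fin n → ℤ,
      q (∑ i, b i • P i) = ∑ k, (∑ i, (b i : ℝ) * M i k) ^ 2 := by
  obtain ⟨Q, hQ⟩ := hP
  choose N hN0 hN using hQ
  have hcomb : ∀ i, ∃ a : Fin r → ℤ, ∑ k, a k • Q k = N i • P i := by
    intro i
    have h1 := hN i
    rw [← Submodule.span_int_eq_addSubgroupClosure, Submodule.mem_toAddSubgroup,
      Submodule.mem_span_range_iff_exists_fun] at h1
    exact h1
  choose a ha using hcomb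
  set A : Matrix (Fin r) (Fin r) ℝ := Matrix.of fun k l => bil q (Q k) (Q l) / 2 with hA
  have hpsd : A.PosSemidef := canon_gram_psd h h0 Q
  obtain ⟨S, hS⟩ : ∃ S : Matrix (Fin r) (Fin r) ℝ, A = star S * S :=
    CStarAlgebra.nonneg_iff_eq_star_mul_self.mp hpsd.nonneg
  have hAa : ∀ k l, A k l = bil q (Q k) (Q l) / 2 := fun _ _ => rfl
  have hSS : ∀ k l, bil q (Q k) (Q l) / 2 = ∑ p, S p k * S p l := by
    intro k l
    rw [← hAa, hS, Matrix.mul_apply]
    exact Finset.sum_congr rfl fun p _ => by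
      rw [Matrix.star_apply, star_trivial]
  refine ⟨fun i p => (∑ k, (a i k : ℝ) * S p k) / N i, fun b => ?_⟩
  have hbil : ∀ i j, bil q (P i) (P j) / 2 =
      ∑ p, ((∑ k, (a i k : ℝ) * S p k) / N i) * ((∑ k, (a j k : ℝ) * S p k) / N j) := by
    intro i j
    have hNi : (N i : ℝ) ≠ 0 := by exact_mod_cast hN0 i
    have hNj : (N j : ℝ) ≠ 0 := by exact_mod_cast hN0 j
    have h1 : bil q (N i • P i) (N j • P j) = N i * (N j * bil q (P i) (P j)) := by
      rw [h.bil_zsmul_left, h.bil_zsmul_right]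
    rw [← ha i, ← ha j, canon_bil_sum h] at h1
    have h2 : (∑ k, ∑ l, (a i k : ℝ) * a j l * bil q (Q k) (Q l)) / 2 =
        ∑ p, (∑ k, (a i k : ℝ) * S p k) * (∑ l, (a j l : ℝ) * S p l) := by
      calc _ = ∑ k, ∑ l, (a i k : ℝ) * a j l * ∑ p, S p k * S p l := by
            rw [Finset.sum_div]
            refine Finset.sum_congr rfl fun k _ => ?_
            rw [Finset.sum_div]
            refine Finset.sum_congr rfl fun l _ => ?_
            rw [← hSS]; ring
        _ = ∑ k, ∑ l, ∑ p, (a i k : ℝ) * S p k * ((a j l : ℝ) * S p l) := by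
            refine Finset.sum_congr rfl fun k _ => Finset.sum_congr rfl fun l _ => ?_
            rw [Finset.mul_sum]
            exact Finset.sum_congr rfl fun p _ => by ring
        _ = ∑ p, ∑ k, ∑ l, (a i k : ℝ) * S p k * ((a j l : ℝ) * S p l) := by
            exact (Finset.sum_congr rfl fun k _ => Finset.sum_comm).trans Finset.sum_comm
        _ = _ := by
            refine Finset.sum_congr rfl fun p _ => ?_
            rw [Finset.sum_mul_sum]
    calc bil q (P i) (P j) / 2 = (N i * (N j * bil q (P i) (P j))) / 2 / (N i * N j) := by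
          field_simp
      _ = (∑ p, (∑ k, (a i k : ℝ) * S p k) * (∑ l, (a j l : ℝ) * S p l)) / (N i * N j) := by
          rw [← h1, h2]
      _ = _ := by
          rw [Finset.sum_div]
          refine Finset.sum_congr rfl fun p _ => ?_
          field_simp
  have h1 := canon_bil_sum h Finset.univ Finset.univ b P b P
  rw [h.bil_self] at h1
  have h2 : q (∑ i, b i • P i) = ∑ i, ∑ j, (b i : ℝ) * b j * (bil q (P i) (P j) / 2) := by
    have : ∑ i, ∑ j, (b i : ℝ) * b j * (bil q (P i) (P j) / 2) =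
        (∑ i, ∑ j, (b i : ℝ) * b j * bil q (P i) (P j)) / 2 := by
      rw [Finset.sum_div]
      refine Finset.sum_congr rfl fun k _ => ?_
      rw [Finset.sum_div]
      exact Finset.sum_congr rfl fun l _ => by ring
    rw [this, ← h1]; ring
  rw [h2]
  set M : Fin n → Fin r → ℝ := fun i p => (∑ k, (a i k : ℝ) * S p k) / N i with hM
  calc ∑ i, ∑ j, (b i : ℝ) * b j * (bil q (P i) (P j) / 2)
      = ∑ i, ∑ j, ∑ p, ((b i : ℝ) * M i p) * (b j * M j p) := by
        refine Finset.sum_congr rfl fun i _ => Finset.sum_congr rfl fun j _ => ?_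
        rw [hbil, Finset.mul_sum]
        exact Finset.sum_congr rfl fun p _ => by ring
    _ = ∑ p, ∑ i, ∑ j, ((b i : ℝ) * M i p) * (b j * M j p) :=
        (Finset.sum_congr rfl fun k _ => Finset.sum_comm).trans Finset.sum_comm
    _ = _ := by
        refine Finset.sum_congr rfl fun p _ => ?_
        rw [sq, Finset.sum_mul_sum]


/-- Comparison of the height of `(x : y : 1)` with the naive height. -/
lemma exists_logHeight_coords_le {K : Type u} [Field K] [NumberField K] (W : Affine K)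
    [W.IsShortNF] : ∃ C : ℝ, 0 ≤ C ∧ ∀ (L : Type u) [Field L] [NumberField L]
      [Algebra K L] (R : (W⁄L).Point),
      logHeight (coords R) ≤ 3 / 2 * naive R + C * totalWeight L := by
  let p : Fin 3 → MvPolynomial (Fin 2) K :=
    ![X 0 ^ 2 * X 1, X 0 ^ 3 + C W.a₄ * X 0 * X 1 ^ 2 + C W.a₆ * X 1 ^ 3, X 1 ^ 3]
  have hp : ∀ i, (p i).IsHomogeneous 3 := by
    intro i
    have h0 : (X 0 : MvPolynomial (Fin 2) K).IsHomogeneous 1 := isHomogeneous_X _ _
    have h1 : (X 1 : MvPolynomial (Fin 2) K).IsHomogeneous 1 := isHomogeneous_X _ _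
    fin_cases i
    · exact (h0.pow 2).mul h1
    · refine ((h0.pow 3).add ?_).add ?_
      · have := ((isHomogeneous_C (Fin 2) W.a₄).mul h0).mul (h1.pow 2)
        simpa using this
      · have := (isHomogeneous_C (Fin 2) W.a₆).mul (h1.pow 3)
        simpa using this
    · exact h1.pow 3
  obtain ⟨C, hC0, hC⟩ := logHeight_eval_map_le.{u, u} p hp
  refine ⟨C, hC0, ?_⟩
  intro L _ _ _ R
  have h1 := hC L R.xRep
  have htw : (0 : ℝ) ≤ totalWeight L := Nat.cast_nonneg _
  have h2 : (fun j => eval R.xRep (MvPolynomial.map (algebraMap K L) (p j))) = (coords R) ^ 2 := by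
    match R with
    | 0 =>
      have hx : (0 : (W⁄L).Point).xRep = ![1, 0] := rfl
      have hc : coords (0 : (W⁄L).Point) = ![0, 1, 0] := rfl
      rw [hx, hc]
      funext j
      fin_cases j <;> simp [p]
    | .some x y h =>
      have hx : (Point.some x y h : (W⁄L).Point).xRep = ![x, 1] := rfl
      have hc : coords (Point.some x y h : (W⁄L).Point) = ![x, y, 1] := rfl
      have he : y ^ 2 = x ^ 3 + algebraMap K L W.a₄ * x + algebraMap K L W.a₆ := by
        have h4 := (equation_iff _ _).mp h.1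
        rw [WeierstrassCurve.a₁_of_isShortNF, WeierstrassCurve.a₂_of_isShortNF,
          WeierstrassCurve.a₃_of_isShortNF] at h4
        have e4 : (W⁄L).a₄ = algebraMap K L W.a₄ := rfl
        have e6 : (W⁄L).a₆ = algebraMap K L W.a₆ := rfl
        rw [e4, e6] at h4
        linear_combination h4
      rw [hx, hc]
      funext j
      fin_cases j
      · simp [p]
      · simp [p, he]
      · simp [p]
  rw [h2, logHeight_pow] at h1
  have h3 : naive R = logHeight R.xRep := rfl
  rw [h3]
  push_cast at h1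
  nlinarith [mul_nonneg hC0 htw]

/-- The canonical height, with constants uniform in the extension field. -/
theorem exists_canon {K : Type u} [Field K] [NumberField K] (W : Affine K) [W.IsElliptic]
    [W.IsShortNF] : ∃ C : ℝ, 0 ≤ C ∧ ∀ (L : Type u) [Field L] [NumberField L] [DecidableEq L]
      [Algebra K L], ∃ q : (W⁄L).Point → ℝ, Para q ∧ (∀ R, 0 ≤ q R) ∧
        (∀ R, |q R - naive R| ≤ C * totalWeight L) ∧
        ∀ R, logHeight (coords R) ≤ 3 / 2 * q R + C * totalWeight L := by
  classical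
  obtain ⟨C₀, hC₀0, hC₀⟩ := exists_parallelogram.{u, u} W
  obtain ⟨C₁, hC₁0, hC₁⟩ := exists_logHeight_coords_le.{u} W
  refine ⟨3 / 2 * C₀ + C₁, by positivity, ?_⟩
  intro L _ _ _ _
  have htw : (0 : ℝ) ≤ totalWeight L := Nat.cast_nonneg _
  obtain ⟨q, hq, hq0, hqn⟩ := exists_canonical (G := (W⁄L).Point) (h := naive)
    (c := C₀ * totalWeight L) (fun x y => hC₀ L x y) (fun x => naive_nonneg x)
  refine ⟨q, hq, hq0, fun R => (hqn R).trans ?_, fun R => ?_⟩
  · nlinarith [mul_nonneg hC₀0 htw, mul_nonneg hC₁0 htw]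
  · have h1 := hC₁ L R
    have h2 := hqn R
    rw [abs_le] at h2
    nlinarith [mul_nonneg hC₀0 htw, mul_nonneg hC₁0 htw]

/-- The Gram matrix of a tuple of rank at most `r` is `M Mᵀ` with `M` of size `n × r`. -/
theorem exists_matrix {G : Type*} [AddCommGroup G] {q : G → ℝ} (h : Para q)
    (h0 : ∀ x, 0 ≤ q x) {n r : ℕ} (P : Fin n → G) (hP : RankLE P r) :
    ∃ M : Matrix (Fin n) (Fin r) ℝ, ∀ b : Fin n → ℤ,
      q (∑ i, b i • P i) = ∑ k, (∑ i, (b i : ℝ) * M i k) ^ 2 :=
  canon_gram h h0 P hP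

theorem exists_gram {K : Type u} [Field K] [NumberField K] (W : Affine K) [W.IsElliptic]
    [W.IsShortNF] : ∃ C : ℝ, 0 ≤ C ∧ ∀ (L : Type u) [Field L] [NumberField L] [DecidableEq L]
      [Algebra K L] (n r : ℕ) (P : Fin n → (W⁄L).Point), RankLE P r →
      ∃ M : Matrix (Fin n) (Fin r) ℝ,
        (∑ i, ∑ k, M i k ^ 2 ≤ ∑ i, naive (P i) + n * C * totalWeight L) ∧
        ∀ b : Fin n → ℤ, logHeight (coords (∑ i, b i • P i)) ≤
          3 / 2 * ∑ k, (∑ i, (b i : ℝ) * M i k) ^ 2 + C * totalWeight L := by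
  classical
  obtain ⟨C₀, hC₀0, hC₀⟩ := exists_parallelogram.{u, u} W
  obtain ⟨C₁, hC₁0, hC₁⟩ := exists_logHeight_coords_le.{u} W
  refine ⟨3 / 2 * C₀ + C₁, by positivity, ?_⟩
  intro L _ _ _ _ n r P hP
  have htw : (0 : ℝ) ≤ totalWeight L := Nat.cast_nonneg _
  obtain ⟨q, hq, hq0, hqn⟩ := exists_canonical (G := (W⁄L).Point) (h := naive)
    (c := C₀ * totalWeight L) (fun x y => hC₀ L x y) (fun x => naive_nonneg x)
  obtain ⟨M, hM⟩ := canon_gram hq hq0 P hP
  refine ⟨M, ?_, fun b => ?_⟩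
  · have h1 : ∀ i, ∑ k, M i k ^ 2 = q (P i) := by
      intro i
      have h2 := hM (Pi.single i 1)
      rw [Finset.sum_eq_single i (fun j _ hj => by rw [Pi.single_eq_of_ne hj, zero_smul])
        (fun h => absurd (Finset.mem_univ i) h), Pi.single_eq_same, one_smul] at h2
      rw [h2]
      refine Finset.sum_congr rfl fun k _ => ?_
      rw [Finset.sum_eq_single i (fun j _ hj => by
        rw [Pi.single_eq_of_ne hj, Int.cast_zero, zero_mul])
        (fun h => absurd (Finset.mem_univ i) h), Pi.single_eq_same, Int.cast_one, one_mul]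
    calc ∑ i, ∑ k, M i k ^ 2 = ∑ i, q (P i) := Finset.sum_congr rfl fun i _ => h1 i
      _ ≤ ∑ i : Fin n, (naive (P i) + (3 / 2 * C₀ + C₁) * totalWeight L) := by
          refine Finset.sum_le_sum fun i _ => ?_
          have h2 := hqn (P i)
          rw [abs_le] at h2
          nlinarith [mul_nonneg hC₀0 htw, mul_nonneg hC₁0 htw]
      _ = _ := by
          rw [Finset.sum_add_distrib, Finset.sum_const, Finset.card_univ, Fintype.card_fin,
            nsmul_eq_mul]
          ring
  · have h1 := hC₁ L (∑ i, b i • P i)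
    have h2 := hqn (∑ i, b i • P i)
    rw [abs_le] at h2
    rw [← hM]
    nlinarith [mul_nonneg hC₀0 htw, mul_nonneg hC₁0 htw]

end Pool.Agent.GE
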