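import Mathlib

/-!
# Reduced bases of integral lattices for positive definite quadratic forms
-/

namespace Pool.Agent.GE.Mink

open Matrix Finset Module

section

variable {ι : Type*} [Fintype ι]

/-- The quadratic form of a matrix. -/
noncomputable def Q (A : Matrix ι ι ℝ) (x : ι → ℝ) : ℝ := ∑ i, ∑ j, A i j * x i * x j

/-- The real vector of an integral vector. -/
def rv (x : ι → ℤ) : ι → ℝ := fun i => (x i : ℝ)

lemma Q_eq (A : Matrix ι ι ℝ) (x : ι → ℝ) : Q A x = star x ⬝ᵥ (A *ᵥ x) := by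
  unfold Q dotProduct mulVec dotProduct
  refine Finset.sum_congr rfl fun i _ => ?_
  rw [Finset.mul_sum]
  refine Finset.sum_congr rfl fun j _ => ?_
  simp only [Pi.star_apply, star_trivial]
  ring

lemma Q_pos {A : Matrix ι ι ℝ} (hA : A.PosDef) {x : ι → ℝ} (hx : x ≠ 0) : 0 < Q A x := by
  rw [Q_eq]
  exact hA.dotProduct_mulVec_pos hx

lemma Q_smul (A : Matrix ι ι ℝ) (t : ℝ) (x : ι → ℝ) : Q A (t • x) = t ^ 2 * Q A x := by
  unfold Q
  rw [Finset.mul_sum]
  refine Finset.sum_congr rfl fun i _ => ?_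
  rw [Finset.mul_sum]
  refine Finset.sum_congr rfl fun j _ => ?_
  simp only [Pi.smul_apply, smul_eq_mul]
  ring

/-- A positive definite form is bounded below by a multiple of the sum of the squares. -/
lemma exists_lower [Nonempty ι] {A : Matrix ι ι ℝ} (hA : A.PosDef) :
    ∃ c : ℝ, 0 < c ∧ ∀ x : ι → ℝ, c * ∑ i, x i ^ 2 ≤ Q A x := by
  classical
  set K : Set (ι → ℝ) := {x | ∑ i, x i ^ 2 = 1} with hK
  have hcont : Continuous fun x : ι → ℝ => Q A x := by
    unfold Q
    fun_prop
  have hKc : IsCompact K := by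
    refine Metric.isCompact_of_isClosed_isBounded ?_ ?_
    · exact isClosed_eq (by fun_prop) continuous_const
    · refine (Metric.isBounded_iff_subset_closedBall 0).mpr ⟨1, ?_⟩
      intro x hx
      rw [mem_closedBall_zero_iff, pi_norm_le_iff_of_nonneg zero_le_one]
      intro i
      have h1 : x i ^ 2 ≤ 1 := by
        rw [← (show ∑ i, x i ^ 2 = 1 from hx)]
        exact Finset.single_le_sum (f := fun i => x i ^ 2) (fun _ _ => sq_nonneg _) (mem_univ i)
      rw [Real.norm_eq_abs]
      exact abs_le_one_iff_mul_self_le_one.mpr (by nlinarith)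
  have hKn : K.Nonempty := by
    obtain ⟨i0⟩ := ‹Nonempty ι›
    refine ⟨Pi.single i0 1, ?_⟩
    show ∑ i, (Pi.single i0 (1 : ℝ) : ι → ℝ) i ^ 2 = 1
    rw [Finset.sum_eq_single i0]
    · simp
    · intro i _ hi
      rw [Pi.single_eq_of_ne hi]
      ring
    · intro h
      exact absurd (mem_univ i0) h
  obtain ⟨x0, hx0, hmin⟩ := hKc.exists_isMinOn hKn hcont.continuousOn
  have hx0' : x0 ≠ 0 := by
    rintro rfl
    have : ∑ i : ι, (0 : ι → ℝ) i ^ 2 = 1 := hx0
    simp at this
  refine ⟨Q A x0, Q_pos hA hx0', ?_⟩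
  intro x
  set s := ∑ i, x i ^ 2 with hs
  have hs0 : 0 ≤ s := Finset.sum_nonneg fun _ _ => sq_nonneg _
  rcases hs0.eq_or_lt with h | h
  · rw [← h, mul_zero]
    by_cases hx : x = 0
    · rw [hx]; unfold Q; simp
    · exact (Q_pos hA hx).le
  · have hr : 0 < Real.sqrt s := Real.sqrt_pos.mpr h
    have h1 : (Real.sqrt s)⁻¹ • x ∈ K := by
      show ∑ i, ((Real.sqrt s)⁻¹ • x) i ^ 2 = 1
      have : ∀ i, ((Real.sqrt s)⁻¹ • x) i ^ 2 = s⁻¹ * x i ^ 2 := by
        intro i
        rw [Pi.smul_apply, smul_eq_mul, mul_pow, inv_pow, Real.sq_sqrt hs0]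
      rw [Finset.sum_congr rfl fun i _ => this i, ← Finset.mul_sum, ← hs]
      exact inv_mul_cancel₀ h.ne'
    have h2 := hmin h1
    have h3 : Q A x0 ≤ Q A ((Real.sqrt s)⁻¹ • x) := h2
    rw [Q_smul, inv_pow, Real.sq_sqrt hs0, inv_mul_eq_div, le_div_iff₀ h] at h3
    exact h3

/-- There is a shortest nonzero integral vector. -/
lemma exists_shortest [Nonempty ι] {A : Matrix ι ι ℝ} (hA : A.PosDef) :
    ∃ x : ι → ℤ, x ≠ 0 ∧ ∀ y : ι → ℤ, y ≠ 0 → Q A (rv x) ≤ Q A (rv y) := by
  classical
  obtain ⟨c, hc, hlow⟩ := exists_lower hA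
  obtain ⟨i0⟩ := ‹Nonempty ι›
  set x1 : ι → ℤ := Pi.single i0 1 with hx1
  have hx1' : x1 ≠ 0 := by
    intro h
    have := congrFun h i0
    simp [hx1] at this
  set S : Set (ι → ℤ) := {x | x ≠ 0 ∧ Q A (rv x) ≤ Q A (rv x1)} with hS
  obtain ⟨N, hN⟩ := exists_nat_ge (Q A (rv x1) / c)
  have hfin : S.Finite := by
    refine (Set.Finite.pi' (fun _ : ι => Set.finite_Icc (-(N : ℤ)) N)).subset ?_
    intro x hx i
    have h1 := (hlow (rv x)).trans hx.2
    have h2 : rv x i ^ 2 ≤ ∑ i, rv x i ^ 2 :=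
      Finset.single_le_sum (f := fun i => rv x i ^ 2) (fun _ _ => sq_nonneg _) (mem_univ i)
    have h3 : rv x i ^ 2 ≤ N := by
      refine le_trans ?_ hN
      rw [le_div_iff₀ hc]
      nlinarith
    have h4 : (x i) ^ 2 ≤ (N : ℤ) := by
      have : ((x i : ℤ) : ℝ) ^ 2 ≤ (N : ℝ) := h3
      exact_mod_cast this
    constructor
    · nlinarith [sq_nonneg (x i)]
    · nlinarith [sq_nonneg (x i)]
  obtain ⟨x, hx, hmin⟩ := Set.exists_min_image S (fun x => Q A (rv x)) hfin ⟨x1, hx1', le_rfl⟩
  refine ⟨x, hx.1, fun y hy => ?_⟩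
  rcases le_or_gt (Q A (rv y)) (Q A (rv x1)) with h | h
  · exact hmin y ⟨hy, h⟩
  · exact hx.2.trans h.le

/-- A shortest nonzero integral vector can be chosen in a basis. -/
lemma exists_basis_shortest [Nonempty ι] {A : Matrix ι ι ℝ} (hA : A.PosDef) :
    ∃ (B : Basis ι ℤ (ι → ℤ)) (j0 : ι), ∀ y : ι → ℤ, y ≠ 0 → Q A (rv (B j0)) ≤ Q A (rv y) := by
  classical
  obtain ⟨x, hx0, hx⟩ := exists_shortest hA
  set N := Submodule.span ℤ {x} with hN
  obtain ⟨n, snf⟩ := Submodule.smithNormalForm (Pi.basisFun ℤ ι) N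
  have hxN : x ∈ N := Submodule.mem_span_singleton_self x
  have hn : 0 < n := by
    rcases Nat.eq_zero_or_pos n with h | h
    · exfalso
      subst h
      have h1 : (⟨x, hxN⟩ : N) = 0 := by
        have := snf.bN.sum_repr ⟨x, hxN⟩
        rw [← this]
        simp
      exact hx0 (congrArg Subtype.val h1)
    · exact h
  set i : Fin n := ⟨0, hn⟩
  obtain ⟨k, hk⟩ := Submodule.mem_span_singleton.mp (snf.bN i).2
  have h1 := snf.snf i
  have h2 := snf.repr_apply_embedding_eq_repr_smul ⟨x, hxN⟩ (i := i)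
  have h3 : snf.bM.repr (snf.bN i : ι → ℤ) (snf.f i) = snf.a i := by
    rw [h1, map_smul, Finsupp.smul_apply, Basis.repr_self, Finsupp.single_eq_same, smul_eq_mul,
      mul_one]
  have h4 : snf.bM.repr (snf.bN i : ι → ℤ) (snf.f i) = k * snf.bM.repr x (snf.f i) := by
    rw [← hk, map_smul, Finsupp.smul_apply, smul_eq_mul]
  have h5 : snf.a i ≠ 0 := by
    intro h
    rw [h, zero_smul] at h1
    have h6 : snf.bN i = 0 := Subtype.ext h1
    exact snf.bN.ne_zero i h6
  rw [map_smul, Finsupp.smul_apply, smul_eq_mul] at h2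
  have h6 : k * snf.bN.repr ⟨x, hxN⟩ i = 1 := by
    have h7 : snf.bM.repr x (snf.f i) = snf.a i * snf.bN.repr ⟨x, hxN⟩ i := h2
    rw [h3, h7] at h4
    have h8 : snf.a i * (k * snf.bN.repr ⟨x, hxN⟩ i) = snf.a i * 1 := by linarith
    exact mul_left_cancel₀ h5 h8
  have hk2 : k ^ 2 = 1 := by
    rcases Int.isUnit_iff.mp (IsUnit.of_mul_eq_one _ h6) with h | h <;> rw [h] <;> norm_num
  refine ⟨snf.bM, snf.f i, fun y hy => le_trans ?_ (hx y hy)⟩
  have h7 : Q A (rv (snf.bN i : ι → ℤ)) = Q A (rv x) := by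
    rw [← hk]
    have : rv (k • x) = (k : ℝ) • rv x := by
      funext j; simp [rv]
    rw [this, Q_smul]
    have : ((k : ℝ)) ^ 2 = 1 := by exact_mod_cast hk2
    rw [this, one_mul]
  rw [← h7, h1]
  have h8 : rv (snf.a i • snf.bM (snf.f i)) = (snf.a i : ℝ) • rv (snf.bM (snf.f i)) := by
    funext j; simp [rv]
  rw [h8, Q_smul]
  have h9 : (1 : ℝ) ≤ (snf.a i : ℝ) ^ 2 := by
    have : 1 ≤ (snf.a i) ^ 2 := by
      have := Int.one_le_abs h5
      nlinarith [sq_abs (snf.a i)]
    exact_mod_cast this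
  have h10 : 0 ≤ Q A (rv (snf.bM (snf.f i))) := by
    by_cases h : rv (snf.bM (snf.f i)) = 0
    · rw [h]; unfold Q; simp
    · exact (Q_pos hA h).le
  nlinarith

/-- The form of a conjugated matrix. -/
lemma Q_conj {κ : Type*} [Fintype κ] (A : Matrix ι ι ℝ) (V : Matrix κ ι ℝ) (z : κ → ℝ) :
    Q (V * A * Vᵀ) z = Q A (z ᵥ* V) := by
  rw [Q_eq, Q_eq]
  simp only [star_trivial]
  rw [← mulVec_mulVec, ← mulVec_mulVec, mulVec_transpose, dotProduct_mulVec]

lemma conj_diag {κ : Type*} (A : Matrix ι ι ℝ) (V : Matrix κ ι ℝ) (s : κ) :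
    (V * A * Vᵀ) s s = Q A (V s) := by
  unfold Q
  rw [Matrix.mul_apply, Finset.sum_comm]
  refine Finset.sum_congr rfl fun j _ => ?_
  rw [Matrix.mul_apply, Finset.sum_mul]
  refine Finset.sum_congr rfl fun i _ => ?_
  rw [transpose_apply]
  ring

end

section

variable {κ : Type*} [Fintype κ] [DecidableEq κ]

/-- The Schur complement of the last diagonal entry. -/
noncomputable def schur (A : Matrix (κ ⊕ Unit) (κ ⊕ Unit) ℝ) : Matrix κ κ ℝ :=
  fun i j => A (.inl i) (.inl j) -
    A (.inl i) (.inr ()) * A (.inr ()) (.inl j) / A (.inr ()) (.inr ())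

lemma det_schur (A : Matrix (κ ⊕ Unit) (κ ⊕ Unit) ℝ) (h : A (.inr ()) (.inr ()) ≠ 0) :
    A.det = A (.inr ()) (.inr ()) * (schur A).det := by
  have h1 : A = fromBlocks A.toBlocks₁₁ A.toBlocks₁₂ A.toBlocks₂₁ A.toBlocks₂₂ :=
    (fromBlocks_toBlocks A).symm
  have hd : A.toBlocks₂₂.det = A (.inr ()) (.inr ()) := by
    rw [det_unique]; rfl
  have : Invertible A.toBlocks₂₂ := by
    refine Matrix.invertibleOfIsUnitDet _ ?_
    rw [hd]
    exact isUnit_iff_ne_zero.mpr h
  have h2 : A.det = (fromBlocks A.toBlocks₁₁ A.toBlocks₁₂ A.toBlocks₂₁ A.toBlocks₂₂).det := by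
    rw [← h1]
  rw [h2, det_fromBlocks₂₂, hd]
  congr 2
  ext i j
  have h3 : (⅟A.toBlocks₂₂) () () = (A (.inr ()) (.inr ()))⁻¹ := by
    have h4 := congrFun (congrFun (invOf_mul_self A.toBlocks₂₂) ()) ()
    rw [Matrix.mul_apply] at h4
    simp only [univ_unique, PUnit.default_eq_unit, sum_singleton, one_apply_eq] at h4
    exact eq_inv_of_mul_eq_one_left h4
  simp only [Matrix.sub_apply, schur, Matrix.mul_apply, univ_unique, PUnit.default_eq_unit,
    sum_singleton, h3]
  show A (.inl i) (.inl j) - A (.inl i) (.inr ()) * _ * A (.inr ()) (.inl j) = _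
  rw [div_eq_mul_inv]
  ring

omit [DecidableEq κ] in
lemma Q_schur (A : Matrix (κ ⊕ Unit) (κ ⊕ Unit) ℝ) (hs : ∀ s t, A s t = A t s)
    (h : A (.inr ()) (.inr ()) ≠ 0) (y : κ → ℝ) (t : ℝ) :
    Q A (Sum.elim y fun _ => t) = A (.inr ()) (.inr ()) *
      (t + (∑ i, A (.inl i) (.inr ()) * y i) / A (.inr ()) (.inr ())) ^ 2 + Q (schur A) y := by
  set a := A (.inr ()) (.inr ()) with ha
  set u := ∑ i, A (.inl i) (.inr ()) * y i with hu
  have h1 : Q (schur A) y = (∑ i, ∑ j, A (.inl i) (.inl j) * y i * y j) - u ^ 2 / a := by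
    unfold Q schur
    have e1 : ∀ i j, (A (.inl i) (.inl j) - A (.inl i) (.inr ()) * A (.inr ()) (.inl j) / a) *
        y i * y j = A (.inl i) (.inl j) * y i * y j -
        (A (.inl i) (.inr ()) * y i) * (A (.inl j) (.inr ()) * y j) / a := by
      intro i j
      rw [hs (.inr ()) (.inl j)]
      ring
    rw [← ha, Finset.sum_congr rfl fun i _ => Finset.sum_congr rfl fun j _ => e1 i j]
    simp only [Finset.sum_sub_distrib]
    congr 1
    rw [sq, hu, Finset.sum_mul_sum, Finset.sum_div]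
    refine Finset.sum_congr rfl fun i _ => ?_
    rw [Finset.sum_div]
  have h2 : Q A (Sum.elim y fun _ => t) = (∑ i, ∑ j, A (.inl i) (.inl j) * y i * y j) +
      2 * t * u + a * t ^ 2 := by
    unfold Q
    simp only [Fintype.sum_sum_type, Sum.elim_inl, Sum.elim_inr, univ_unique,
      PUnit.default_eq_unit, sum_singleton, Finset.sum_add_distrib]
    have e1 : ∑ i, A (.inl i) (.inr ()) * y i * t = t * u := by
      rw [hu, Finset.mul_sum]
      exact Finset.sum_congr rfl fun i _ => by ring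
    have e2 : ∑ i, A (.inr ()) (.inl i) * t * y i = t * u := by
      rw [hu, Finset.mul_sum]
      exact Finset.sum_congr rfl fun i _ => by rw [hs (.inr ()) (.inl i)]; ring
    rw [e1, e2]
    ring
  rw [h1, h2]
  field_simp
  ring

omit [DecidableEq κ] in
lemma schur_posDef {A : Matrix (κ ⊕ Unit) (κ ⊕ Unit) ℝ} (hs : ∀ s t, A s t = A t s)
    (h : 0 < A (.inr ()) (.inr ())) (hA : ∀ z : κ ⊕ Unit → ℝ, z ≠ 0 → 0 < Q A z) :
    (schur A).PosDef := by
  refine Matrix.PosDef.of_dotProduct_mulVec_pos ?_ ?_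
  · ext i j
    simp only [conjTranspose_apply, star_trivial, schur]
    rw [hs (.inl j) (.inl i), hs (.inl j) (.inr ()), hs (.inr ()) (.inl i)]
    ring
  · intro y hy
    rw [← Q_eq]
    have h1 := Q_schur A hs h.ne' y (-((∑ i, A (.inl i) (.inr ()) * y i) / A (.inr ()) (.inr ())))
    rw [neg_add_cancel, zero_pow two_ne_zero, mul_zero, zero_add] at h1
    rw [← h1]
    refine hA _ ?_
    intro h2
    apply hy
    funext i
    exact congrFun h2 (.inl i)

end

/-- **Reduction of positive definite quadratic forms.** -/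
theorem exists_reduced : ∀ (n : ℕ) (A : Matrix (Fin n) (Fin n) ℝ), A.PosDef →
    ∃ U : Matrix (Fin n) (Fin n) ℤ, IsUnit U.det ∧
      ∏ i, Q A (rv (U i)) ≤ (4 / 3) ^ (n ^ 2) * A.det := by
  intro n
  induction n with
  | zero =>
    intro A _
    exact ⟨1, by simp, by simp⟩
  | succ n ih =>
    intro A hA
    obtain ⟨B, j0, hj0⟩ := exists_basis_shortest hA
    set e : Fin (n + 1) ≃ Fin n ⊕ Unit :=
      (finSuccEquiv' j0).trans (Equiv.optionEquivSumPUnit (Fin n)) with he
    have hej : e.symm (.inr ()) = j0 := by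
      rw [he]
      simp
    set V : Matrix (Fin n ⊕ Unit) (Fin (n + 1)) ℤ := fun s => B (e.symm s) with hV
    set V' : Matrix (Fin (n + 1)) (Fin (n + 1)) ℤ := fun i => B i with hV'
    have hVV' : V.submatrix e id = V' := by
      ext i j
      simp [hV, hV']
    have hdet : IsUnit V'.det := by
      have h1 : V' = ((Pi.basisFun ℤ (Fin (n + 1))).toMatrix B)ᵀ := by
        ext i j
        simp [hV', Basis.toMatrix_apply]
      rw [h1, det_transpose]
      have h2 := Basis.toMatrix_mul_toMatrix_flip (Pi.basisFun ℤ (Fin (n + 1))) B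
      exact IsUnit.of_mul_eq_one _ (by rw [← det_mul, h2, det_one])
    set Vr : Matrix (Fin n ⊕ Unit) (Fin (n + 1)) ℝ := V.map (fun z : ℤ => (z : ℝ)) with hVr
    set V'r : Matrix (Fin (n + 1)) (Fin (n + 1)) ℝ := V'.map (fun z : ℤ => (z : ℝ)) with hV'r
    have hdetr : V'r.det ^ 2 = 1 := by
      have h1 : V'r.det = ((V'.det : ℤ) : ℝ) := by
        rw [hV'r]
        exact (Int.cast_det V').symm
      rw [h1]
      rcases Int.isUnit_iff.mp hdet with h | h <;> rw [h] <;> norm_num
    set A1 := Vr * A * Vrᵀ with hA1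
    have hAT : Aᵀ = A := by
      have h := hA.isHermitian.eq
      rwa [conjTranspose_eq_transpose_of_trivial] at h
    have hA1T : A1ᵀ = A1 := by
      rw [hA1, transpose_mul, transpose_mul, transpose_transpose, hAT, Matrix.mul_assoc]
    have hs1 : ∀ s t, A1 s t = A1 t s := fun s t => congrFun (congrFun hA1T t) s
    have hQ1 : ∀ z, Q A1 z = Q A (z ᵥ* Vr) := fun z => Q_conj A Vr z
    have hinj : ∀ z : Fin n ⊕ Unit → ℝ, z ≠ 0 → 0 < Q A1 z := by
      intro z hz
      rw [hQ1]
      refine Q_pos hA fun h => hz ?_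
      have h1 : (z ∘ e) ᵥ* V'r = 0 := by
        rw [← h]
        funext j
        simp only [vecMul, dotProduct, Function.comp_apply]
        rw [← Equiv.sum_comp e]
        refine Finset.sum_congr rfl fun i _ => ?_
        simp [hVr, hV'r, hV, hV']
      have h2 : z ∘ e = 0 := by
        refine Matrix.eq_zero_of_vecMul_eq_zero ?_ h1
        intro h3
        rw [h3] at hdetr
        norm_num at hdetr
      funext s
      have h3 := congrFun h2 (e.symm s)
      simpa using h3
    have hdetA1 : A1.det = A.det := by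
      have h1 : A1.submatrix e e = V'r * A * V'rᵀ := by
        ext i j
        simp only [submatrix_apply, hA1, Matrix.mul_apply, transpose_apply]
        simp [hVr, hV'r, hV, hV']
      rw [← det_submatrix_equiv_self e, h1, det_mul, det_mul, det_transpose]
      calc V'r.det * A.det * V'r.det = V'r.det ^ 2 * A.det := by ring
        _ = A.det := by rw [hdetr, one_mul]
    set a := A1 (.inr ()) (.inr ()) with ha
    have hrow : Vr (.inr ()) = rv (B j0) := by
      funext j
      simp [hVr, hV, hej, rv]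
    have haQ : a = Q A (rv (B j0)) := by
      rw [ha, hA1, conj_diag, hrow]
    have ha0 : 0 < a := by
      rw [haQ]
      refine Q_pos hA fun h => B.ne_zero j0 ?_
      funext i
      have h1 := congrFun h i
      have h2 : ((B j0 i : ℤ) : ℝ) = 0 := h1
      exact_mod_cast h2
    have hamin : ∀ y : Fin (n + 1) → ℤ, y ≠ 0 → a ≤ Q A (rv y) := by
      intro y hy
      rw [haQ]
      exact hj0 y hy
    have hS : (schur A1).PosDef := schur_posDef hs1 ha0 hinj
    obtain ⟨U', hU', hprod⟩ := ih (schur A1) hS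
    set t : Fin n → ℤ := fun k =>
      -round ((∑ i, A1 (.inl i) (.inr ()) * rv (U' k) i) / a) with ht
    set W : Matrix (Fin n ⊕ Unit) (Fin n ⊕ Unit) ℤ := fromBlocks U' (fun k _ => t k) 0 1 with hW
    have hWdet : W.det = U'.det := by
      rw [hW, det_fromBlocks_zero₂₁, det_one, mul_one]
    have hrvW : ∀ s, rv ((W * V) s) = rv (W s) ᵥ* Vr := by
      intro s
      funext j
      simp only [rv, vecMul, dotProduct, Matrix.mul_apply, hVr, map_apply]
      push_cast
      rfl
    have hqW : ∀ s, Q A (rv ((W * V) s)) = Q A1 (rv (W s)) := by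
      intro s
      rw [hrvW, hQ1]
    have hWl : ∀ k, rv (W (.inl k)) = Sum.elim (rv (U' k)) fun _ => (t k : ℝ) := by
      intro k
      funext s
      rcases s with s | s <;> simp [rv, hW]
    have hWr : rv (W (.inr ())) = Sum.elim (0 : Fin n → ℝ) fun _ => (1 : ℝ) := by
      funext s
      rcases s with s | s <;> simp [rv, hW]
    have hql : ∀ k, Q A (rv ((W * V) (.inl k))) ≤ 4 / 3 * Q (schur A1) (rv (U' k)) := by
      intro k
      have h1 : Q A (rv ((W * V) (.inl k))) =
          a * ((t k : ℝ) + (∑ i, A1 (.inl i) (.inr ()) * rv (U' k) i) / a) ^ 2 +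
            Q (schur A1) (rv (U' k)) := by
        rw [hqW, hWl, Q_schur A1 hs1 ha0.ne']
      have h2 : 0 < Q (schur A1) (rv (U' k)) := by
        refine Q_pos hS fun h => ?_
        have h3 : U'.det = 0 := by
          refine det_eq_zero_of_row_eq_zero k fun i => ?_
          have h4 : ((U' k i : ℤ) : ℝ) = 0 := congrFun h i
          exact_mod_cast h4
        rw [h3] at hU'
        exact not_isUnit_zero hU'
      have h3 : ((t k : ℝ) + (∑ i, A1 (.inl i) (.inr ()) * rv (U' k) i) / a) ^ 2 ≤ 1 / 4 := by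
        have h4 := abs_sub_round ((∑ i, A1 (.inl i) (.inr ()) * rv (U' k) i) / a)
        have h5 : (t k : ℝ) + (∑ i, A1 (.inl i) (.inr ()) * rv (U' k) i) / a =
            (∑ i, A1 (.inl i) (.inr ()) * rv (U' k) i) / a -
            round ((∑ i, A1 (.inl i) (.inr ()) * rv (U' k) i) / a) := by
          simp only [ht]
          push_cast
          ring
        rw [h5]
        have h6 := abs_le.mp h4
        nlinarith [h6.1, h6.2]
      have h4 : a ≤ Q A (rv ((W * V) (.inl k))) := by
        refine hamin _ fun h => ?_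
        have h5 : 0 < Q A (rv ((W * V) (.inl k))) := by
          rw [h1]
          have := mul_nonneg ha0.le (sq_nonneg
            ((t k : ℝ) + (∑ i, A1 (.inl i) (.inr ()) * rv (U' k) i) / a))
          linarith
        rw [h] at h5
        have h6 : Q A (rv (0 : Fin (n + 1) → ℤ)) = 0 := by
          unfold Q rv; simp
        linarith
      nlinarith
    have hqr : Q A (rv ((W * V) (.inr ()))) = a := by
      rw [hqW, hWr, Q_schur A1 hs1 ha0.ne']
      have : Q (schur A1) 0 = 0 := by unfold Q; simp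
      rw [this]
      simp [ha]
    refine ⟨(W * V).submatrix e id, ?_, ?_⟩
    · have h1 : (W * V).submatrix e id = W.submatrix e e * V' := by
        rw [← hVV', submatrix_mul_equiv]
      rw [h1, det_mul, det_submatrix_equiv_self, hWdet]
      exact hU'.mul hdet
    · have h1 : ∏ i, Q A (rv ((W * V).submatrix e id i)) = ∏ s, Q A (rv ((W * V) s)) := by
        rw [← Equiv.prod_comp e]
        rfl
      rw [h1, Fintype.prod_sum_type]
      have h2 : ∏ k, Q A (rv ((W * V) (.inl k))) ≤
          (4 / 3) ^ n * ∏ k, Q (schur A1) (rv (U' k)) := by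
        calc ∏ k, Q A (rv ((W * V) (.inl k))) ≤ ∏ k, (4 / 3 * Q (schur A1) (rv (U' k))) := by
              refine Finset.prod_le_prod (fun k _ => ?_) fun k _ => hql k
              by_cases h : rv ((W * V) (.inl k)) = 0
              · rw [h]; unfold Q; simp
              · exact (Q_pos hA h).le
          _ = _ := by
              rw [Finset.prod_mul_distrib, Finset.prod_const, Finset.card_univ, Fintype.card_fin]
      have h3 : ∏ s : Unit, Q A (rv ((W * V) (.inr s))) = a := by
        simp [hqr]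
      rw [h3]
      have hd : A.det = a * (schur A1).det := by
        rw [← hdetA1]
        exact det_schur A1 ha0.ne'
      have hd0 : 0 < (schur A1).det := hS.det_pos
      calc (∏ k, Q A (rv ((W * V) (.inl k)))) * a
          ≤ ((4 / 3) ^ n * ((4 / 3) ^ (n ^ 2) * (schur A1).det)) * a := by
            refine mul_le_mul_of_nonneg_right (h2.trans ?_) ha0.le
            exact mul_le_mul_of_nonneg_left hprod (by positivity)
        _ = (4 / 3) ^ (n + n ^ 2) * A.det := by rw [hd, pow_add]; ring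
        _ ≤ (4 / 3) ^ ((n + 1) ^ 2) * A.det := by
            refine mul_le_mul_of_nonneg_right ?_ hA.det_pos.le
            refine pow_le_pow_right₀ (by norm_num) ?_
            nlinarith

end Pool.Agent.GE.Mink
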