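import Mathlib
import Pool.Agent.GE.Mink

/-! # Geometry of numbers (module Red, helper6) -/

set_option autoImplicit false

namespace Pool.Agent.GE

open Matrix Finset

/-- Minkowski's second theorem for positive definite quadratic forms on `ℤ^n`. -/
theorem minkowski_second (n : ℕ) : ∃ κ : ℝ, 0 < κ ∧ ∀ Q : Matrix (Fin n) (Fin n) ℝ, Q.PosDef →
    ∃ b : Fin n → Fin n → ℤ, LinearIndependent ℤ b ∧
      ∏ j, (∑ i, ∑ k, (b j i : ℝ) * Q i k * b j k) ≤ κ * Q.det := by
  refine ⟨(4 / 3) ^ (n ^ 2), by positivity, fun Q hQ => ?_⟩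
  obtain ⟨U, hU, hprod⟩ := Mink.exists_reduced n Q hQ
  refine ⟨U, ?_, ?_⟩
  · exact Matrix.linearIndependent_rows_of_det_ne_zero hU.ne_zero
  · refine le_trans (le_of_eq ?_) hprod
    refine Finset.prod_congr rfl fun j _ => ?_
    unfold Mink.Q
    refine Finset.sum_congr rfl fun i _ => Finset.sum_congr rfl fun k _ => ?_
    simp only [Mink.rv]
    ring

/-- The determinant is at most `r!` times the power of a bound for the entries. -/
lemma det_le_of_abs_le {r : ℕ} (B : Matrix (Fin r) (Fin r) ℝ) (c : ℝ)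
    (h : ∀ i j, |B i j| ≤ c) : B.det ≤ r.factorial * c ^ r := by
  rw [det_apply]
  calc ∑ σ : Equiv.Perm (Fin r), Equiv.Perm.sign σ • ∏ i, B (σ i) i
      ≤ ∑ _σ : Equiv.Perm (Fin r), c ^ r := by
        refine Finset.sum_le_sum fun σ _ => ?_
        refine (le_abs_self _).trans ?_
        have h1 : |Equiv.Perm.sign σ • ∏ i, B (σ i) i| = |∏ i, B (σ i) i| := by
          rcases Int.units_eq_one_or (Equiv.Perm.sign σ) with h | h <;> rw [h] <;> simp
        rw [h1, Finset.abs_prod]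
        calc ∏ i, |B (σ i) i| ≤ ∏ _i : Fin r, c :=
              Finset.prod_le_prod (fun _ _ => abs_nonneg _) fun i _ => h _ _
          _ = c ^ r := by simp
    _ = r.factorial * c ^ r := by
        rw [Finset.sum_const, Finset.card_univ, Fintype.card_perm, Fintype.card_fin, nsmul_eq_mul]

theorem exists_vectors (n r : ℕ) (hr : r < n) : ∃ κ : ℝ, 1 ≤ κ ∧ ∀ τ : ℝ, 1 ≤ τ →
    ∀ M : Matrix (Fin n) (Fin r) ℝ, ∑ i, ∑ k, M i k ^ 2 ≤ 1 →
    ∃ (b : Fin n → Fin n → ℤ) (Q : Fin n → ℝ), LinearIndependent ℤ b ∧ (∀ j, 0 < Q j) ∧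
      (∀ j, ∑ i, (b j i : ℝ) ^ 2 ≤ τ ^ (2 * r * (r + 1)) * Q j) ∧
      (∀ j, (∑ k, (∑ i, (b j i : ℝ) * M i k) ^ 2) * τ ^ (2 * (n - r) * (r + 1)) ≤ Q j) ∧
      ∏ j, Q j ≤ κ := by
  obtain ⟨κ0, hκ0, hmink⟩ := minkowski_second n
  refine ⟨max 1 (κ0 * (r.factorial * 2 ^ r)), le_max_left _ _, fun τ hτ M hM => ?_⟩
  have hτ0 : 0 < τ := lt_of_lt_of_le one_pos hτ
  set a : ℝ := (τ ^ (2 * r * (r + 1)))⁻¹ with ha
  set c : ℝ := τ ^ (2 * (n - r) * (r + 1)) with hc
  have ha0 : 0 < a := by positivity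
  have ha1 : a ≤ 1 := inv_le_one_of_one_le₀ (one_le_pow₀ hτ)
  have hc1 : 1 ≤ c := one_le_pow₀ hτ
  have hc0 : 0 < c := lt_of_lt_of_le one_pos hc1
  set q : Matrix (Fin n) (Fin n) ℝ := a • (1 : Matrix (Fin n) (Fin n) ℝ) + c • (M * Mᵀ) with hq
  have hqQ : ∀ x : Fin n → ℝ, ∑ i, ∑ k, x i * q i k * x k =
      a * ∑ i, x i ^ 2 + c * ∑ k, (∑ i, x i * M i k) ^ 2 := by
    intro x
    have h1 : ∀ i, ∑ k, x i * q i k * x k =
        a * x i ^ 2 + c * ∑ l, (x i * M i l) * (∑ k, x k * M k l) := by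
      intro i
      have h2 : ∀ k, x i * q i k * x k = a * (x i * (1 : Matrix (Fin n) (Fin n) ℝ) i k * x k) +
          c * ∑ l, (x i * M i l) * (x k * M k l) := by
        intro k
        have h3 : q i k = a * (1 : Matrix (Fin n) (Fin n) ℝ) i k + c * ∑ l, M i l * M k l := by
          simp [hq, Matrix.mul_apply]
        rw [h3, Finset.mul_sum, Finset.mul_sum, mul_add, add_mul, Finset.mul_sum, Finset.sum_mul]
        congr 1
        · ring
        · exact Finset.sum_congr rfl fun l _ => by ring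
      rw [Finset.sum_congr rfl fun k _ => h2 k, Finset.sum_add_distrib, ← Finset.mul_sum,
        ← Finset.mul_sum, Finset.sum_comm]
      congr 1
      · congr 1
        rw [Finset.sum_eq_single i]
        · rw [one_apply_eq]; ring
        · intro k _ hk
          rw [one_apply_ne hk.symm]; ring
        · intro h; exact absurd (mem_univ i) h
      · congr 1
        exact Finset.sum_congr rfl fun l _ => by rw [Finset.mul_sum]
    rw [Finset.sum_congr rfl fun i _ => h1 i, Finset.sum_add_distrib, ← Finset.mul_sum,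
      ← Finset.mul_sum, Finset.sum_comm]
    congr 2
    refine Finset.sum_congr rfl fun l _ => ?_
    rw [← Finset.sum_mul]
    ring
  have hqpos : q.PosDef := by
    refine Matrix.PosDef.of_dotProduct_mulVec_pos ?_ ?_
    · have : qᵀ = q := by
        rw [hq, transpose_add, transpose_smul, transpose_smul, transpose_one, transpose_mul,
          transpose_transpose]
      rw [Matrix.IsHermitian, conjTranspose_eq_transpose_of_trivial, this]
    · intro x hx
      rw [← Mink.Q_eq]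
      have h1 : Mink.Q q x = ∑ i, ∑ k, x i * q i k * x k := by
        unfold Mink.Q
        exact Finset.sum_congr rfl fun i _ => Finset.sum_congr rfl fun k _ => by ring
      rw [h1, hqQ]
      have h2 : 0 < ∑ i, x i ^ 2 := by
        obtain ⟨i, hi⟩ := Function.ne_iff.mp hx
        have hi' : x i ≠ 0 := hi
        refine Finset.sum_pos' (fun _ _ => sq_nonneg _) ⟨i, mem_univ i, by positivity⟩
      have h3 : 0 ≤ ∑ k, (∑ i, x i * M i k) ^ 2 := Finset.sum_nonneg fun _ _ => sq_nonneg _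
      positivity
  obtain ⟨b, hb, hprod⟩ := hmink q hqpos
  have hdet : q.det ≤ r.factorial * 2 ^ r := by
    set B : Matrix (Fin r) (Fin r) ℝ := a • (1 : Matrix (Fin r) (Fin r) ℝ) + c • (Mᵀ * M) with hB
    have h1 : q.det = a ^ (n - r) * B.det := by
      have e1 : q = a • (1 + ((c / a) • M) * Mᵀ) := by
        rw [hq, smul_add, Matrix.smul_mul, smul_smul, mul_div_cancel₀ c ha0.ne']
      have e2 : B = a • (1 + Mᵀ * ((c / a) • M)) := by
        rw [hB, smul_add, Matrix.mul_smul, smul_smul, mul_div_cancel₀ c ha0.ne']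
      rw [e1, e2, det_smul, det_smul, det_one_add_mul_comm, Fintype.card_fin, Fintype.card_fin,
        ← mul_assoc, ← pow_add, Nat.sub_add_cancel hr.le]
    have hcol : ∀ j, ∑ k, M k j ^ 2 ≤ 1 := by
      intro j
      refine le_trans ?_ hM
      exact Finset.sum_le_sum fun k _ =>
        Finset.single_le_sum (f := fun l => M k l ^ 2) (fun _ _ => sq_nonneg _) (mem_univ j)
    have h2 : ∀ i j, |B i j| ≤ 2 * c := by
      intro i j
      have e1 : B i j = a * (1 : Matrix (Fin r) (Fin r) ℝ) i j + c * ∑ k, M k i * M k j := by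
        simp [hB, Matrix.mul_apply]
      have e2 : |(1 : Matrix (Fin r) (Fin r) ℝ) i j| ≤ 1 := by
        by_cases h : i = j
        · rw [h, one_apply_eq, abs_one]
        · rw [one_apply_ne h, abs_zero]; norm_num
      have e3 : |∑ k, M k i * M k j| ≤ 1 := by
        calc |∑ k, M k i * M k j| ≤ ∑ k, |M k i * M k j| := Finset.abs_sum_le_sum_abs _ _
          _ ≤ ∑ k, (M k i ^ 2 + M k j ^ 2) / 2 := by
              refine Finset.sum_le_sum fun k _ => ?_
              rw [abs_mul]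
              nlinarith [sq_nonneg (|M k i| - |M k j|), sq_abs (M k i), sq_abs (M k j)]
          _ = (∑ k, M k i ^ 2 + ∑ k, M k j ^ 2) / 2 := by
              rw [← Finset.sum_div, Finset.sum_add_distrib]
          _ ≤ 1 := by linarith [hcol i, hcol j]
      rw [e1]
      calc _ ≤ |a * (1 : Matrix (Fin r) (Fin r) ℝ) i j| + |c * ∑ k, M k i * M k j| := abs_add_le _ _
        _ ≤ a * 1 + c * 1 := by
            rw [abs_mul, abs_mul, abs_of_pos ha0, abs_of_pos hc0]
            gcongr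
        _ ≤ 2 * c := by linarith
    have h3 := det_le_of_abs_le B (2 * c) h2
    have h4 : a ^ (n - r) * c ^ r = 1 := by
      have e1 : c ^ r = (τ ^ (2 * r * (r + 1))) ^ (n - r) := by
        rw [hc, ← pow_mul, ← pow_mul]
        congr 1
        ring
      rw [e1, ha, ← mul_pow, inv_mul_cancel₀ (by positivity), one_pow]
    rw [h1]
    calc a ^ (n - r) * B.det ≤ a ^ (n - r) * (r.factorial * (2 * c) ^ r) :=
          mul_le_mul_of_nonneg_left h3 (by positivity)
      _ = (a ^ (n - r) * c ^ r) * (r.factorial * 2 ^ r) := by rw [mul_pow]; ring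
      _ = r.factorial * 2 ^ r := by rw [h4, one_mul]
  refine ⟨b, fun j => ∑ i, ∑ k, (b j i : ℝ) * q i k * b j k, hb, ?_, ?_, ?_, ?_⟩
  · intro j
    have h1 := hqQ fun i => (b j i : ℝ)
    beta_reduce
    rw [h1]
    have h2 : 0 < ∑ i, (b j i : ℝ) ^ 2 := by
      obtain ⟨i, hi⟩ := Function.ne_iff.mp (hb.ne_zero j)
      have hi' : (b j i : ℝ) ≠ 0 := by
        have : b j i ≠ 0 := hi
        exact_mod_cast this
      refine Finset.sum_pos' (fun _ _ => sq_nonneg _) ⟨i, mem_univ i, by positivity⟩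
    have h3 : 0 ≤ ∑ k, (∑ i, (b j i : ℝ) * M i k) ^ 2 := Finset.sum_nonneg fun _ _ => sq_nonneg _
    positivity
  · intro j
    have h1 := hqQ fun i => (b j i : ℝ)
    beta_reduce
    rw [h1]
    have h3 : 0 ≤ ∑ k, (∑ i, (b j i : ℝ) * M i k) ^ 2 := Finset.sum_nonneg fun _ _ => sq_nonneg _
    have h4 : τ ^ (2 * r * (r + 1)) * a = 1 := by
      rw [ha]; exact mul_inv_cancel₀ (by positivity)
    have h5 : 0 ≤ τ ^ (2 * r * (r + 1)) * (c * ∑ k, (∑ i, (b j i : ℝ) * M i k) ^ 2) := by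
      positivity
    calc ∑ i, (b j i : ℝ) ^ 2 = τ ^ (2 * r * (r + 1)) * a * ∑ i, (b j i : ℝ) ^ 2 := by
          rw [h4, one_mul]
      _ ≤ τ ^ (2 * r * (r + 1)) * a * ∑ i, (b j i : ℝ) ^ 2 +
          τ ^ (2 * r * (r + 1)) * (c * ∑ k, (∑ i, (b j i : ℝ) * M i k) ^ 2) :=
          le_add_of_nonneg_right h5
      _ = _ := by ring
  · intro j
    have h1 := hqQ fun i => (b j i : ℝ)
    beta_reduce
    rw [h1]
    have h2 : 0 ≤ a * ∑ i, (b j i : ℝ) ^ 2 := by positivity
    linarith
  · refine hprod.trans (le_trans ?_ (le_max_right _ _))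
    exact mul_le_mul_of_nonneg_left hdet hκ0.le

end Pool.Agent.GE
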