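import Mathlib
import Pool.Agent.GE.Red

/-! # Choice of the vectors and weights (module Choose) -/

set_option autoImplicit false

namespace Pool.Agent.GE

open Finset

/-- The exponents. -/
lemma exponent_ineq (n m r : ℕ) (hmr : m + r < n) :
    m * ((2 * (n - r) * (r + 1) - 1) + 2 * r * (r + 1)) + 1 ≤ n * (2 * (n - r) * (r + 1) - 1) := by
  obtain ⟨u, rfl⟩ : ∃ u, n = m + r + 1 + u := ⟨n - (m + r + 1), by omega⟩
  have h1 : m + r + 1 + u - r = m + 1 + u := by omega
  rw [h1]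
  obtain ⟨v, hv⟩ : ∃ v, 2 * (m + 1 + u) * (r + 1) = v + 1 :=
    ⟨2 * (m + 1 + u) * (r + 1) - 1, by
      have : 1 ≤ 2 * (m + 1 + u) * (r + 1) := Nat.one_le_iff_ne_zero.mpr (by positivity)
      omega⟩
  rw [hv, Nat.add_sub_cancel]
  nlinarith [Nat.zero_le (u * v), Nat.zero_le (m * r * u), Nat.zero_le (m * u),
    Nat.zero_le (r * u), Nat.zero_le (r * r), Nat.zero_le (r * r * u), Nat.zero_le (m * r * r),
    Nat.zero_le (m * r), hv, mul_comm r v]

theorem exists_tuples (n m r : ℕ) (hmr : m + r < n) (A : ℕ) (η : ℝ) (hη : 0 < η) :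
    ∃ g : ℕ, ∀ M : Matrix (Fin n) (Fin r) ℝ, ∃ (b : Fin n → Fin n → ℤ) (c : Fin n → ℕ),
      (∀ j, c j = 0 → b j = 0) ∧
      LinearIndependent ℤ (fun j : {j // c j ≠ 0} => b j) ∧
      (∀ j i, |b j i| ≤ g) ∧ (∀ j, c j ≤ g) ∧
      A * (∑ j, c j * ∑ i, (b j i).natAbs ^ 2 + 1) ^ m < ∏ j, (c j + 1) ∧
      ∑ j, (c j : ℝ) * ∑ k, (∑ i, (b j i : ℝ) * M i k) ^ 2 ≤ η * ∑ i, ∑ k, M i k ^ 2 := by
  classical
  obtain ⟨κ, hκ, hvec⟩ := exists_vectors n r (by omega)
  have hexp := exponent_ineq n m r hmr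
  set p : ℕ := 2 * r * (r + 1) with hp
  set p' : ℕ := 2 * (n - r) * (r + 1) with hp'
  have hp'1 : 1 ≤ p' := by
    have : 0 < n - r := by omega
    exact Nat.one_le_iff_ne_zero.mpr (by positivity)
  set α : ℕ := p' - 1 with hα
  set τ : ℝ := max 1 (max (A * κ * (n + 1) ^ m + 1) (n / η)) with hτdef
  have hτ1 : 1 ≤ τ := le_max_left _ _
  have hτ2 : A * κ * (n + 1) ^ m + 1 ≤ τ := (le_max_left _ _).trans (le_max_right _ _)
  have hτ3 : n / η ≤ τ := (le_max_right _ _).trans (le_max_right _ _)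
  have hτ0 : 0 < τ := lt_of_lt_of_le one_pos hτ1
  set T : ℝ := τ ^ α with hT
  have hT0 : 0 < T := by positivity
  have hT1 : 1 ≤ T := one_le_pow₀ hτ1
  have hp1 : 1 ≤ τ ^ p := one_le_pow₀ hτ1
  obtain ⟨g, hg⟩ := exists_nat_ge (T * τ ^ p)
  refine ⟨g, fun M => ?_⟩
  set s : ℝ := ∑ i, ∑ k, M i k ^ 2 with hs
  have hs0 : 0 ≤ s := Finset.sum_nonneg fun _ _ => Finset.sum_nonneg fun _ _ => sq_nonneg _
  set M' : Matrix (Fin n) (Fin r) ℝ := fun i k => (Real.sqrt s)⁻¹ * M i k with hM'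
  have hM'1 : ∑ i, ∑ k, M' i k ^ 2 ≤ 1 := by
    have h1 : ∑ i, ∑ k, M' i k ^ 2 = s⁻¹ * s := by
      rw [hs, Finset.mul_sum]
      refine Finset.sum_congr rfl fun i _ => ?_
      rw [Finset.mul_sum]
      refine Finset.sum_congr rfl fun k _ => ?_
      simp only [hM']
      rw [mul_pow, inv_pow, Real.sq_sqrt hs0]
    rw [h1]
    exact inv_mul_le_one
  have hMM' : ∀ x : Fin n → ℝ, ∑ k, (∑ i, x i * M i k) ^ 2 =
      s * ∑ k, (∑ i, x i * M' i k) ^ 2 := by
    intro x
    rcases hs0.eq_or_lt with h | h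
    · have h1 : ∀ i k, M i k = 0 := by
        intro i k
        have h2 : M i k ^ 2 ≤ s := by
          refine le_trans ?_ (Finset.single_le_sum (f := fun i => ∑ k, M i k ^ 2)
            (fun _ _ => Finset.sum_nonneg fun _ _ => sq_nonneg _) (mem_univ i))
          exact Finset.single_le_sum (f := fun k => M i k ^ 2) (fun _ _ => sq_nonneg _) (mem_univ k)
        rw [← h] at h2
        exact pow_eq_zero_iff two_ne_zero |>.mp (le_antisymm h2 (sq_nonneg _))
      rw [← h, zero_mul]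
      simp [h1]
    · rw [Finset.mul_sum]
      refine Finset.sum_congr rfl fun k _ => ?_
      have h1 : ∑ i, x i * M' i k = (Real.sqrt s)⁻¹ * ∑ i, x i * M i k := by
        rw [Finset.mul_sum]
        exact Finset.sum_congr rfl fun i _ => by simp only [hM']; ring
      rw [h1, mul_pow, inv_pow, Real.sq_sqrt hs0, ← mul_assoc, mul_inv_cancel₀ h.ne', one_mul]
  obtain ⟨b, Q, hb, hQ, h1, h2, h3⟩ := hvec τ hτ1 M' hM'1
  set c : Fin n → ℕ := fun j => ⌊T / Q j⌋₊ with hc
  have hcle : ∀ j, (c j : ℝ) ≤ T / Q j := fun j => Nat.floor_le (by have := hQ j; positivity)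
  have hclt : ∀ j, T / Q j < (c j : ℝ) + 1 := fun j => Nat.lt_floor_add_one _
  have hcQ : ∀ j, (c j : ℝ) * Q j ≤ T := fun j => (le_div_iff₀ (hQ j)).mp (hcle j)
  have hb1 : ∀ j, 1 ≤ ∑ i, (b j i : ℝ) ^ 2 := by
    intro j
    obtain ⟨i, hi⟩ := Function.ne_iff.mp (hb.ne_zero j)
    have hi' : b j i ≠ 0 := hi
    have h4 : (1 : ℝ) ≤ (b j i : ℝ) ^ 2 := by
      have : 1 ≤ (b j i) ^ 2 := by
        have := Int.one_le_abs hi'
        nlinarith [sq_abs (b j i)]
      exact_mod_cast this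
    exact h4.trans (Finset.single_le_sum (f := fun i => (b j i : ℝ) ^ 2)
      (fun _ _ => sq_nonneg _) (mem_univ i))
  set b' : Fin n → Fin n → ℤ := fun j => if c j = 0 then 0 else b j with hb'
  have hcb : ∀ j, (c j : ℝ) * ∑ i, (b' j i : ℝ) ^ 2 ≤ T * τ ^ p := by
    intro j
    by_cases h : c j = 0
    · rw [h]; simp; positivity
    · simp only [hb', if_neg h]
      calc (c j : ℝ) * ∑ i, (b j i : ℝ) ^ 2 ≤ c j * (τ ^ p * Q j) :=
            mul_le_mul_of_nonneg_left (h1 j) (Nat.cast_nonneg _)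
        _ = (c j * Q j) * τ ^ p := by ring
        _ ≤ T * τ ^ p := mul_le_mul_of_nonneg_right (hcQ j) (by positivity)
  refine ⟨b', c, fun j hj => by simp only [hb', if_pos hj], ?_, ?_, ?_, ?_, ?_⟩
  · have h4 : (fun j : {j // c j ≠ 0} => b' j) = b ∘ (fun j : {j // c j ≠ 0} => (j : Fin n)) := by
      funext j
      simp only [hb', if_neg j.2, Function.comp_apply]
    rw [h4]
    exact hb.comp _ Subtype.val_injective
  · intro j i
    by_cases h : c j = 0
    · simp only [hb', if_pos h, Pi.zero_apply, abs_zero]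
      exact Int.natCast_nonneg g
    · have h4 : (1 : ℝ) ≤ c j := by exact_mod_cast Nat.one_le_iff_ne_zero.mpr h
      have h5 : ((b' j i : ℤ) : ℝ) ^ 2 ≤ g := by
        calc ((b' j i : ℤ) : ℝ) ^ 2 ≤ ∑ i, (b' j i : ℝ) ^ 2 :=
              Finset.single_le_sum (f := fun i => (b' j i : ℝ) ^ 2)
                (fun _ _ => sq_nonneg _) (mem_univ i)
          _ ≤ c j * ∑ i, (b' j i : ℝ) ^ 2 :=
              le_mul_of_one_le_left (Finset.sum_nonneg fun _ _ => sq_nonneg _) h4
          _ ≤ g := (hcb j).trans hg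
      have h6 : (b' j i) ^ 2 ≤ (g : ℤ) := by exact_mod_cast h5
      have h7 : |b' j i| ≤ (b' j i) ^ 2 := by
        rcases eq_or_ne (b' j i) 0 with h0 | h0
        · rw [h0]; simp
        · have := Int.one_le_abs h0
          nlinarith [sq_abs (b' j i)]
      exact h7.trans h6
  · intro j
    have h4 : (c j : ℝ) ≤ g := by
      refine le_trans ?_ hg
      have h5 : 1 ≤ τ ^ p * Q j := (hb1 j).trans (h1 j)
      calc (c j : ℝ) = c j * 1 := (mul_one _).symm
        _ ≤ c j * (τ ^ p * Q j) := mul_le_mul_of_nonneg_left h5 (Nat.cast_nonneg _)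
        _ = (c j * Q j) * τ ^ p := by ring
        _ ≤ T * τ ^ p := mul_le_mul_of_nonneg_right (hcQ j) (by positivity)
    exact_mod_cast h4
  · have h4 : (∑ j, (c j : ℝ) * ∑ i, ((b' j i).natAbs : ℝ) ^ 2) ≤ n * (T * τ ^ p) := by
      calc (∑ j, (c j : ℝ) * ∑ i, ((b' j i).natAbs : ℝ) ^ 2)
          = ∑ j, (c j : ℝ) * ∑ i, (b' j i : ℝ) ^ 2 := by
            refine Finset.sum_congr rfl fun j _ => ?_
            congr 1
            refine Finset.sum_congr rfl fun i _ => ?_
            rw [Nat.cast_natAbs, Int.cast_abs, sq_abs]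
        _ ≤ ∑ _j : Fin n, T * τ ^ p := Finset.sum_le_sum fun j _ => hcb j
        _ = n * (T * τ ^ p) := by simp
    have h5 : T ^ n ≤ κ * ∏ j, ((c j : ℝ) + 1) := by
      calc T ^ n = (∏ j, Q j) * ∏ j, (T / Q j) := by
            rw [← Finset.prod_mul_distrib]
            rw [Finset.prod_congr rfl fun j _ => mul_div_cancel₀ T (hQ j).ne']
            simp
        _ ≤ κ * ∏ j, ((c j : ℝ) + 1) := by
            refine mul_le_mul h3 ?_ ?_ (by linarith)
            · exact Finset.prod_le_prod (fun j _ => by have := hQ j; positivity)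
                fun j _ => (hclt j).le
            · exact Finset.prod_nonneg fun j _ => by have := hQ j; positivity
    have h6 : (A : ℝ) * ((∑ j, (c j : ℝ) * ∑ i, ((b' j i).natAbs : ℝ) ^ 2) + 1) ^ m <
        ∏ j, ((c j : ℝ) + 1) := by
      have h7 : (∑ j, (c j : ℝ) * ∑ i, ((b' j i).natAbs : ℝ) ^ 2) + 1 ≤
          (n + 1) * (T * τ ^ p) := by
        have : 1 ≤ T * τ ^ p := one_le_mul_of_one_le_of_one_le hT1 hp1
        linarith
      have h8 : 0 ≤ (∑ j, (c j : ℝ) * ∑ i, ((b' j i).natAbs : ℝ) ^ 2) + 1 := by positivity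
      have h9 : (A : ℝ) * ((∑ j, (c j : ℝ) * ∑ i, ((b' j i).natAbs : ℝ) ^ 2) + 1) ^ m ≤
          A * ((n + 1) ^ m * τ ^ (m * (α + p))) := by
        refine mul_le_mul_of_nonneg_left ?_ (Nat.cast_nonneg _)
        calc _ ≤ ((n + 1) * (T * τ ^ p)) ^ m := pow_le_pow_left₀ h8 h7 m
          _ = _ := by
              rw [mul_pow, hT, ← pow_add, ← pow_mul, mul_comm (α + p) m]
      have h10 : κ * (A * ((n + 1) ^ m * τ ^ (m * (α + p)))) < T ^ n := by
        calc κ * (A * ((n + 1) ^ m * τ ^ (m * (α + p))))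
            = (A * κ * (n + 1) ^ m) * τ ^ (m * (α + p)) := by ring
          _ < τ * τ ^ (m * (α + p)) := by
              refine mul_lt_mul_of_pos_right ?_ (by positivity)
              linarith
          _ = τ ^ (m * (α + p) + 1) := by rw [pow_succ]; ring
          _ ≤ τ ^ (n * α) := pow_le_pow_right₀ hτ1 hexp
          _ = T ^ n := by rw [hT, ← pow_mul, mul_comm]
      have hκ0 : 0 < κ := by linarith
      refine lt_of_le_of_lt h9 ?_
      have h11 := lt_of_lt_of_le h10 h5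
      exact lt_of_mul_lt_mul_left h11 hκ0.le
    exact_mod_cast h6
  · have h4 : ∀ j, (c j : ℝ) * ∑ k, (∑ i, (b' j i : ℝ) * M i k) ^ 2 ≤ s * (η / n) := by
      intro j
      have hn0 : (0 : ℝ) < n := by
        have : 0 < n := by omega
        exact_mod_cast this
      by_cases h : c j = 0
      · rw [h]; simp; positivity
      · simp only [hb', if_neg h]
        rw [hMM' fun i => (b j i : ℝ)]
        have h5 : (c j : ℝ) * ∑ k, (∑ i, (b j i : ℝ) * M' i k) ^ 2 ≤ τ⁻¹ := by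
          have h6 : τ ^ p' = τ ^ α * τ := by
            rw [← pow_succ, hα, Nat.sub_add_cancel hp'1]
          have h7 : (c j : ℝ) * (∑ k, (∑ i, (b j i : ℝ) * M' i k) ^ 2) * τ ^ p' ≤ T := by
            calc (c j : ℝ) * (∑ k, (∑ i, (b j i : ℝ) * M' i k) ^ 2) * τ ^ p'
                = c j * ((∑ k, (∑ i, (b j i : ℝ) * M' i k) ^ 2) * τ ^ p') := by ring
              _ ≤ c j * Q j := mul_le_mul_of_nonneg_left (h2 j) (Nat.cast_nonneg _)
              _ ≤ T := hcQ j
          rw [h6] at h7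
          have h8 : ((c j : ℝ) * (∑ k, (∑ i, (b j i : ℝ) * M' i k) ^ 2) * τ) * T ≤ 1 * T := by
            calc _ = (c j : ℝ) * (∑ k, (∑ i, (b j i : ℝ) * M' i k) ^ 2) * (τ ^ α * τ) := by
                  rw [hT]; ring
              _ ≤ 1 * T := by rw [one_mul]; exact h7
          have h9 := le_of_mul_le_mul_right h8 hT0
          rw [← one_div, le_div_iff₀ hτ0]
          exact h9
        calc (c j : ℝ) * (s * ∑ k, (∑ i, (b j i : ℝ) * M' i k) ^ 2)
            = s * (c j * ∑ k, (∑ i, (b j i : ℝ) * M' i k) ^ 2) := by ring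
          _ ≤ s * τ⁻¹ := mul_le_mul_of_nonneg_left h5 hs0
          _ ≤ s * (η / n) := by
              refine mul_le_mul_of_nonneg_left ?_ hs0
              rw [← inv_div]
              exact inv_anti₀ (by positivity) hτ3
    calc ∑ j, (c j : ℝ) * ∑ k, (∑ i, (b' j i : ℝ) * M i k) ^ 2
        ≤ ∑ _j : Fin n, s * (η / n) := Finset.sum_le_sum fun j _ => h4 j
      _ = η * s := by
          have hn0 : (n : ℝ) ≠ 0 := by
            have : n ≠ 0 := by omega
            exact_mod_cast this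
          simp only [sum_const, card_univ, Fintype.card_fin, nsmul_eq_mul]
          field_simp

end Pool.Agent.GE
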