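import Mathlib
import Pool.Agent.GE.Canon

/-! # Nearly dependent tuples (module Near) -/

set_option autoImplicit false

open MvPolynomial WeierstrassCurve WeierstrassCurve.Affine Height NumberField
open Pool.Agent.H7.Vojta (naive naive_nonneg Para exists_parallelogram exists_canonical)

namespace Pool.Agent.GE

universe u

/-- `P` is within relative distance `δ` of a tuple of rank at most `r`. -/
def NearRank {L : Type u} [Field L] [NumberField L] [DecidableEq L] {W : Affine L} {n : ℕ}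
    (P : Fin n → W.Point) (r : ℕ) (δ : ℝ) : Prop :=
  ∃ (N : ℕ) (P' : Fin n → W.Point), 0 < N ∧ RankLE P' r ∧
    ∀ i, naive (N • P i - P' i) ≤ δ * N ^ 2 * ∑ j, naive (P j)

lemma Para.add_le_two {G : Type u} [AddCommGroup G] {q : G → ℝ} (hq : Para q)
    (h0 : ∀ x, 0 ≤ q x) (x y : G) : q (x + y) ≤ 2 * q x + 2 * q y := by
  have := hq x y
  linarith [h0 (x - y)]

theorem exists_canon_near {K : Type u} [Field K] [NumberField K] (W : Affine K) [W.IsElliptic]
    [W.IsShortNF] : ∃ C : ℝ, 0 ≤ C ∧ ∀ (L : Type u) [Field L] [NumberField L] [DecidableEq L]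
      [Algebra K L], ∃ q : (W⁄L).Point → ℝ, Para q ∧ (∀ x, 0 ≤ q x) ∧
        (∀ x, |q x - naive x| ≤ C * totalWeight L) ∧
        ∀ x, logHeight (coords x) ≤ 3 / 2 * q x + C * totalWeight L := by
  obtain ⟨C₀, hC₀0, hC₀⟩ := exists_parallelogram.{u, u} W
  obtain ⟨C₁, hC₁0, hC₁⟩ := exists_logHeight_coords_le.{u} W
  refine ⟨3 / 2 * C₀ + C₁, by positivity, ?_⟩
  intro L _ _ _ _
  have htw : (0 : ℝ) ≤ totalWeight L := Nat.cast_nonneg _
  obtain ⟨q, hq, hq0, hqn⟩ := exists_canonical (G := (W⁄L).Point) (h := naive)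
    (c := C₀ * totalWeight L) (fun x y => hC₀ L x y) (fun x => naive_nonneg x)
  refine ⟨q, hq, hq0, fun x => ?_, fun x => ?_⟩
  · refine (hqn x).trans ?_
    nlinarith [mul_nonneg hC₀0 htw, mul_nonneg hC₁0 htw]
  · have h1 := hC₁ L x
    have h2 := hqn x
    rw [abs_le] at h2
    nlinarith [mul_nonneg hC₀0 htw, mul_nonneg hC₁0 htw]

theorem exists_near_gram {K : Type u} [Field K] [NumberField K] (W : Affine K) [W.IsElliptic]
    [W.IsShortNF] : ∃ C : ℝ, 0 ≤ C ∧ ∀ (L : Type u) [Field L] [NumberField L] [DecidableEq L]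
      [Algebra K L] (n r : ℕ) (P : Fin n → (W⁄L).Point) (δ : ℝ), NearRank P r δ →
      ∃ M : Matrix (Fin n) (Fin r) ℝ,
        (∑ i, ∑ k, M i k ^ 2 ≤ (2 + 2 * n * δ) * ∑ i, naive (P i) + 4 * n * C * totalWeight L) ∧
        ∀ b : Fin n → ℤ, logHeight (coords (∑ i, b i • P i)) ≤
          3 * ∑ k, (∑ i, (b i : ℝ) * M i k) ^ 2 +
          3 * (∑ i, (b i : ℝ) ^ 2) * (n * δ * ∑ i, naive (P i) + n * C * totalWeight L) +
          C * totalWeight L := by
  classical
  obtain ⟨C, hC0, hC⟩ := exists_canon_near.{u} W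
  refine ⟨C, hC0, ?_⟩
  intro L _ _ _ _ n r P δ ⟨N, P', hN, hP', hnear⟩
  obtain ⟨q, hq, hq0, hqn, hqc⟩ := hC L
  obtain ⟨M', hM'⟩ := canon_gram hq hq0 P' hP'
  have htw : (0 : ℝ) ≤ totalWeight L := Nat.cast_nonneg _
  have hCt : 0 ≤ C * totalWeight L := mul_nonneg hC0 htw
  have hNR : (0 : ℝ) < N := by exact_mod_cast hN
  have hN1 : (1 : ℝ) ≤ N := by exact_mod_cast hN
  have hN2 : (1 : ℝ) ≤ (N : ℝ) ^ 2 := one_le_pow₀ hN1
  have hN20 : (0 : ℝ) < (N : ℝ) ^ 2 := by positivity
  set S0 : ℝ := ∑ j, naive (P j) with hS0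
  set R : Fin n → (W⁄L).Point := fun i => N • P i - P' i with hR
  have hqR : ∀ i, q (R i) ≤ N ^ 2 * (δ * S0 + C * totalWeight L) := by
    intro i
    have h1 := (abs_le.mp (hqn (R i))).2
    have h2 := hnear i
    have h3 : C * totalWeight L ≤ N ^ 2 * (C * totalWeight L) := le_mul_of_one_le_left hCt hN2
    have h4 : naive (R i) ≤ δ * N ^ 2 * S0 := h2
    nlinarith
  have hqN : ∀ x, q (N • x) = N ^ 2 * q x := by
    intro x
    have := hq.zsmul (N : ℤ) x
    rw [natCast_zsmul] at this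
    rw [this]
    push_cast
    ring
  have hqP : ∀ i, q (P i) ≤ naive (P i) + C * totalWeight L := by
    intro i
    have h1 := (abs_le.mp (hqn (P i))).2
    linarith
  refine ⟨fun i k => M' i k / N, ?_, ?_⟩
  · have h1 : ∀ i, ∑ k, (M' i k / N) ^ 2 = q (P' i) / N ^ 2 := by
      intro i
      have h2 := hM' (Pi.single i 1)
      have e1 : ∑ j, (Pi.single i 1 : Fin n → ℤ) j • P' j = P' i := by
        rw [Finset.sum_eq_single i]
        · simp
        · intro j _ hj
          simp [Pi.single_eq_of_ne hj]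
        · intro h; exact absurd (Finset.mem_univ i) h
      have e2 : ∀ k, ∑ j, (((Pi.single i 1 : Fin n → ℤ) j : ℤ) : ℝ) * M' j k = M' i k := by
        intro k
        rw [Finset.sum_eq_single i]
        · simp
        · intro j _ hj
          simp [Pi.single_eq_of_ne hj]
        · intro h; exact absurd (Finset.mem_univ i) h
      rw [e1] at h2
      simp only [e2] at h2
      rw [h2, Finset.sum_div]
      exact Finset.sum_congr rfl fun k _ => by rw [div_pow]
    have h3 : ∀ i, q (P' i) / N ^ 2 ≤ 2 * (naive (P i) + C * totalWeight L) +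
        2 * (δ * S0 + C * totalWeight L) := by
      intro i
      rw [div_le_iff₀ hN20]
      have e : P' i = N • P i + -(R i) := by simp [hR]
      have h4 : q (P' i) ≤ 2 * q (N • P i) + 2 * q (-(R i)) := by
        conv_lhs => rw [e]
        exact Para.add_le_two hq hq0 _ _
      rw [hqN, hq.neg] at h4
      have h5 := hqP i
      have h6 := hqR i
      have h7 := mul_le_mul_of_nonneg_left h5 hN20.le
      linarith
    calc ∑ i, ∑ k, (M' i k / N) ^ 2 = ∑ i, q (P' i) / N ^ 2 :=
          Finset.sum_congr rfl fun i _ => h1 i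
      _ ≤ ∑ i : Fin n, (2 * (naive (P i) + C * totalWeight L) +
            2 * (δ * S0 + C * totalWeight L)) := Finset.sum_le_sum fun i _ => h3 i
      _ = _ := by
          simp only [Finset.sum_add_distrib, ← Finset.mul_sum, Finset.sum_const,
            Finset.card_univ, Fintype.card_fin, nsmul_eq_mul, ← hS0]
          ring
  · intro b
    have h1 := hqc (∑ i, b i • P i)
    have h2 : N ^ 2 * q (∑ i, b i • P i) ≤ 2 * q (∑ i, b i • P' i) + 2 * q (∑ i, b i • R i) := by
      rw [← hqN]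
      have e : N • ∑ i, b i • P i = ∑ i, b i • P' i + ∑ i, b i • R i := by
        rw [Finset.smul_sum, ← Finset.sum_add_distrib]
        refine Finset.sum_congr rfl fun i _ => ?_
        rw [← smul_add, smul_comm]
        congr 1
        simp [hR]
      rw [e]
      exact Para.add_le_two hq hq0 _ _
    have h3 : q (∑ i, b i • R i) ≤ (∑ i, (b i : ℝ) ^ 2) * ∑ i, q (R i) := by
      have h4 := hq.sqrt_sum_le hq0 Finset.univ b R
      have h6 : q (∑ i, b i • R i) = √(q (∑ i, b i • R i)) ^ 2 := (Real.sq_sqrt (hq0 _)).symm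
      rw [h6]
      calc √(q (∑ i, b i • R i)) ^ 2 ≤ (∑ i, |(b i : ℝ)| * √(q (R i))) ^ 2 :=
            pow_le_pow_left₀ (Real.sqrt_nonneg _) h4 2
        _ ≤ (∑ i, |(b i : ℝ)| ^ 2) * ∑ i, √(q (R i)) ^ 2 := Finset.sum_mul_sq_le_sq_mul_sq _ _ _
        _ = _ := by
            congr 1
            · exact Finset.sum_congr rfl fun i _ => sq_abs _
            · exact Finset.sum_congr rfl fun i _ => Real.sq_sqrt (hq0 _)
    have h7 : ∑ i, q (R i) ≤ N ^ 2 * (n * δ * S0 + n * C * totalWeight L) := by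
      calc ∑ i, q (R i) ≤ ∑ _i : Fin n, N ^ 2 * (δ * S0 + C * totalWeight L) :=
            Finset.sum_le_sum fun i _ => hqR i
        _ = _ := by
            rw [Finset.sum_const, Finset.card_univ, Fintype.card_fin, nsmul_eq_mul]
            ring
    have hb0 : 0 ≤ ∑ i, (b i : ℝ) ^ 2 := Finset.sum_nonneg fun i _ => sq_nonneg _
    have h8 : q (∑ i, b i • P i) ≤ 2 * ∑ k, (∑ i, (b i : ℝ) * (M' i k / N)) ^ 2 +
        2 * (∑ i, (b i : ℝ) ^ 2) * (n * δ * S0 + n * C * totalWeight L) := by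
      have e : ∑ k, (∑ i, (b i : ℝ) * (M' i k / N)) ^ 2 =
          (∑ k, (∑ i, (b i : ℝ) * M' i k) ^ 2) / N ^ 2 := by
        rw [Finset.sum_div]
        refine Finset.sum_congr rfl fun k _ => ?_
        have : ∑ i, (b i : ℝ) * (M' i k / N) = (∑ i, (b i : ℝ) * M' i k) / N := by
          rw [Finset.sum_div]
          exact Finset.sum_congr rfl fun i _ => by ring
        rw [this, div_pow]
      rw [e, ← hM' b]
      have h9 := mul_le_mul_of_nonneg_left h7 hb0
      have h10 : N ^ 2 * q (∑ i, b i • P i) ≤ N ^ 2 * (2 * (q (∑ i, b i • P' i) / N ^ 2) +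
          2 * (∑ i, (b i : ℝ) ^ 2) * (n * δ * S0 + n * C * totalWeight L)) := by
        have e2 : (N : ℝ) ^ 2 * (2 * (q (∑ i, b i • P' i) / N ^ 2)) =
            2 * q (∑ i, b i • P' i) := by
          field_simp
        rw [mul_add, e2]
        linarith
      exact le_of_mul_le_mul_left h10 hN20
    linarith

end Pool.Agent.GE
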