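import Mathlib
import Pool.Agent.GE.Defs

/-! # The auxiliary functions do not vanish identically (module NonVan) -/

set_option autoImplicit false

open MvPolynomial WeierstrassCurve WeierstrassCurve.Affine Height NumberField
open Pool.Agent.H7.Vojta (naive naive_nonneg exists_parallelogram exists_canonical Para)

namespace Pool.Agent.GE

universe u

lemma le_logHeight₁_two (L : Type u) [Field L] [NumberField L] :
    totalWeight L * Real.log 2 ≤ logHeight₁ (2 : L) := by
  rw [NumberField.logHeight₁_eq, NumberField.totalWeight_eq_sum_mult]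
  have h1 : ∑ v : InfinitePlace L, (v.mult : ℝ) * Real.posLog (v (2 : L)) =
      ((∑ v : InfinitePlace L, v.mult : ℕ) : ℝ) * Real.log 2 := by
    push_cast
    rw [Finset.sum_mul]
    refine Finset.sum_congr rfl fun v _ => ?_
    have h2 : v (2 : L) = 2 := by
      have := Pool.Agent.H7.Vojta.infinitePlace_natCast v 2
      simpa using this
    rw [h2, Real.posLog_eq_log (by norm_num)]
  rw [h1]
  have h2 : 0 ≤ ∑ᶠ v : FinitePlace L, Real.posLog (v (2 : L)) :=
    finsum_nonneg fun v => Real.posLog_nonneg
  linarith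

lemma exists_point_height {K : Type u} [Field K] [NumberField K] (W : Affine K) [W.IsElliptic]
    [W.IsShortNF] (k : ℕ) :
    ∃ (L : IntermediateField K (AlgebraicClosure K)) (_ : NumberField L) (P : (W⁄L).Point),
      k * (totalWeight L * Real.log 2) ≤ naive P := by
  obtain ⟨y, hy⟩ := IsAlgClosed.exists_pow_nat_eq
    (algebraMap K (AlgebraicClosure K) ((2 ^ k) ^ 3 + W.a₄ * 2 ^ k + W.a₆)) (n := 2) (by norm_num)
  set L : IntermediateField K (AlgebraicClosure K) := IntermediateField.adjoin K {y} with hL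
  have hfin : FiniteDimensional K L :=
    IntermediateField.adjoin.finiteDimensional (Algebra.IsIntegral.isIntegral y)
  have : Algebra.IsAlgebraic ℚ K := inferInstance
  have hNF : NumberField L :=
    { to_charZero := inferInstance
      to_finiteDimensional := FiniteDimensional.trans ℚ K L }
  set y' : L := ⟨y, IntermediateField.mem_adjoin_simple_self K y⟩ with hy'
  have hy2 : y' ^ 2 = algebraMap K L ((2 ^ k) ^ 3 + W.a₄ * 2 ^ k + W.a₆) := by
    apply Subtype.ext
    exact hy
  have heq : (W⁄L).Equation (2 ^ k) y' := by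
    rw [equation_iff, a₁_of_isShortNF, a₂_of_isShortNF, a₃_of_isShortNF]
    have e4 : (W⁄L).a₄ = algebraMap K L W.a₄ := rfl
    have e6 : (W⁄L).a₆ = algebraMap K L W.a₆ := rfl
    rw [e4, e6, hy2]
    simp only [map_add, map_mul, map_pow, map_ofNat]
    ring
  have hns : (W⁄L).Nonsingular (2 ^ k) y' := equation_iff_nonsingular.mp heq
  refine ⟨L, hNF, Point.some _ _ hns, ?_⟩
  have h1 : naive (Point.some _ _ hns) = logHeight₁ ((2 : L) ^ k) := by
    rw [logHeight₁_eq_logHeight]
    rfl
  rw [h1, logHeight₁_pow]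
  exact mul_le_mul_of_nonneg_left (le_logHeight₁_two L) (Nat.cast_nonneg _)

lemma exists_zsmul_ne_zero {K : Type u} [Field K] [NumberField K] (W : Affine K) [W.IsElliptic]
    [W.IsShortNF] [DecidableEq (AlgebraicClosure K)] (N : ℤ) (hN : N ≠ 0) :
    ∃ P : (W⁄(AlgebraicClosure K)).Point, N • P ≠ 0 := by
  classical
  by_contra hcon
  push Not at hcon
  obtain ⟨C, hC0, hC⟩ := exists_parallelogram.{u, u} W
  obtain ⟨k, hk⟩ := exists_nat_gt (C / Real.log 2)
  have hlog : 0 < Real.log 2 := Real.log_pos (by norm_num)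
  rw [div_lt_iff₀ hlog] at hk
  obtain ⟨L, hNF, P, hP⟩ := exists_point_height W k
  have hL0 : (0 : ℝ) < totalWeight L := by exact_mod_cast NumberField.totalWeight_pos L
  obtain ⟨q, hq, hq0, hqh⟩ := exists_canonical (fun P Q => hC L P Q) (fun P => naive_nonneg P)
  have hinj := Point.map_injective (W' := W) (L.val)
  have h0 : N • P = 0 := by
    apply hinj
    rw [map_zsmul, map_zero]
    exact hcon _
  have h1 := hq.zsmul N P
  rw [h0, hq.zero] at h1
  have hN2 : ((N : ℝ)) ^ 2 ≠ 0 := by
    have : (N : ℝ) ≠ 0 := by exact_mod_cast hN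
    positivity
  have h2 : q P = 0 := by
    rcases mul_eq_zero.mp h1.symm with h | h
    · exact absurd h hN2
    · exact h
  have h3 := hqh P
  rw [h2, zero_sub, abs_neg, abs_of_nonneg (naive_nonneg P)] at h3
  nlinarith

/-- The set of the `x`-coordinates of the points `N • P` is infinite. -/
lemma infinite_xset {K : Type u} [Field K] [NumberField K] (W : Affine K) [W.IsElliptic]
    [W.IsShortNF] [DecidableEq (AlgebraicClosure K)] (N : ℤ) (hN : N ≠ 0) :
    {t : AlgebraicClosure K | ∃ (Q : (W⁄(AlgebraicClosure K)).Point) (y : AlgebraicClosure K)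
      (h : (W⁄(AlgebraicClosure K)).Nonsingular t y), N • Q = Point.some t y h}.Infinite := by
  classical
  intro hfin
  set S := {t : AlgebraicClosure K | ∃ (Q : (W⁄(AlgebraicClosure K)).Point)
    (y : AlgebraicClosure K) (h : (W⁄(AlgebraicClosure K)).Nonsingular t y),
      N • Q = Point.some t y h} with hS
  set φ : (W⁄(AlgebraicClosure K)).Point →+ (W⁄(AlgebraicClosure K)).Point :=
    zsmulAddGroupHom N with hφ
  have hrange : (Set.range φ).Finite := by
    have hinj : Function.Injective (fun P : (W⁄(AlgebraicClosure K)).Point =>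
        (match P with
          | 0 => none
          | .some x y _ => some (x, y) : Option (AlgebraicClosure K × AlgebraicClosure K))) := by
      intro P Q h
      rcases P with _ | ⟨x, y, hxy⟩ <;> rcases Q with _ | ⟨x', y', hxy'⟩
      · rfl
      · simp at h
      · simp at h
      · simp only [Option.some.injEq, Prod.mk.injEq] at h
        obtain ⟨rfl, rfl⟩ := h
        rfl
    refine Set.Finite.of_finite_image ?_ hinj.injOn
    have hT : ({none} ∪ (fun p : AlgebraicClosure K × AlgebraicClosure K => some p) ''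
        (⋃ t ∈ S, {p | p.1 = t ∧ p.2 ^ 2 = algebraMap K _ 1 * (t ^ 3 + (W⁄(AlgebraicClosure K)).a₄ * t +
          (W⁄(AlgebraicClosure K)).a₆)}) : Set (Option _)).Finite := by
      refine (Set.finite_singleton _).union (Set.Finite.image _ (hfin.biUnion fun t _ => ?_))
      by_cases hne : ∃ y0 : AlgebraicClosure K, y0 ^ 2 = algebraMap K _ 1 *
        (t ^ 3 + (W⁄(AlgebraicClosure K)).a₄ * t + (W⁄(AlgebraicClosure K)).a₆)
      · obtain ⟨y0, hy0⟩ := hne
        refine Set.Finite.subset (Set.toFinite {(t, y0), (t, -y0)}) ?_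
        rintro ⟨a, b⟩ ⟨h1, h2⟩
        simp only at h1 h2
        rw [← hy0, sq_eq_sq_iff_eq_or_eq_neg] at h2
        rcases h2 with h2 | h2
        · left; rw [h1, h2]
        · right; rw [h1, h2]; rfl
      · push Not at hne
        refine Set.Finite.subset Set.finite_empty ?_
        rintro ⟨a, b⟩ ⟨h1, h2⟩
        exact hne b h2
    refine hT.subset ?_
    rintro _ ⟨P, ⟨Q, hQ⟩, rfl⟩
    rcases P with _ | ⟨x, y, hxy⟩
    · left; rfl
    · right
      refine ⟨(x, y), ?_, rfl⟩
      refine Set.mem_biUnion (x := x) ⟨Q, y, hxy, hQ⟩ ⟨rfl, ?_⟩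
      have h1 := hxy.1
      rw [equation_iff, a₁_of_isShortNF, a₂_of_isShortNF, a₃_of_isShortNF] at h1
      rw [map_one, one_mul]
      linear_combination h1
  have hfinR : Finite φ.range := hrange
  have hM : ∀ P : (W⁄(AlgebraicClosure K)).Point, ((Nat.card φ.range : ℤ) * N) • P = 0 := by
    intro P
    have h1 : (Nat.card φ.range) • (⟨φ P, P, rfl⟩ : φ.range) = 0 := card_nsmul_eq_zero'
    have h2 : (Nat.card φ.range) • (φ P) = 0 := congrArg Subtype.val h1
    rw [mul_zsmul, natCast_zsmul]
    exact h2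
  obtain ⟨P, hP⟩ := exists_zsmul_ne_zero W (Nat.card φ.range * N)
    (mul_ne_zero (by exact_mod_cast Nat.card_pos.ne') hN)
  exact hP (hM P)

/-- Integral right inverse up to a multiple. -/
lemma exists_right_inverse {J : Type} [Fintype J] [DecidableEq J] {n : ℕ} (b : J → Fin n → ℤ)
    (hb : LinearIndependent ℤ b) :
    ∃ (N : ℤ) (V : Fin n → J → ℤ), N ≠ 0 ∧
      ∀ j j', ∑ i, b j i * V i j' = if j = j' then N else 0 := by
  set B : Matrix J (Fin n) ℤ := b with hB
  refine ⟨(B * B.transpose).det, B.transpose * (B * B.transpose).adjugate, ?_, ?_⟩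
  · intro hdet
    obtain ⟨v, hv0, hv⟩ := Matrix.exists_vecMul_eq_zero_iff.mpr hdet
    have h1 : Matrix.vecMul v B ⬝ᵥ Matrix.vecMul v B = 0 := by
      have h2 : Matrix.vecMul v (B * B.transpose) ⬝ᵥ v = 0 := by rw [hv, zero_dotProduct]
      rw [← Matrix.vecMul_vecMul, Matrix.vecMul_transpose] at h2
      rw [← h2, dotProduct_comm (Matrix.mulVec B (Matrix.vecMul v B)) v,
        Matrix.dotProduct_mulVec]
    have h3 : Matrix.vecMul v B = 0 := dotProduct_self_eq_zero.mp h1
    apply hv0
    have h4 := Fintype.linearIndependent_iff.mp hb v (by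
      funext i
      have h5 := congrFun h3 i
      simp only [Matrix.vecMul, dotProduct, Pi.zero_apply] at h5
      rw [Finset.sum_apply]
      simpa [hB, smul_eq_mul] using h5)
    funext j
    exact h4 j
  · intro j j'
    have h1 : (B * (B.transpose * (B * B.transpose).adjugate)) j j' =
        ((B * B.transpose).det • (1 : Matrix J J ℤ)) j j' := by
      rw [← Matrix.mul_assoc, Matrix.mul_adjugate]
    rw [Matrix.mul_apply, Matrix.smul_apply, Matrix.one_apply] at h1
    rw [h1]
    simp

lemma comb_eq {G : Type u} [AddCommGroup G] {J : Type} [Fintype J] [DecidableEq J] {n : ℕ}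
    (b : Fin n → ℤ) (V : Fin n → J → ℤ) (Q : J → G) (N : ℤ) (j0 : J)
    (h : ∀ j', ∑ i, b i * V i j' = if j0 = j' then N else 0) :
    ∑ i, b i • (∑ j', V i j' • Q j') = N • Q j0 := by
  calc ∑ i, b i • (∑ j', V i j' • Q j')
      = ∑ j', (∑ i, b i * V i j') • Q j' := by
        simp only [Finset.smul_sum, Finset.sum_smul, mul_smul]
        rw [Finset.sum_comm]
    _ = ∑ j', (if j0 = j' then N else 0) • Q j' := by
        refine Finset.sum_congr rfl fun j' _ => ?_
        rw [h j']
    _ = N • Q j0 := by
        rw [Finset.sum_eq_single j0]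
        · rw [if_pos rfl]
        · intro j' _ hj'
          rw [if_neg hj'.symm, zero_smul]
        · intro h
          exact absurd (Finset.mem_univ _) h

theorem exists_nonvanishing {K : Type u} [Field K] [NumberField K] (W : Affine K) [W.IsElliptic]
    [W.IsShortNF] [DecidableEq (AlgebraicClosure K)] {n s : ℕ} (b : Fin s → Fin n → ℤ)
    (c : Fin s → ℕ) (h0 : ∀ j, c j = 0 → b j = 0)
    (hb : LinearIndependent ℤ (fun j : {j // c j ≠ 0} => b j))
    (f : MvPolynomial (Fin s) K) (hf : f ≠ 0) (hd : ∀ j, degreeOf j f ≤ c j) :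
    ∃ P : Fin n → (W⁄(AlgebraicClosure K)).Point,
      homForm f c (fun j => coords (∑ i, b j i • P i)) ≠ 0 := by
  classical
  obtain ⟨N, V, hN, hV⟩ := exists_right_inverse (fun j : {j // c j ≠ 0} => b j) hb
  -- a nonvanishing value
  have hf' : MvPolynomial.map (algebraMap K (AlgebraicClosure K)) f ≠ 0 := by
    intro h
    apply hf
    apply MvPolynomial.map_injective _ (algebraMap K (AlgebraicClosure K)).injective
    rw [h, map_zero]
  have hval : ∃ t : Fin s → AlgebraicClosure K, (∀ j, t j ∈ {t : AlgebraicClosure K |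
      ∃ (Q : (W⁄(AlgebraicClosure K)).Point) (y : AlgebraicClosure K)
      (h : (W⁄(AlgebraicClosure K)).Nonsingular t y), N • Q = Point.some t y h}) ∧
      aeval t f ≠ 0 := by
    by_contra hcon
    push Not at hcon
    apply hf'
    refine MvPolynomial.funext_set (fun _ => _) (fun _ => infinite_xset W N hN) ?_
    intro t ht
    rw [map_zero, MvPolynomial.eval_map, ← MvPolynomial.aeval_def]
    exact hcon t fun j => ht j (Set.mem_univ j)
  obtain ⟨t, ht, hft⟩ := hval
  choose Q y hQns hQ using ht
  refine ⟨fun i => ∑ j : {j // c j ≠ 0}, V i j • Q j, ?_⟩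
  have hcomb : ∀ j, c j ≠ 0 → ∑ i, b j i • (∑ j' : {j // c j ≠ 0}, V i j' • Q j') = N • Q j := by
    intro j hj
    exact comb_eq (b j) V (fun j' : {j // c j ≠ 0} => Q j') N ⟨j, hj⟩ (hV ⟨j, hj⟩)
  have hform : homForm f c (fun j => coords (∑ i, b j i •
      (∑ j' : {j // c j ≠ 0}, V i j' • Q j'))) = aeval t f := by
    rw [aeval_def, eval₂_eq]
    unfold homForm
    refine Finset.sum_congr rfl fun e he => ?_
    congr 1
    rw [Finset.prod_subset (Finset.subset_univ e.support)]
    · refine Finset.prod_congr rfl fun j _ => ?_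
      have he1 : e j ≤ c j := (monomial_le_degreeOf j he).trans (hd j)
      by_cases hj : c j = 0
      · have : e j = 0 := by omega
        rw [this, hj]
        simp
      · beta_reduce
        rw [hcomb j hj, hQ j]
        simp [coords]
    · intro j _ hj
      rw [Finsupp.notMem_support_iff.mp hj, pow_zero]
  rw [hform]
  exact hft

end Pool.Agent.GE
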