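import Mathlib
import Pool.Agent.GE.Defs

/-! # The two addition laws (module Law) -/

set_option autoImplicit false

open MvPolynomial WeierstrassCurve WeierstrassCurve.Affine

namespace Pool.Agent.GE

universe u

section identities

variable {F : Type u} [Field F] {a b x₁ x₂ y₁ y₂ l x y : F}

lemma gen1X (h₁ : y₁ ^ 2 = x₁ ^ 3 + a * x₁ + b) (h₂ : y₂ ^ 2 = x₂ ^ 3 + a * x₂ + b)
    (hl : l * (x₁ - x₂) = y₁ - y₂) :
    law1 a b ![x₁, y₁, 1] ![x₂, y₂, 1] 0 = -(x₁ - x₂) ^ 3 * (l ^ 2 - x₁ - x₂) := by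
  simp only [law1, Matrix.cons_val_zero, Matrix.cons_val_one, Matrix.cons_val]
  linear_combination (x₁ - 2 * x₂) * h₁ + (2 * x₁ - x₂) * h₂ +
    (x₁ - x₂) * (l * (x₁ - x₂) + (y₁ - y₂)) * hl

lemma gen1Y (h₁ : y₁ ^ 2 = x₁ ^ 3 + a * x₁ + b) (h₂ : y₂ ^ 2 = x₂ ^ 3 + a * x₂ + b)
    (hl : l * (x₁ - x₂) = y₁ - y₂) :
    law1 a b ![x₁, y₁, 1] ![x₂, y₂, 1] 1 =
      -(x₁ - x₂) ^ 3 * (l * (2 * x₁ + x₂ - l ^ 2) - y₁) := by
  simp only [law1, Matrix.cons_val_zero, Matrix.cons_val_one, Matrix.cons_val]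
  linear_combination (-y₁ + 2 * y₂) * h₁ + (-2 * y₁ + y₂) * h₂ +
    ((x₁ - x₂) ^ 2 * (2 * x₁ + x₂) - ((l * (x₁ - x₂)) ^ 2 + l * (x₁ - x₂) * (y₁ - y₂) +
      (y₁ - y₂) ^ 2)) * hl

lemma gen1Z (h₁ : y₁ ^ 2 = x₁ ^ 3 + a * x₁ + b) (h₂ : y₂ ^ 2 = x₂ ^ 3 + a * x₂ + b) :
    law1 a b ![x₁, y₁, 1] ![x₂, y₂, 1] 2 = -(x₁ - x₂) ^ 3 := by
  simp only [law1, Matrix.cons_val_zero, Matrix.cons_val_one, Matrix.cons_val]
  linear_combination -h₁ + h₂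

lemma gen2X (h₁ : y₁ ^ 2 = x₁ ^ 3 + a * x₁ + b) (h₂ : y₂ ^ 2 = x₂ ^ 3 + a * x₂ + b)
    (hl : l * (x₁ - x₂) = y₁ - y₂) (hx : x₁ - x₂ ≠ 0) :
    law2 a b ![x₁, y₁, 1] ![x₂, y₂, 1] 0 =
      law2 a b ![x₁, y₁, 1] ![x₂, y₂, 1] 2 * (l ^ 2 - x₁ - x₂) := by
  have h : (x₁ - x₂) ^ 2 * (law2 a b ![x₁, y₁, 1] ![x₂, y₂, 1] 0) = (x₁ - x₂) ^ 2 *
      (law2 a b ![x₁, y₁, 1] ![x₂, y₂, 1] 2 * (l ^ 2 - x₁ - x₂)) := by
    simp only [law2, Matrix.cons_val_zero, Matrix.cons_val_one, Matrix.cons_val]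
    linear_combination ((-3)*x₁^2*x₂*y₂ + (-3)*x₁*x₂^2*y₁ + 3*x₁*x₂^2*y₂ + (-1)*x₁*y₁*a
      + (-1)*x₁*y₂*a + 2*x₂^3*y₂ + (-2)*x₂*y₁*a + 3*x₂*y₂*a + (-1)*y₁^2*y₂ + 1*y₁*y₂^2
      + (-3)*y₁*b + 1*y₂^3 + 2*y₂*b) * h₁ + (3*x₁^3*y₁ + 1*x₁^3*y₂ + 3*x₁^2*x₂*y₁
      + (-3)*x₁^2*x₂*y₂ + (-3)*x₁*x₂^2*y₁ + 4*x₁*y₁*a + (-1)*x₁*y₂*a + (-1)*x₂*y₁*a
      + (-1)*x₂*y₂*a + (-1)*y₁*y₂^2 + 3*y₁*b + (-2)*y₂*b) * h₂ -
      (3 * (x₁ * x₂) * (x₁ * y₂ + x₂ * y₁) + (y₁ * y₂) * (y₁ * 1 + y₂ * 1)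
      + a * (x₁ * y₂ + x₂ * y₁) * (1 * 1)
      + a * (x₁ * 1 + x₂ * 1) * (y₁ * 1 + y₂ * 1)
      + 3 * b * (y₁ * 1 + y₂ * 1) * (1 * 1)) * (l * (x₁ - x₂) + (y₁ - y₂)) * hl
  exact mul_left_cancel₀ (pow_ne_zero 2 hx) h

lemma gen2Y (h₁ : y₁ ^ 2 = x₁ ^ 3 + a * x₁ + b) (h₂ : y₂ ^ 2 = x₂ ^ 3 + a * x₂ + b)
    (hl : l * (x₁ - x₂) = y₁ - y₂) (hx : x₁ - x₂ ≠ 0) :
    law2 a b ![x₁, y₁, 1] ![x₂, y₂, 1] 1 =
      law2 a b ![x₁, y₁, 1] ![x₂, y₂, 1] 2 * (l * (2 * x₁ + x₂ - l ^ 2) - y₁) := by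
  have h : (x₁ - x₂) ^ 3 * (law2 a b ![x₁, y₁, 1] ![x₂, y₂, 1] 1) = (x₁ - x₂) ^ 3 *
      (law2 a b ![x₁, y₁, 1] ![x₂, y₂, 1] 2 * (l * (2 * x₁ + x₂ - l ^ 2) - y₁)) := by
    simp only [law2, Matrix.cons_val_zero, Matrix.cons_val_one, Matrix.cons_val]
    linear_combination (9*x₁^2*x₂^4 + 6*x₁^2*x₂^2*a + 3*x₁^2*x₂*y₁*y₂ + (-15)*x₁^2*x₂*y₂^2
      + 1*x₁^2*a^2 + (-6)*x₁*x₂^5 + 4*x₁*x₂^3*a + 3*x₁*x₂^2*y₁^2 + (-6)*x₁*x₂^2*y₁*y₂
      + 15*x₁*x₂^2*y₂^2 + 12*x₁*x₂^2*b + 2*x₁*x₂*a^2 + 1*x₁*y₁^2*a + (-5)*x₁*y₂^2*a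
      + 4*x₁*a*b + (-4)*x₂^4*a + (-2)*x₂^3*y₁*y₂ + (-2)*x₂^3*y₂^2 + (-6)*x₂^3*b
      + 2*x₂*y₁^2*a + (-5)*x₂*y₁*y₂*a + 3*x₂*y₂^2*a + 2*x₂*a*b + 1*y₁^3*y₂
      + (-2)*y₁^2*y₂^2 + 3*y₁^2*b + (-5)*y₁*y₂*b + 2*y₂^4 + (-2)*y₂^2*b + 3*b^2) * h₁ +
      ((-9)*x₁^5*x₂ + 6*x₁^4*x₂^2 + (-1)*x₁^4*a + (-14)*x₁^3*x₂*a + 2*x₁^3*y₁*y₂
      + 2*x₁^3*y₂^2 + 6*x₁^3*b + 9*x₁^2*x₂^2*a + 6*x₁^2*x₂*y₁*y₂ + (-3)*x₁^2*x₂*y₂^2
      + (-27)*x₁^2*x₂*b + (-5)*x₁^2*a^2 + (-3)*x₁*x₂^2*y₁*y₂ + 15*x₁*x₂^2*b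
      + 3*x₁*x₂*a^2 + 5*x₁*y₁*y₂*a + (-7)*x₁*a*b + (-1)*x₂^2*a^2 + (-1)*x₂*y₂^2*a
      + 1*x₂*a*b + (-1)*y₁*y₂^3 + 5*y₁*y₂*b + (-1)*y₂^2*b + (-3)*b^2) * h₂ -
      (3 * (x₁ * x₂) * (x₁ * y₂ + x₂ * y₁) + (y₁ * y₂) * (y₁ * 1 + y₂ * 1)
      + a * (x₁ * y₂ + x₂ * y₁) * (1 * 1)
      + a * (x₁ * 1 + x₂ * 1) * (y₁ * 1 + y₂ * 1)
      + 3 * b * (y₁ * 1 + y₂ * 1) * (1 * 1)) *
      ((x₁ - x₂) ^ 2 * (2 * x₁ + x₂) - ((l * (x₁ - x₂)) ^ 2 + l * (x₁ - x₂) * (y₁ - y₂) +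
      (y₁ - y₂) ^ 2)) * hl
  exact mul_left_cancel₀ (pow_ne_zero 3 hx) h

lemma dbl2Z (h : y ^ 2 = x ^ 3 + a * x + b) :
    law2 a b ![x, y, 1] ![x, y, 1] 2 = 8 * y ^ 3 := by
  simp only [law2, Matrix.cons_val_zero, Matrix.cons_val_one, Matrix.cons_val]
  linear_combination (-6 * y) * h

lemma dbl2X (h : y ^ 2 = x ^ 3 + a * x + b) (hl : l * (2 * y) = 3 * x ^ 2 + a) :
    law2 a b ![x, y, 1] ![x, y, 1] 0 = 8 * y ^ 3 * (l ^ 2 - x - x) := by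
  simp only [law2, Matrix.cons_val_zero, Matrix.cons_val_one, Matrix.cons_val]
  linear_combination (18 * x * y) * h - 2 * y * (l * (2 * y) + (3 * x ^ 2 + a)) * hl

lemma dbl2Y (h : y ^ 2 = x ^ 3 + a * x + b) (hl : l * (2 * y) = 3 * x ^ 2 + a) :
    law2 a b ![x, y, 1] ![x, y, 1] 1 = 8 * y ^ 3 * (l * (2 * x + x - l ^ 2) - y) := by
  simp only [law2, Matrix.cons_val_zero, Matrix.cons_val_one, Matrix.cons_val]
  linear_combination (-3 * a * x + 9 * b - 27 * x ^ 3 + 9 * y ^ 2) * h -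
    (12 * x * y ^ 2 - ((l * (2 * y)) ^ 2 + l * (2 * y) * (3 * x ^ 2 + a) +
      (3 * x ^ 2 + a) ^ 2)) * hl

lemma opp1Y (h : y ^ 2 = x ^ 3 + a * x + b) :
    law1 a b ![x, y, 1] ![x, -y, 1] 1 = 8 * y ^ 3 := by
  simp only [law1, Matrix.cons_val_zero, Matrix.cons_val_one, Matrix.cons_val]
  linear_combination (-6 * y) * h

lemma opp2Y (h : x ^ 3 + a * x + b = 0) :
    law2 a b ![x, 0, 1] ![x, 0, 1] 1 = -(3 * x ^ 2 + a) ^ 3 := by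
  simp only [law2, Matrix.cons_val_zero, Matrix.cons_val_one, Matrix.cons_val]
  linear_combination (27 * x ^ 3 + 3 * a * x - 9 * b) * h

end identities

variable {F : Type u} [Field F] [DecidableEq F] (W : Affine F)

lemma coords_some {x y : F} (h : W.Nonsingular x y) :
    coords (Point.some x y h) = ![x, y, 1] := rfl

lemma coords_zero : coords (0 : W.Point) = ![0, 1, 0] := rfl

section

variable [W.IsShortNF]

omit [DecidableEq F] in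
lemma eqn {x y : F} (h : W.Nonsingular x y) : y ^ 2 = x ^ 3 + W.a₄ * x + W.a₆ := by
  have := (W.equation_iff x y).mp h.left
  rw [a₁_of_isShortNF, a₂_of_isShortNF, a₃_of_isShortNF] at this
  linear_combination this

omit [DecidableEq F] in
lemma negY_eq (x y : F) : W.negY x y = -y := by
  rw [negY, a₁_of_isShortNF, a₃_of_isShortNF]
  ring

lemma coords_addX {x₁ x₂ y₁ l : F} (h : W.Nonsingular (W.addX x₁ x₂ l) (W.addY x₁ x₂ y₁ l)) :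
    coords (Point.some _ _ h) =
      ![l ^ 2 - x₁ - x₂, l * (2 * x₁ + x₂ - l ^ 2) - y₁, 1] := by
  have e1 : W.addX x₁ x₂ l = l ^ 2 - x₁ - x₂ := by
    rw [addX, a₁_of_isShortNF, a₂_of_isShortNF]; ring
  have e2 : W.addY x₁ x₂ y₁ l = l * (2 * x₁ + x₂ - l ^ 2) - y₁ := by
    rw [addY, negY_eq, negAddY, e1]; ring
  rw [coords_some, e1, e2]

theorem law1_spec (P Q : W.Point) : ∃ l : F, ∀ k,
    law1 W.a₄ W.a₆ (coords P) (coords Q) k = l * coords (P + Q) k := by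
  match P, Q with
  | 0, Q =>
    rw [zero_add]
    refine ⟨-coords Q 2, fun k => ?_⟩
    rw [coords_zero]
    fin_cases k <;> simp [law1] <;> ring
  | .some x₁ y₁ h₁, 0 =>
    rw [add_zero]
    refine ⟨1, fun k => ?_⟩
    rw [coords_zero, coords_some]
    fin_cases k <;> simp [law1]
  | .some x₁ y₁ h₁, .some x₂ y₂ h₂ =>
    have e₁ := eqn W h₁
    have e₂ := eqn W h₂
    by_cases hx : x₁ = x₂
    · subst hx
      have hy : y₁ = y₂ ∨ y₁ = -y₂ := by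
        rw [← sq_eq_sq_iff_eq_or_eq_neg, e₁, e₂]
      by_cases hy2 : y₁ = -y₂
      · rw [Point.add_of_Y_eq rfl (by rw [negY_eq]; exact hy2), coords_zero, coords_some,
          coords_some]
        refine ⟨law1 W.a₄ W.a₆ ![x₁, y₁, 1] ![x₁, y₂, 1] 1, fun k => ?_⟩
        have hy3 : y₂ = -y₁ := by rw [hy2, neg_neg]
        subst hy3
        fin_cases k
        · simp [law1]
        · simp
        · simp [law1]
      · have hy3 : y₁ = y₂ := hy.resolve_right hy2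
        subst hy3
        refine ⟨0, fun k => ?_⟩
        rw [coords_some, zero_mul]
        fin_cases k <;> simp [law1]
    · rw [Point.add_of_X_ne hx, coords_addX, slope_of_X_ne hx, coords_some, coords_some]
      have hx' : x₁ - x₂ ≠ 0 := sub_ne_zero.mpr hx
      have hl : (y₁ - y₂) / (x₁ - x₂) * (x₁ - x₂) = y₁ - y₂ := div_mul_cancel₀ _ hx'
      refine ⟨-(x₁ - x₂) ^ 3, fun k => ?_⟩
      fin_cases k
      · exact gen1X e₁ e₂ hl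
      · exact gen1Y e₁ e₂ hl
      · have := gen1Z e₁ e₂
        simpa using this

variable [CharZero F]

theorem law2_spec (P Q : W.Point) : ∃ l : F, ∀ k,
    law2 W.a₄ W.a₆ (coords P) (coords Q) k = l * coords (P + Q) k := by
  match P, Q with
  | 0, Q =>
    rw [zero_add]
    refine ⟨coords Q 1, fun k => ?_⟩
    rw [coords_zero]
    fin_cases k <;> simp [law2] <;> ring
  | .some x₁ y₁ h₁, 0 =>
    rw [add_zero]
    refine ⟨y₁, fun k => ?_⟩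
    rw [coords_zero, coords_some]
    fin_cases k <;> simp [law2] <;> ring
  | .some x₁ y₁ h₁, .some x₂ y₂ h₂ =>
    have e₁ := eqn W h₁
    have e₂ := eqn W h₂
    by_cases hx : x₁ = x₂
    · subst hx
      have hy : y₁ = y₂ ∨ y₁ = -y₂ := by
        rw [← sq_eq_sq_iff_eq_or_eq_neg, e₁, e₂]
      by_cases hy2 : y₁ = -y₂
      · rw [Point.add_of_Y_eq rfl (by rw [negY_eq]; exact hy2), coords_zero, coords_some,
          coords_some]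
        refine ⟨law2 W.a₄ W.a₆ ![x₁, y₁, 1] ![x₁, y₂, 1] 1, fun k => ?_⟩
        have hy3 : y₂ = -y₁ := by rw [hy2, neg_neg]
        subst hy3
        fin_cases k
        · simp [law2]
        · simp
        · simp [law2]
      · have hy3 : y₁ = y₂ := hy.resolve_right hy2
        subst hy3
        have hy0 : y₁ ≠ 0 := by
          rintro rfl
          exact hy2 (by simp)
        have hne : y₁ ≠ W.negY x₁ y₁ := by rw [negY_eq]; exact hy2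
        rw [Point.add_self_of_Y_ne hne, coords_addX, slope_of_Y_ne rfl hne, coords_some]
        have hl : (3 * x₁ ^ 2 + 2 * W.a₂ * x₁ + W.a₄ - W.a₁ * y₁) / (y₁ - W.negY x₁ y₁) *
            (2 * y₁) = 3 * x₁ ^ 2 + W.a₄ := by
          rw [negY_eq, a₁_of_isShortNF, a₂_of_isShortNF]
          have : y₁ - -y₁ = 2 * y₁ := by ring
          rw [this, div_mul_cancel₀ _ (mul_ne_zero two_ne_zero hy0)]
          ring
        refine ⟨8 * y₁ ^ 3, fun k => ?_⟩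
        fin_cases k
        · exact dbl2X e₁ hl
        · exact dbl2Y e₁ hl
        · have := dbl2Z e₁
          simpa using this
    · rw [Point.add_of_X_ne hx, coords_addX, slope_of_X_ne hx, coords_some, coords_some]
      have hx' : x₁ - x₂ ≠ 0 := sub_ne_zero.mpr hx
      have hl : (y₁ - y₂) / (x₁ - x₂) * (x₁ - x₂) = y₁ - y₂ := div_mul_cancel₀ _ hx'
      refine ⟨law2 W.a₄ W.a₆ ![x₁, y₁, 1] ![x₂, y₂, 1] 2, fun k => ?_⟩
      fin_cases k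
      · exact gen2X e₁ e₂ hl hx'
      · exact gen2Y e₁ e₂ hl hx'
      · simp

theorem law_complete (P Q : W.Point) :
    (∃ k, law1 W.a₄ W.a₆ (coords P) (coords Q) k ≠ 0) ∨
      (∃ k, law2 W.a₄ W.a₆ (coords P) (coords Q) k ≠ 0) := by
  match P, Q with
  | 0, 0 =>
    right
    refine ⟨1, ?_⟩
    rw [coords_zero]
    simp [law2]
  | 0, .some x₂ y₂ h₂ =>
    left
    refine ⟨2, ?_⟩
    rw [coords_zero, coords_some]
    simp [law1]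
  | .some x₁ y₁ h₁, 0 =>
    left
    refine ⟨2, ?_⟩
    rw [coords_zero, coords_some]
    simp [law1]
  | .some x₁ y₁ h₁, .some x₂ y₂ h₂ =>
    have e₁ := eqn W h₁
    have e₂ := eqn W h₂
    rw [coords_some, coords_some]
    by_cases hx : x₁ = x₂
    · subst hx
      have hy : y₁ = y₂ ∨ y₁ = -y₂ := by
        rw [← sq_eq_sq_iff_eq_or_eq_neg, e₁, e₂]
      by_cases hy0 : y₁ = 0
      · subst hy0
        have hy2 : y₂ = 0 := by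
          rcases hy with h | h
          · exact h.symm
          · exact neg_eq_zero.mp h.symm
        subst hy2
        right
        refine ⟨1, ?_⟩
        have hx0 : x₁ ^ 3 + W.a₄ * x₁ + W.a₆ = 0 := by rw [← e₁]; ring
        rw [opp2Y hx0]
        have hns := (W.nonsingular_iff x₁ 0).mp h₁
        have : 3 * x₁ ^ 2 + W.a₄ ≠ 0 := by
          rcases hns.2 with h | h
          · rw [a₁_of_isShortNF, a₂_of_isShortNF] at h
            intro h0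
            apply h
            linear_combination -h0
          · rw [a₁_of_isShortNF, a₃_of_isShortNF] at h
            exact absurd (by ring) h
        exact neg_ne_zero.mpr (pow_ne_zero _ this)
      · have h8 : (8 : F) * y₁ ^ 3 ≠ 0 := mul_ne_zero (by norm_num) (pow_ne_zero _ hy0)
        rcases hy with h | h
        · subst h
          right
          exact ⟨2, by rw [dbl2Z e₁]; exact h8⟩
        · left
          refine ⟨1, ?_⟩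
          have hy3 : y₂ = -y₁ := by rw [h, neg_neg]
          subst hy3
          rw [opp1Y e₁]
          exact h8
    · left
      refine ⟨2, ?_⟩
      rw [gen1Z e₁ e₂]
      exact neg_ne_zero.mpr (pow_ne_zero _ (sub_ne_zero.mpr hx))

end

end Pool.Agent.GE
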