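import Mathlib
import Pool.Agent.GE.Law

/-! # Representations of integer combinations (module Reps) -/

set_option autoImplicit false

open MvPolynomial WeierstrassCurve WeierstrassCurve.Affine

namespace Pool.Agent.GE

universe u

section laws

variable {R R' : Type u} [CommRing R] [CommRing R']

lemma law1_map (φ : R →+* R') (a b : R) (p q : Fin 3 → R) (k : Fin 3) :
    φ (law1 a b p q k) = law1 (φ a) (φ b) (fun i => φ (p i)) (fun i => φ (q i)) k := by
  have h3 : φ 3 = 3 := map_ofNat φ 3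
  fin_cases k <;> simp [law1, h3]

lemma law2_map (φ : R →+* R') (a b : R) (p q : Fin 3 → R) (k : Fin 3) :
    φ (law2 a b p q k) = law2 (φ a) (φ b) (fun i => φ (p i)) (fun i => φ (q i)) k := by
  have h2 : φ 2 = 2 := map_ofNat φ 2
  have h3 : φ 3 = 3 := map_ofNat φ 3
  have h9 : φ 9 = 9 := map_ofNat φ 9
  fin_cases k <;> simp [law2, h2, h3, h9]

lemma law1_smul (a b l m : R) (p q : Fin 3 → R) (k : Fin 3) :
    law1 a b (fun i => l * p i) (fun i => m * q i) k = l ^ 2 * m ^ 2 * law1 a b p q k := by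
  fin_cases k <;> simp only [law1, Fin.zero_eta, Fin.mk_one, Fin.reduceFinMk,
    Matrix.cons_val_zero, Matrix.cons_val_one, Matrix.cons_val] <;> ring

lemma law2_smul (a b l m : R) (p q : Fin 3 → R) (k : Fin 3) :
    law2 a b (fun i => l * p i) (fun i => m * q i) k = l ^ 2 * m ^ 2 * law2 a b p q k := by
  fin_cases k <;> simp only [law2, Fin.zero_eta, Fin.mk_one, Fin.reduceFinMk,
    Matrix.cons_val_zero, Matrix.cons_val_one, Matrix.cons_val] <;> ring

end laws

section hom

variable {K : Type u} [Field K] {n : ℕ}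

lemma multiHom_quad {e : Fin n → ℕ} {u v : MvPolynomial (Fin n × Fin 3) K} (c : K)
    (hu : MultiHom u e) (hv : MultiHom v e) : MultiHom (C c * (u * v)) (e + e) := by
  have h := (isWeightedHomogeneous_C (wt n) c).mul (hu.mul hv)
  rwa [zero_add] at h

lemma MultiHom.add {e : Fin n → ℕ} {u v : MvPolynomial (Fin n × Fin 3) K}
    (hu : MultiHom u e) (hv : MultiHom v e) : MultiHom (u + v) e :=
  IsWeightedHomogeneous.add hu hv

lemma MultiHom.sub {e : Fin n → ℕ} {u v : MvPolynomial (Fin n × Fin 3) K}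
    (hu : MultiHom u e) (hv : MultiHom v e) : MultiHom (u - v) e :=
  Submodule.sub_mem (weightedHomogeneousSubmodule K (wt n) e) hu hv

variable {d d' : Fin n → ℕ} {p q : Fin 3 → MvPolynomial (Fin n × Fin 3) K}

lemma multiHom_pq (hp : ∀ k, MultiHom (p k) d) (hq : ∀ k, MultiHom (q k) d') (i j : Fin 3) :
    MultiHom (p i * q j) (d + d') := (hp i).mul (hq j)

lemma multiHom_law1 (a b : K) (hp : ∀ k, MultiHom (p k) d) (hq : ∀ k, MultiHom (q k) d')
    (k : Fin 3) : MultiHom (law1 (C a) (C b) p q k) ((d + d') + (d + d')) := by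
  have h := multiHom_pq hp hq
  have e0 : law1 (C a) (C b) p q 0 =
      C 1 * ((p 0 * q 1 - p 1 * q 0) * (p 1 * q 2 + p 2 * q 1)) +
      C 1 * ((p 0 * q 2 - p 2 * q 0) * (p 1 * q 1)) -
      C a * ((p 0 * q 2 + p 2 * q 0) * (p 0 * q 2 - p 2 * q 0)) -
      C (3 * b) * ((p 0 * q 2 - p 2 * q 0) * (p 2 * q 2)) := by
    simp only [law1, Matrix.cons_val_zero, map_one, map_mul, map_ofNat]
    ring
  have e1 : law1 (C a) (C b) p q 1 =
      C (-3) * ((p 0 * q 0) * (p 0 * q 1 - p 1 * q 0)) -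
      C 1 * ((p 1 * q 1) * (p 1 * q 2 - p 2 * q 1)) -
      C a * ((p 0 * q 1 - p 1 * q 0) * (p 2 * q 2)) +
      C a * ((p 0 * q 2 + p 2 * q 0) * (p 1 * q 2 - p 2 * q 1)) +
      C (3 * b) * ((p 1 * q 2 - p 2 * q 1) * (p 2 * q 2)) := by
    simp only [law1, Matrix.cons_val_one, Matrix.cons_val_zero, map_one, map_mul, map_ofNat,
      map_neg]
    ring
  have e2 : law1 (C a) (C b) p q 2 =
      C 3 * ((p 0 * q 0) * (p 0 * q 2 - p 2 * q 0)) -
      C 1 * ((p 1 * q 2 + p 2 * q 1) * (p 1 * q 2 - p 2 * q 1)) +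
      C a * ((p 0 * q 2 - p 2 * q 0) * (p 2 * q 2)) := by
    simp only [law1, Matrix.cons_val, map_one, map_ofNat]
    ring
  fin_cases k
  · simp only [Fin.zero_eta]
    rw [e0]
    exact (((multiHom_quad _ ((h 0 1).sub (h 1 0)) ((h 1 2).add (h 2 1))).add
      (multiHom_quad _ ((h 0 2).sub (h 2 0)) (h 1 1))).sub
      (multiHom_quad _ ((h 0 2).add (h 2 0)) ((h 0 2).sub (h 2 0)))).sub
      (multiHom_quad _ ((h 0 2).sub (h 2 0)) (h 2 2))
  · simp only [Fin.mk_one]
    rw [e1]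
    exact ((((multiHom_quad _ (h 0 0) ((h 0 1).sub (h 1 0))).sub
      (multiHom_quad _ (h 1 1) ((h 1 2).sub (h 2 1)))).sub
      (multiHom_quad _ ((h 0 1).sub (h 1 0)) (h 2 2))).add
      (multiHom_quad _ ((h 0 2).add (h 2 0)) ((h 1 2).sub (h 2 1)))).add
      (multiHom_quad _ ((h 1 2).sub (h 2 1)) (h 2 2))
  · simp only [Fin.reduceFinMk]
    rw [e2]
    exact ((multiHom_quad _ (h 0 0) ((h 0 2).sub (h 2 0))).sub
      (multiHom_quad _ ((h 1 2).add (h 2 1)) ((h 1 2).sub (h 2 1)))).add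
      (multiHom_quad _ ((h 0 2).sub (h 2 0)) (h 2 2))

lemma multiHom_law2 (a b : K) (hp : ∀ k, MultiHom (p k) d) (hq : ∀ k, MultiHom (q k) d')
    (k : Fin 3) : MultiHom (law2 (C a) (C b) p q k) ((d + d') + (d + d')) := by
  have h := multiHom_pq hp hq
  have e0 : law2 (C a) (C b) p q 0 =
      C 1 * ((p 1 * q 1) * (p 0 * q 1 + p 1 * q 0)) -
      C a * ((p 0 * q 0) * (p 1 * q 2 + p 2 * q 1)) -
      C a * ((p 0 * q 1 + p 1 * q 0) * (p 0 * q 2 + p 2 * q 0)) -
      C (3 * b) * ((p 0 * q 1 + p 1 * q 0) * (p 2 * q 2)) -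
      C (3 * b) * ((p 0 * q 2 + p 2 * q 0) * (p 1 * q 2 + p 2 * q 1)) +
      C (a ^ 2) * ((p 1 * q 2 + p 2 * q 1) * (p 2 * q 2)) := by
    simp only [law2, Matrix.cons_val_zero, map_one, map_mul, map_ofNat, map_pow]
    ring
  have e1 : law2 (C a) (C b) p q 1 =
      C 1 * ((p 1 * q 1) * (p 1 * q 1)) + C (3 * a) * ((p 0 * q 0) * (p 0 * q 0)) +
      C (9 * b) * ((p 0 * q 0) * (p 0 * q 2 + p 2 * q 0)) -
      C (a ^ 2) * ((p 0 * q 2) * (p 0 * q 2 + (p 2 * q 0 + p 2 * q 0))) -
      C (a ^ 2) * ((p 2 * q 0) * (p 0 * q 2 + p 0 * q 2 + p 2 * q 0)) -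
      C (3 * a * b) * ((p 2 * q 2) * (p 0 * q 2 + p 2 * q 0)) -
      C (a ^ 3 + 9 * b ^ 2) * ((p 2 * q 2) * (p 2 * q 2)) := by
    simp only [law2, Matrix.cons_val_one, Matrix.cons_val_zero, map_one, map_mul, map_ofNat,
      map_pow, map_add]
    ring
  have e2 : law2 (C a) (C b) p q 2 =
      C 3 * ((p 0 * q 0) * (p 0 * q 1 + p 1 * q 0)) +
      C 1 * ((p 1 * q 1) * (p 1 * q 2 + p 2 * q 1)) +
      C a * ((p 0 * q 1 + p 1 * q 0) * (p 2 * q 2)) +
      C a * ((p 0 * q 2 + p 2 * q 0) * (p 1 * q 2 + p 2 * q 1)) +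
      C (3 * b) * ((p 1 * q 2 + p 2 * q 1) * (p 2 * q 2)) := by
    simp only [law2, Matrix.cons_val, map_one, map_mul, map_ofNat]
    ring
  fin_cases k
  · simp only [Fin.zero_eta]
    rw [e0]
    exact (((((multiHom_quad _ (h 1 1) ((h 0 1).add (h 1 0))).sub
      (multiHom_quad _ (h 0 0) ((h 1 2).add (h 2 1)))).sub
      (multiHom_quad _ ((h 0 1).add (h 1 0)) ((h 0 2).add (h 2 0)))).sub
      (multiHom_quad _ ((h 0 1).add (h 1 0)) (h 2 2))).sub
      (multiHom_quad _ ((h 0 2).add (h 2 0)) ((h 1 2).add (h 2 1)))).add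
      (multiHom_quad _ ((h 1 2).add (h 2 1)) (h 2 2))
  · simp only [Fin.mk_one]
    rw [e1]
    exact ((((((multiHom_quad _ (h 1 1) (h 1 1)).add (multiHom_quad _ (h 0 0) (h 0 0))).add
      (multiHom_quad _ (h 0 0) ((h 0 2).add (h 2 0)))).sub
      (multiHom_quad _ (h 0 2) ((h 0 2).add ((h 2 0).add (h 2 0))))).sub
      (multiHom_quad _ (h 2 0) (((h 0 2).add (h 0 2)).add (h 2 0)))).sub
      (multiHom_quad _ (h 2 2) ((h 0 2).add (h 2 0)))).sub
      (multiHom_quad _ (h 2 2) (h 2 2))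
  · simp only [Fin.reduceFinMk]
    rw [e2]
    exact ((((multiHom_quad _ (h 0 0) ((h 0 1).add (h 1 0))).add
      (multiHom_quad _ (h 1 1) ((h 1 2).add (h 2 1)))).add
      (multiHom_quad _ ((h 0 1).add (h 1 0)) (h 2 2))).add
      (multiHom_quad _ ((h 0 2).add (h 2 0)) ((h 1 2).add (h 2 1)))).add
      (multiHom_quad _ ((h 1 2).add (h 2 1)) (h 2 2))

end hom

section

variable {K : Type u} [Field K] [CharZero K] (W : Affine K) [W.IsElliptic] [W.IsShortNF] {n : ℕ}

omit [CharZero K] [W.IsElliptic] [W.IsShortNF] in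
lemma RepSet.zero : RepSet W (0 : Fin n → ℤ) 0
    {![0, 1, 0]} where
  homog := by
    intro ρ hρ k
    rw [Finset.mem_singleton.mp hρ]
    fin_cases k
    · exact isWeightedHomogeneous_zero _ _ _
    · exact isWeightedHomogeneous_one _ _
    · exact isWeightedHomogeneous_zero _ _ _
  spec := by
    intro F _ _ _ P x hx ρ hρ
    rw [Finset.mem_singleton.mp hρ]
    refine ⟨1, fun k => ?_⟩
    have : ∑ i, (0 : Fin n → ℤ) i • P i = 0 := by simp
    rw [this]
    have e : coords (0 : (W⁄F).Point) = ![0, 1, 0] := rfl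
    rw [e]
    fin_cases k <;> simp
  complete := by
    intro F _ _ _ P x hx
    exact ⟨_, Finset.mem_singleton_self _, 1, by simp⟩

omit [CharZero K] [W.IsElliptic] [W.IsShortNF] in
lemma RepSet.single (i : Fin n) : RepSet W (Pi.single i 1) (Pi.single i 1)
    {fun k => X (i, k)} where
  homog := by
    intro ρ hρ k
    rw [Finset.mem_singleton.mp hρ]
    exact isWeightedHomogeneous_X K (wt n) (i, k)
  spec := by
    classical
    intro F _ _ _ P x hx ρ hρ
    rw [Finset.mem_singleton.mp hρ]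
    have : ∑ j, (Pi.single i 1 : Fin n → ℤ) j • P j = P i := by
      rw [Finset.sum_eq_single i]
      · simp
      · intro j _ hj
        simp [Pi.single_eq_of_ne hj]
      · intro h; exact absurd (Finset.mem_univ i) h
    rw [this]
    obtain ⟨s, hs, h⟩ := hx i
    exact ⟨s, fun k => by rw [aeval_X, h k]⟩
  complete := by
    intro F _ _ _ P x hx
    obtain ⟨s, hs, h⟩ := hx i
    have : ∃ k, coords (P i) k ≠ 0 := by
      match P i with
      | 0 => exact ⟨1, by
          have e : coords (0 : (W⁄F).Point) = ![0, 1, 0] := rfl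
          rw [e]; simp⟩
      | .some x y h => exact ⟨2, by
          have e : coords (Point.some x y h) = ![x, y, 1] := rfl
          rw [e]; simp⟩
    obtain ⟨k, hk⟩ := this
    refine ⟨_, Finset.mem_singleton_self _, k, ?_⟩
    rw [aeval_X, h k]
    exact mul_ne_zero hs hk

omit [CharZero K] in
lemma RepSet.neg {b : Fin n → ℤ} {d : Fin n → ℕ}
    {S : Finset (Fin 3 → MvPolynomial (Fin n × Fin 3) K)} (hS : RepSet W b d S) :
    ∃ S', RepSet W (-b) d S' := by
  classical
  refine ⟨S.image fun ρ => ![ρ 0, -ρ 1, ρ 2], ?_, ?_, ?_⟩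
  · intro ρ' hρ' k
    obtain ⟨ρ, hρ, rfl⟩ := Finset.mem_image.mp hρ'
    have h := hS.homog ρ hρ
    fin_cases k
    · exact h 0
    · exact Submodule.neg_mem (weightedHomogeneousSubmodule K (wt n) d) (h 1)
    · exact h 2
  · intro F _ _ _ P x hx ρ' hρ'
    obtain ⟨ρ, hρ, rfl⟩ := Finset.mem_image.mp hρ'
    obtain ⟨l, hl⟩ := hS.spec F P x hx ρ hρ
    have e : ∑ i, (-b) i • P i = -∑ i, b i • P i := by
      simp only [Pi.neg_apply, neg_smul, Finset.sum_neg_distrib]
    rw [e]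
    generalize (∑ i, b i • P i) = Q at hl
    have hneg : coords (-Q) = ![coords Q 0, -coords Q 1, coords Q 2] ∨
        coords (-Q) = ![-coords Q 0, coords Q 1, -coords Q 2] := by
      match Q with
      | 0 =>
        right
        have e1 : -(0 : (W⁄F).Point) = 0 := neg_zero
        rw [e1]
        have e : coords (0 : (W⁄F).Point) = ![0, 1, 0] := rfl
        rw [e]
        simp
      | .some x y h =>
        left
        rw [Point.neg_some, coords_some, coords_some, negY_eq]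
        simp
    rcases hneg with hneg | hneg
    · refine ⟨l, fun k => ?_⟩
      rw [hneg]
      fin_cases k
      · exact hl 0
      · have := hl 1
        simp only [Fin.mk_one, Matrix.cons_val_one, Matrix.cons_val_zero, map_neg, this]
        ring
      · exact hl 2
    · refine ⟨-l, fun k => ?_⟩
      rw [hneg]
      fin_cases k
      · have := hl 0
        simp only [Fin.zero_eta, Matrix.cons_val_zero, this]
        ring
      · have := hl 1
        simp only [Fin.mk_one, Matrix.cons_val_one, Matrix.cons_val_zero, map_neg, this]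
        ring
      · have := hl 2
        simp only [Fin.reduceFinMk, Matrix.cons_val, this]
        ring
  · intro F _ _ _ P x hx
    obtain ⟨ρ, hρ, k, hk⟩ := hS.complete F P x hx
    refine ⟨_, Finset.mem_image_of_mem _ hρ, k, ?_⟩
    fin_cases k
    · exact hk
    · simpa using hk
    · exact hk

lemma RepSet.add {b b' : Fin n → ℤ} {d d' : Fin n → ℕ}
    {S S' : Finset (Fin 3 → MvPolynomial (Fin n × Fin 3) K)} (hS : RepSet W b d S)
    (hS' : RepSet W b' d' S') : ∃ S'', RepSet W (b + b') ((d + d') + (d + d')) S'' := by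
  classical
  refine ⟨((S ×ˢ S').image fun ρ => law1 (C W.a₄) (C W.a₆) ρ.1 ρ.2) ∪
    ((S ×ˢ S').image fun ρ => law2 (C W.a₄) (C W.a₆) ρ.1 ρ.2), ?_, ?_, ?_⟩
  · intro ρ' hρ' k
    rcases Finset.mem_union.mp hρ' with h | h
    · obtain ⟨ρ, hρ, rfl⟩ := Finset.mem_image.mp h
      rw [Finset.mem_product] at hρ
      exact multiHom_law1 _ _ (hS.homog _ hρ.1) (hS'.homog _ hρ.2) k
    · obtain ⟨ρ, hρ, rfl⟩ := Finset.mem_image.mp h
      rw [Finset.mem_product] at hρ
      exact multiHom_law2 _ _ (hS.homog _ hρ.1) (hS'.homog _ hρ.2) k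
  · intro F _ _ _ P x hx ρ' hρ'
    have : CharZero F := charZero_of_injective_algebraMap (algebraMap K F).injective
    have e : ∑ i, (b + b') i • P i = ∑ i, b i • P i + ∑ i, b' i • P i := by
      simp only [Pi.add_apply, add_smul, Finset.sum_add_distrib]
    rw [e]
    rcases Finset.mem_union.mp hρ' with h | h
    · obtain ⟨ρ, hρ, rfl⟩ := Finset.mem_image.mp h
      rw [Finset.mem_product] at hρ
      obtain ⟨l, hl⟩ := hS.spec F P x hx _ hρ.1
      obtain ⟨m, hm⟩ := hS'.spec F P x hx _ hρ.2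
      obtain ⟨t, ht⟩ := law1_spec (W⁄F) (∑ i, b i • P i) (∑ i, b' i • P i)
      refine ⟨l ^ 2 * m ^ 2 * t, fun k => ?_⟩
      have h1 := law1_map (aeval x : MvPolynomial (Fin n × Fin 3) K →ₐ[K] F).toRingHom
        (C W.a₄) (C W.a₆) ρ.1 ρ.2 k
      have h2 : (fun i => (aeval x : MvPolynomial (Fin n × Fin 3) K →ₐ[K] F).toRingHom (ρ.1 i)) =
          fun i => l * coords (∑ i, b i • P i) i := funext fun i => hl i
      have h3 : (fun i => (aeval x : MvPolynomial (Fin n × Fin 3) K →ₐ[K] F).toRingHom (ρ.2 i)) =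
          fun i => m * coords (∑ i, b' i • P i) i := funext fun i => hm i
      rw [h2, h3, law1_smul] at h1
      have h4 : (aeval x : MvPolynomial (Fin n × Fin 3) K →ₐ[K] F).toRingHom (C W.a₄) =
          (W⁄F).a₄ := aeval_C x _
      have h5 : (aeval x : MvPolynomial (Fin n × Fin 3) K →ₐ[K] F).toRingHom (C W.a₆) =
          (W⁄F).a₆ := aeval_C x _
      rw [h4, h5, ht k] at h1
      rw [mul_assoc]
      exact h1
    · obtain ⟨ρ, hρ, rfl⟩ := Finset.mem_image.mp h
      rw [Finset.mem_product] at hρ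
      obtain ⟨l, hl⟩ := hS.spec F P x hx _ hρ.1
      obtain ⟨m, hm⟩ := hS'.spec F P x hx _ hρ.2
      obtain ⟨t, ht⟩ := law2_spec (W⁄F) (∑ i, b i • P i) (∑ i, b' i • P i)
      refine ⟨l ^ 2 * m ^ 2 * t, fun k => ?_⟩
      have h1 := law2_map (aeval x : MvPolynomial (Fin n × Fin 3) K →ₐ[K] F).toRingHom
        (C W.a₄) (C W.a₆) ρ.1 ρ.2 k
      have h2 : (fun i => (aeval x : MvPolynomial (Fin n × Fin 3) K →ₐ[K] F).toRingHom (ρ.1 i)) =
          fun i => l * coords (∑ i, b i • P i) i := funext fun i => hl i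
      have h3 : (fun i => (aeval x : MvPolynomial (Fin n × Fin 3) K →ₐ[K] F).toRingHom (ρ.2 i)) =
          fun i => m * coords (∑ i, b' i • P i) i := funext fun i => hm i
      rw [h2, h3, law2_smul] at h1
      have h4 : (aeval x : MvPolynomial (Fin n × Fin 3) K →ₐ[K] F).toRingHom (C W.a₄) =
          (W⁄F).a₄ := aeval_C x _
      have h5 : (aeval x : MvPolynomial (Fin n × Fin 3) K →ₐ[K] F).toRingHom (C W.a₆) =
          (W⁄F).a₆ := aeval_C x _
      rw [h4, h5, ht k] at h1
      rw [mul_assoc]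
      exact h1
  · intro F _ _ _ P x hx
    have : CharZero F := charZero_of_injective_algebraMap (algebraMap K F).injective
    obtain ⟨ρ, hρ, k, hk⟩ := hS.complete F P x hx
    obtain ⟨ρ', hρ', k', hk'⟩ := hS'.complete F P x hx
    obtain ⟨l, hl⟩ := hS.spec F P x hx _ hρ
    obtain ⟨m, hm⟩ := hS'.spec F P x hx _ hρ'
    have hl0 : l ≠ 0 := fun h => hk (by rw [hl k, h, zero_mul])
    have hm0 : m ≠ 0 := fun h => hk' (by rw [hm k', h, zero_mul])
    have h2 : (fun i => (aeval x : MvPolynomial (Fin n × Fin 3) K →ₐ[K] F).toRingHom (ρ i)) =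
        fun i => l * coords (∑ i, b i • P i) i := funext fun i => hl i
    have h3 : (fun i => (aeval x : MvPolynomial (Fin n × Fin 3) K →ₐ[K] F).toRingHom (ρ' i)) =
        fun i => m * coords (∑ i, b' i • P i) i := funext fun i => hm i
    have h4 : (aeval x : MvPolynomial (Fin n × Fin 3) K →ₐ[K] F).toRingHom (C W.a₄) =
        (W⁄F).a₄ := aeval_C x _
    have h5 : (aeval x : MvPolynomial (Fin n × Fin 3) K →ₐ[K] F).toRingHom (C W.a₆) =
        (W⁄F).a₆ := aeval_C x _
    rcases law_complete (W⁄F) (∑ i, b i • P i) (∑ i, b' i • P i) with ⟨t, ht⟩ | ⟨t, ht⟩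
    · refine ⟨law1 (C W.a₄) (C W.a₆) ρ ρ', Finset.mem_union_left _ (Finset.mem_image.mpr
        ⟨(ρ, ρ'), Finset.mem_product.mpr ⟨hρ, hρ'⟩, rfl⟩), t, ?_⟩
      have h1 := law1_map (aeval x : MvPolynomial (Fin n × Fin 3) K →ₐ[K] F).toRingHom
        (C W.a₄) (C W.a₆) ρ ρ' t
      rw [h2, h3, law1_smul, h4, h5] at h1
      intro h0
      have h0' : (aeval x : MvPolynomial (Fin n × Fin 3) K →ₐ[K] F).toRingHom
        (law1 (C W.a₄) (C W.a₆) ρ ρ' t) = 0 := h0
      rw [h1] at h0'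
      exact (mul_ne_zero (mul_ne_zero (pow_ne_zero _ hl0) (pow_ne_zero _ hm0)) ht) h0'
    · refine ⟨law2 (C W.a₄) (C W.a₆) ρ ρ', Finset.mem_union_right _ (Finset.mem_image.mpr
        ⟨(ρ, ρ'), Finset.mem_product.mpr ⟨hρ, hρ'⟩, rfl⟩), t, ?_⟩
      have h1 := law2_map (aeval x : MvPolynomial (Fin n × Fin 3) K →ₐ[K] F).toRingHom
        (C W.a₄) (C W.a₆) ρ ρ' t
      rw [h2, h3, law2_smul, h4, h5] at h1
      intro h0
      have h0' : (aeval x : MvPolynomial (Fin n × Fin 3) K →ₐ[K] F).toRingHom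
        (law2 (C W.a₄) (C W.a₆) ρ ρ' t) = 0 := h0
      rw [h1] at h0'
      exact (mul_ne_zero (mul_ne_zero (pow_ne_zero _ hl0) (pow_ne_zero _ hm0)) ht) h0'

/-- `k • P_i`, by the recursion `(k, k + 1) ↦ (2 k, 2 k + 1)`. -/
lemma exists_repSet_nat (i : Fin n) (k : ℕ) : ∃ (D : ℕ)
    (S : Finset (Fin 3 → MvPolynomial (Fin n × Fin 3) K)),
    RepSet W (Pi.single i (k : ℤ)) (Pi.single i D) S ∧ 2 * D + (if k = 0 then 0 else 1) ≤
      3 * k ^ 2 := by
  induction k using Nat.strong_induction_on with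
  | _ k ih =>
    by_cases h0 : k = 0
    · subst h0
      refine ⟨0, {![0, 1, 0]}, ?_, by simp⟩
      simpa using RepSet.zero W (n := n)
    by_cases h1 : k = 1
    · subst h1
      exact ⟨1, _, by simpa using RepSet.single W i, by simp⟩
    rcases Nat.even_or_odd' k with ⟨j, hj | hj⟩
    · have hj1 : j ≠ 0 := by omega
      obtain ⟨D, S, hS, hD⟩ := ih j (by omega)
      obtain ⟨S', hS'⟩ := RepSet.add W hS hS
      refine ⟨(D + D) + (D + D), S', ?_, ?_⟩
      · have e1 : (Pi.single i (j : ℤ) + Pi.single i (j : ℤ) : Fin n → ℤ) =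
            Pi.single i (k : ℤ) := by
          rw [← Pi.single_add]
          congr 1
          rw [hj]; push_cast; ring
        have e2 : (Pi.single i D + Pi.single i D) + (Pi.single i D + Pi.single i D) =
            (Pi.single i ((D + D) + (D + D)) : Fin n → ℕ) := by
          rw [← Pi.single_add, ← Pi.single_add]
        rwa [e1, e2] at hS'
      · rw [if_neg hj1] at hD
        rw [if_neg h0, hj]
        nlinarith
    · have hj1 : j ≠ 0 := by omega
      obtain ⟨D, S, hS, hD⟩ := ih j (by omega)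
      obtain ⟨D', S', hS', hD'⟩ := ih (j + 1) (by omega)
      obtain ⟨S'', hS''⟩ := RepSet.add W hS hS'
      refine ⟨(D + D') + (D + D'), S'', ?_, ?_⟩
      · have e1 : (Pi.single i (j : ℤ) + Pi.single i ((j + 1 : ℕ) : ℤ) : Fin n → ℤ) =
            Pi.single i (k : ℤ) := by
          rw [← Pi.single_add]
          congr 1
          rw [hj]; push_cast; ring
        have e2 : (Pi.single i D + Pi.single i D') + (Pi.single i D + Pi.single i D') =
            (Pi.single i ((D + D') + (D + D')) : Fin n → ℕ) := by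
          rw [← Pi.single_add, ← Pi.single_add]
        rwa [e1, e2] at hS''
      · rw [if_neg hj1] at hD
        rw [if_neg (by omega)] at hD'
        rw [if_neg h0, hj]
        nlinarith

lemma exists_repSet_int (i : Fin n) (z : ℤ) : ∃ (D : ℕ)
    (S : Finset (Fin 3 → MvPolynomial (Fin n × Fin 3) K)),
    RepSet W (Pi.single i z) (Pi.single i D) S ∧ D ≤ 2 * z.natAbs ^ 2 := by
  obtain ⟨D, S, hS, hD⟩ := exists_repSet_nat W i z.natAbs
  have hD' : D ≤ 2 * z.natAbs ^ 2 := by
    have : 2 * D ≤ 3 * z.natAbs ^ 2 := le_trans (Nat.le_add_right _ _) hD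
    nlinarith
  rcases Int.natAbs_eq z with h | h
  · refine ⟨D, S, ?_, hD'⟩
    rw [h]
    simpa using hS
  · obtain ⟨S', hS'⟩ := RepSet.neg W hS
    refine ⟨D, S', ?_, hD'⟩
    have e : -(Pi.single i (z.natAbs : ℤ)) = (Pi.single i z : Fin n → ℤ) := by
      rw [← Pi.single_neg, ← h]
    rwa [e] at hS'

theorem exists_repSet (n : ℕ) : ∃ C : ℕ, ∀ b : Fin n → ℤ, ∃ (d : Fin n → ℕ)
      (S : Finset (Fin 3 → MvPolynomial (Fin n × Fin 3) K)), RepSet W b d S ∧
        ∀ i, d i ≤ C * (b i).natAbs ^ 2 := by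
  classical
  refine ⟨2 * 4 ^ n, fun b => ?_⟩
  have key : ∀ s : Finset (Fin n), ∃ (d : Fin n → ℕ)
      (S : Finset (Fin 3 → MvPolynomial (Fin n × Fin 3) K)),
      RepSet W (∑ i ∈ s, Pi.single i (b i)) d S ∧
        ∀ i, d i ≤ (2 * 4 ^ s.card) * (b i).natAbs ^ 2 := by
    intro s
    induction s using Finset.induction_on with
    | empty => exact ⟨0, _, by simpa using RepSet.zero W, fun i => by simp⟩
    | insert i s hi ih =>
      obtain ⟨d, S, hS, hd⟩ := ih
      obtain ⟨D, S', hS', hD⟩ := exists_repSet_int W i (b i)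
      obtain ⟨S'', hS''⟩ := RepSet.add W hS' hS
      refine ⟨_, S'', by rwa [Finset.sum_insert hi], fun j => ?_⟩
      rw [Finset.card_insert_of_notMem hi]
      have h1 := hd j
      have h2 : (Pi.single i D : Fin n → ℕ) j ≤ 2 * (b j).natAbs ^ 2 := by
        by_cases hij : j = i
        · subst hij; simpa using hD
        · rw [Pi.single_eq_of_ne hij]; exact Nat.zero_le _
      have h3 : 1 ≤ 4 ^ s.card := Nat.one_le_pow _ _ (by norm_num)
      simp only [Pi.add_apply]
      rw [pow_succ]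
      nlinarith [Nat.zero_le ((b j).natAbs ^ 2)]
  obtain ⟨d, S, hS, hd⟩ := key Finset.univ
  refine ⟨d, S, ?_, fun i => by simpa using hd i⟩
  have e : ∑ i, Pi.single i (b i) = b := Finset.univ_sum_single b
  rwa [e] at hS

end

end Pool.Agent.GE
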