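import Mathlib
import Pool.Agent.GE.Hom
import Pool.Agent.GE.Reps
import Pool.Agent.GE.Dim
import Pool.Agent.GE.Local
import Pool.Agent.GE.Near
import Pool.Agent.GE.Choose
import Pool.Agent.GE.NonVan

/-! # Assembly (module Final) -/

set_option autoImplicit false

open MvPolynomial WeierstrassCurve WeierstrassCurve.Affine Height NumberField
open Pool.Agent.H7.Vojta (naive naive_nonneg)

namespace Pool.Agent.GE

universe u

lemma isCoord_coords {F : Type u} [Field F] {W : Affine F} {n : ℕ} (P : Fin n → W.Point) :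
    IsCoord P (fun q => coords (P q.1) q.2) := fun i => ⟨1, one_ne_zero, fun k => by simp⟩

/-- Evaluation of the auxiliary form at a tuple of points. -/
lemma exists_good_rep {K : Type u} [Field K] (W : Affine K) {n s : ℕ}
    (b : Fin s → Fin n → ℤ) (c : Fin s → ℕ) (d : Fin s → Fin n → ℕ)
    (S : Fin s → Finset (Fin 3 → MvPolynomial (Fin n × Fin 3) K))
    (hS : ∀ j, RepSet W (b j) (d j) (S j)) (f : MvPolynomial (Fin s) K)
    (hd : ∀ j, degreeOf j f ≤ c j) (F : Type u) [Field F] [DecidableEq F] [Algebra K F]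
    (P : Fin n → (W⁄F).Point)
    (hP : homForm f c (fun j => coords (∑ i, b j i • P i)) ≠ 0) :
    ∃ ρ : Fin s → Fin 3 → MvPolynomial (Fin n × Fin 3) K, (∀ j, ρ j ∈ S j) ∧
      aeval (fun q : Fin n × Fin 3 => coords (P q.1) q.2) (homForm f c ρ) ≠ 0 := by
  have h1 : ∀ j, ∃ ρ ∈ S j, ∃ k, aeval (fun q : Fin n × Fin 3 => coords (P q.1) q.2) (ρ k) ≠ 0 :=
    fun j => (hS j).complete F P _ (isCoord_coords P)
  choose ρ hρ k hk using h1
  refine ⟨ρ, hρ, ?_⟩
  have h2 : ∀ j, ∃ l : F, ∀ k, aeval (fun q : Fin n × Fin 3 => coords (P q.1) q.2) (ρ j k) =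
      l * coords (∑ i, b j i • P i) k := fun j => (hS j).spec F P _ (isCoord_coords P) _ (hρ j)
  choose l hl using h2
  have hl0 : ∀ j, l j ≠ 0 := fun j h0 => hk j (by rw [hl j, h0, zero_mul])
  have h3 : aeval (fun q : Fin n × Fin 3 => coords (P q.1) q.2) (homForm f c ρ) =
      (∏ j, l j ^ c j) * homForm f c (fun j => coords (∑ i, b j i • P i)) := by
    rw [homForm_map, ← homForm_smul f c hd]
    congr 1
    funext j k
    exact hl j k
  rw [h3]
  exact mul_ne_zero (Finset.prod_ne_zero_iff.mpr fun j _ => pow_ne_zero _ (hl0 j)) hP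

lemma eval_homForm_ne_zero {K : Type u} [Field K] (W : Affine K) {n s : ℕ}
    (b : Fin s → Fin n → ℤ) (c : Fin s → ℕ) (d : Fin s → Fin n → ℕ)
    (S : Fin s → Finset (Fin 3 → MvPolynomial (Fin n × Fin 3) K))
    (hS : ∀ j, RepSet W (b j) (d j) (S j)) (f : MvPolynomial (Fin s) K)
    (hd : ∀ j, degreeOf j f ≤ c j) (F : Type u) [Field F] [DecidableEq F] [Algebra K F]
    (P : Fin n → (W⁄F).Point) (ρ : Fin s → Fin 3 → MvPolynomial (Fin n × Fin 3) K)
    (hρ : ∀ j, ρ j ∈ S j)
    (hP : aeval (fun q : Fin n × Fin 3 => coords (P q.1) q.2) (homForm f c ρ) ≠ 0) :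
    homForm f c (fun j => coords (∑ i, b j i • P i)) ≠ 0 := by
  have h2 : ∀ j, ∃ l : F, ∀ k, aeval (fun q : Fin n × Fin 3 => coords (P q.1) q.2) (ρ j k) =
      l * coords (∑ i, b j i • P i) k := fun j => (hS j).spec F P _ (isCoord_coords P) _ (hρ j)
  choose l hl using h2
  intro h0
  apply hP
  have h3 : aeval (fun q : Fin n × Fin 3 => coords (P q.1) q.2) (homForm f c ρ) =
      (∏ j, l j ^ c j) * homForm f c (fun j => coords (∑ i, b j i • P i)) := by
    rw [homForm_map, ← homForm_smul f c hd]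
    congr 1
    funext j k
    exact hl j k
  rw [h3, h0, mul_zero]

lemma exists_coords_ne_zero {F : Type u} [Field F] {W : Affine F} (P : W.Point) :
    ∃ k, coords P k ≠ 0 := by
  match P with
  | 0 => exact ⟨1, by
      have e : coords (0 : W.Point) = ![0, 1, 0] := rfl
      rw [e]; simp⟩
  | .some x y h => exact ⟨2, by
      have e : coords (Point.some x y h) = ![x, y, 1] := rfl
      rw [e]; simp⟩

lemma aeval_coords_curveEq {K : Type u} [Field K] (W : Affine K) [W.IsShortNF] {n : ℕ} {L : Type u}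
    [Field L] [Algebra K L] (P : Fin n → (W⁄L).Point) (i : Fin n) :
    aeval (fun q : Fin n × Fin 3 => coords (P q.1) q.2) (curveEq W i) = 0 := by
  simp only [curveEq, map_sub, map_mul, map_pow, aeval_X, MvPolynomial.algHom_C]
  match P i with
  | 0 =>
    have e : coords (0 : (W⁄L).Point) = ![0, 1, 0] := rfl
    rw [e]; simp
  | .some x y h =>
    have e : coords (Point.some x y h) = ![x, y, 1] := rfl
    rw [e]
    have h1 := eqn (W⁄L) h
    have e4 : (W⁄L).a₄ = algebraMap K L W.a₄ := rfl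
    have e6 : (W⁄L).a₆ = algebraMap K L W.a₆ := rfl
    rw [e4, e6] at h1
    simp only [Matrix.cons_val_zero, Matrix.cons_val_one, Matrix.cons_val]
    linear_combination h1

/-- An element of the radical of the ideal of `Y` vanishes at all points of `Y`. -/
lemma exists_ne_zero_of_radical {K : Type u} [Field K] (W : Affine K) [W.IsShortNF] {n t : ℕ}
    (F : Fin t → MvPolynomial (Fin n × Fin 3) K) {L : Type u}
    [Field L] [Algebra K L] (P : Fin n → (W⁄L).Point) (H : MvPolynomial (Fin n × Fin 3) K)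
    (hH : ∀ T : Fin n → Fin 3, H * ∏ i, X (i, T i) ∈
      (Ideal.span (Set.range F ∪ Set.range (curveEq W (n := n)))).radical)
    (hP : aeval (fun q : Fin n × Fin 3 => coords (P q.1) q.2) H ≠ 0) :
    ∃ j, aeval (fun q : Fin n × Fin 3 => coords (P q.1) q.2) (F j) ≠ 0 := by
  by_contra hcon
  push Not at hcon
  have hker : Ideal.span (Set.range F ∪ Set.range (curveEq W (n := n))) ≤
      RingHom.ker (aeval (fun q : Fin n × Fin 3 => coords (P q.1) q.2) :
        MvPolynomial (Fin n × Fin 3) K →ₐ[K] L) := by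
    rw [Ideal.span_le]
    rintro g (⟨j, rfl⟩ | ⟨i, rfl⟩)
    · exact hcon j
    · exact aeval_coords_curveEq W P i
  choose T hT using fun i => exists_coords_ne_zero (P i)
  obtain ⟨k, hk⟩ := hH T
  have h1 := hker hk
  rw [RingHom.mem_ker, map_pow] at h1
  have h2 := eq_zero_of_pow_eq_zero h1
  rw [map_mul, map_prod] at h2
  simp only [aeval_X] at h2
  rcases mul_eq_zero.mp h2 with h | h
  · exact hP h
  · exact (Finset.prod_ne_zero_iff.mpr fun i _ => hT i) h

/-- The main theorem, un-normalised heights. -/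
theorem main_theorem {K : Type u} [Field K] [NumberField K] [DecidableEq (AlgebraicClosure K)]
    (W : Affine K) [W.IsElliptic]
    [W.IsShortNF] {n t m r : ℕ} (hmr : m + r < n)
    (F : Fin t → MvPolynomial (Fin n × Fin 3) K) (D : Fin t → Fin n → ℕ)
    (hF : ∀ j, MultiHom (F j) (D j))
    (hdim : DimLE (Ideal.span (Set.range F ∪ Set.range (curveEq W (n := n)))) m)
    (ε : ℝ) (hε : 0 < ε) :
    ∃ (δ C : ℝ) (𝒢 : Finset (MvPolynomial (Fin n × Fin 3) K)), 0 < δ ∧ 0 ≤ C ∧
      (∀ G ∈ 𝒢, (∃ d, MultiHom G d) ∧ ∃ P : Fin n → (W⁄(AlgebraicClosure K)).Point,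
        aeval (fun q : Fin n × Fin 3 => coords (P q.1) q.2) G ≠ 0) ∧
      ∀ (L : Type u) [Field L] [NumberField L] [DecidableEq L] [Algebra K L]
        (P : Fin n → (W⁄L).Point), NearRank P r δ →
        (∀ G ∈ 𝒢, aeval (fun q : Fin n × Fin 3 => coords (P q.1) q.2) G ≠ 0) →
        (∃ j, aeval (fun q : Fin n × Fin 3 => coords (P q.1) q.2) (F j) ≠ 0) ∧
        centreSum F D P ≤ ε * ∑ i, naive (P i) + C * totalWeight L := by
  classical
  set I := Ideal.span (Set.range F ∪ Set.range (curveEq W (n := n))) with hIdef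
  have hI : ∀ i, curveEq W (n := n) i ∈ I := fun i =>
    Ideal.subset_span (Or.inr ⟨i, rfl⟩)
  obtain ⟨C0, hrep⟩ := exists_repSet W n
  choose d S hS hd using hrep
  obtain ⟨A, hA⟩ := exists_aux W I hI hdim
  obtain ⟨N, hN⟩ := exists_centreSum_le W F D hF
  obtain ⟨C1, hC10, hC1⟩ := exists_near_gram.{u} W
  set η : ℝ := ε / (24 * N + 1) with hη
  have hη0 : 0 < η := by positivity
  obtain ⟨g, hg⟩ := exists_tuples n m r hmr (A * (C0 + 1) ^ m) η hη0
  set δ : ℝ := min (1 / (n + 1)) (ε / (6 * N * n ^ 3 * g ^ 3 + 1)) with hδ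
  have hδ0 : 0 < δ := by rw [hδ]; exact lt_min (by positivity) (by positivity)
  have hδ1 : δ ≤ 1 / (n + 1) := min_le_left _ _
  have hδ2 : δ ≤ ε / (6 * N * n ^ 3 * g ^ 3 + 1) := min_le_right _ _
  -- the finite set of tuples
  let good : ((Fin n → Fin n → ℤ) × (Fin n → ℕ)) → Prop := fun bc =>
    (∀ j, bc.2 j = 0 → bc.1 j = 0) ∧
      LinearIndependent ℤ (fun j : {j // bc.2 j ≠ 0} => bc.1 j) ∧
      (∀ j i, |bc.1 j i| ≤ g) ∧ (∀ j, bc.2 j ≤ g) ∧
      A * (C0 + 1) ^ m * (∑ j, bc.2 j * ∑ i, (bc.1 j i).natAbs ^ 2 + 1) ^ m <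
        ∏ j, (bc.2 j + 1)
  have hfin : {bc | good bc}.Finite := by
    have h1 : (Set.Icc (fun _ _ => -(g : ℤ)) (fun _ _ => (g : ℤ)) :
      Set (Fin n → Fin n → ℤ)).Finite := Set.finite_Icc _ _
    have h2 : (Set.Icc (fun _ => 0) (fun _ => g) : Set (Fin n → ℕ)).Finite := Set.finite_Icc _ _
    refine (h1.prod h2).subset ?_
    rintro ⟨b, c⟩ ⟨-, -, hb, hc, -⟩
    exact ⟨⟨fun j i => (abs_le.mp (hb j i)).1, fun j i => (abs_le.mp (hb j i)).2⟩,
      ⟨fun j => Nat.zero_le _, fun j => hc j⟩⟩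
  -- the auxiliary function of a tuple
  have haux : ∀ bc : (Fin n → Fin n → ℤ) × (Fin n → ℕ), good bc →
      ∃ (G : MvPolynomial (Fin n × Fin 3) K) (C : ℝ), 0 ≤ C ∧ ((∃ d, MultiHom G d) ∧
        ∃ P : Fin n → (W⁄(AlgebraicClosure K)).Point,
          aeval (fun q : Fin n × Fin 3 => coords (P q.1) q.2) G ≠ 0) ∧
      ∀ (L : Type u) [Field L] [NumberField L] [DecidableEq L] [Algebra K L]
        (P : Fin n → (W⁄L).Point),
        aeval (fun q : Fin n × Fin 3 => coords (P q.1) q.2) G ≠ 0 →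
        (∃ j, aeval (fun q : Fin n × Fin 3 => coords (P q.1) q.2) (F j) ≠ 0) ∧
        centreSum F D P ≤ N * ∑ j, bc.2 j * logHeight (coords (∑ i, bc.1 j i • P i)) +
          C * totalWeight L := by
    rintro ⟨b, c⟩ ⟨h0, hind, hb, hc, hcount⟩
    simp only at h0 hind hb hc hcount ⊢
    obtain ⟨f, hf0, hfd, hfI⟩ := hA n b c (fun j => d (b j)) (fun j => S (b j))
      (fun j => hS (b j)) (C0 * ∑ j, c j * ∑ i, (b j i).natAbs ^ 2) (by
        intro i
        rw [Finset.mul_sum]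
        refine Finset.sum_le_sum fun j _ => ?_
        calc c j * d (b j) i ≤ c j * (C0 * (b j i).natAbs ^ 2) := by
              gcongr; exact hd (b j) i
          _ ≤ c j * (C0 * ∑ i, (b j i).natAbs ^ 2) := by
              gcongr
              exact Finset.single_le_sum (f := fun i => (b j i).natAbs ^ 2)
                (fun _ _ => Nat.zero_le _) (Finset.mem_univ i)
          _ = _ := by ring) (by
        refine lt_of_le_of_lt ?_ hcount
        rw [mul_assoc, ← mul_pow]
        gcongr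
        nlinarith [Nat.zero_le (∑ j, c j * ∑ i, (b j i).natAbs ^ 2), Nat.zero_le C0])
    obtain ⟨P0, hP0⟩ := exists_nonvanishing W b c h0 hind f hf0 hfd
    obtain ⟨ρ, hρ, hρ0⟩ := exists_good_rep W b c (fun j => d (b j)) (fun j => S (b j))
      (fun j => hS (b j)) f hfd (AlgebraicClosure K) P0 hP0
    obtain ⟨C, hC0, hC⟩ := hN n b c (fun j => d (b j)) (fun j => S (b j)) f
      (fun j => hS (b j)) hfd hfI
    refine ⟨homForm f c ρ, C, hC0, ⟨⟨_, homForm_multiHom f c hfd (fun j => d (b j)) ρ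
      (fun j k => (hS (b j)).homog _ (hρ j) k)⟩, P0, hρ0⟩, ?_⟩
    intro L _ _ _ _ P hP
    exact ⟨exists_ne_zero_of_radical W F P _ (hfI ρ hρ) hP,
      hC L P (eval_homForm_ne_zero W b c (fun j => d (b j)) (fun j => S (b j))
      (fun j => hS (b j)) f hfd L P ρ hρ hP)⟩
  choose! G CC hCC0 hG hCC using haux
  refine ⟨δ, ∑ bc ∈ hfin.toFinset, CC bc + (12 * N * η * n * C1 + 3 * N * n ^ 3 * g ^ 3 * C1 +
    N * n * g * C1), hfin.toFinset.image G, hδ0, ?_, ?_, ?_⟩
  · have : 0 ≤ ∑ bc ∈ hfin.toFinset, CC bc :=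
      Finset.sum_nonneg fun bc hbc => hCC0 bc (hfin.mem_toFinset.mp hbc)
    positivity
  · intro G' hG'
    obtain ⟨bc, hbc, rfl⟩ := Finset.mem_image.mp hG'
    exact hG bc (hfin.mem_toFinset.mp hbc)
  · intro L _ _ _ _ P hrank hP
    obtain ⟨M, hM1, hM2⟩ := hC1 L n r P δ hrank
    obtain ⟨b, c, h0, hind, hb, hc, hcount, herr⟩ := hg M
    have hgood : good (b, c) := ⟨h0, hind, hb, hc, hcount⟩
    obtain ⟨hY, h1⟩ := hCC (b, c) hgood L P (hP _ (Finset.mem_image_of_mem _
      (hfin.mem_toFinset.mpr hgood)))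
    refine ⟨hY, ?_⟩
    have hCCle : CC (b, c) ≤ ∑ bc ∈ hfin.toFinset, CC bc :=
      Finset.single_le_sum (f := CC) (fun bc hbc => hCC0 bc (hfin.mem_toFinset.mp hbc))
        (hfin.mem_toFinset.mpr hgood)
    have htw : (0 : ℝ) ≤ totalWeight L := Nat.cast_nonneg _
    set S0 : ℝ := ∑ i, naive (P i) with hS0
    have hS00 : 0 ≤ S0 := Finset.sum_nonneg fun i _ => naive_nonneg _
    set E : ℝ := n * δ * S0 + n * C1 * totalWeight L with hE
    have hE0 : 0 ≤ E := by positivity
    have hcg : ∀ j, (c j : ℝ) ≤ g := fun j => by exact_mod_cast hc j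
    have hbg : ∀ j, ∑ i, (b j i : ℝ) ^ 2 ≤ n * g ^ 2 := by
      intro j
      calc ∑ i, (b j i : ℝ) ^ 2 ≤ ∑ _i : Fin n, (g : ℝ) ^ 2 := by
            refine Finset.sum_le_sum fun i _ => ?_
            rw [← sq_abs]
            apply pow_le_pow_left₀ (abs_nonneg _)
            exact_mod_cast hb j i
        _ = n * g ^ 2 := by simp
    have h2 : ∑ j, (c j : ℝ) * logHeight (coords (∑ i, b j i • P i)) ≤
        3 * (η * ∑ i, ∑ k, M i k ^ 2) + 3 * (n ^ 2 * g ^ 3) * E +
          n * g * C1 * totalWeight L := by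
      calc ∑ j, (c j : ℝ) * logHeight (coords (∑ i, b j i • P i))
          ≤ ∑ j, (c j : ℝ) * (3 * ∑ k, (∑ i, (b j i : ℝ) * M i k) ^ 2 +
            3 * (∑ i, (b j i : ℝ) ^ 2) * E + C1 * totalWeight L) :=
            Finset.sum_le_sum fun j _ => mul_le_mul_of_nonneg_left (hM2 (b j)) (Nat.cast_nonneg _)
        _ = 3 * ∑ j, (c j : ℝ) * ∑ k, (∑ i, (b j i : ℝ) * M i k) ^ 2 +
            3 * (∑ j, (c j : ℝ) * ∑ i, (b j i : ℝ) ^ 2) * E +
            (∑ j, (c j : ℝ)) * (C1 * totalWeight L) := by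
            rw [Finset.mul_sum, Finset.mul_sum, Finset.sum_mul, Finset.sum_mul,
              ← Finset.sum_add_distrib, ← Finset.sum_add_distrib]
            exact Finset.sum_congr rfl fun j _ => by ring
        _ ≤ _ := by
            have h3 : (∑ j, (c j : ℝ)) ≤ n * g := by
              calc (∑ j, (c j : ℝ)) ≤ ∑ _j : Fin n, (g : ℝ) :=
                    Finset.sum_le_sum fun j _ => hcg j
                _ = n * g := by simp
            have h4 := mul_le_mul_of_nonneg_right h3 (mul_nonneg hC10 htw)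
            have h5 : ∑ j, (c j : ℝ) * ∑ i, (b j i : ℝ) ^ 2 ≤ n ^ 2 * g ^ 3 := by
              calc ∑ j, (c j : ℝ) * ∑ i, (b j i : ℝ) ^ 2 ≤ ∑ _j : Fin n, (g : ℝ) * (n * g ^ 2) :=
                    Finset.sum_le_sum fun j _ => mul_le_mul (hcg j) (hbg j)
                      (Finset.sum_nonneg fun _ _ => sq_nonneg _) (Nat.cast_nonneg _)
                _ = n ^ 2 * g ^ 3 := by
                    rw [Finset.sum_const, Finset.card_univ, Fintype.card_fin, nsmul_eq_mul]
                    ring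
            have h6 := mul_le_mul_of_nonneg_right h5 hE0
            linarith
    have hN0 : (0 : ℝ) ≤ N := Nat.cast_nonneg _
    have hM0 : 0 ≤ ∑ i, ∑ k, M i k ^ 2 :=
      Finset.sum_nonneg fun i _ => Finset.sum_nonneg fun k _ => sq_nonneg _
    have hnδ : 2 * n * δ ≤ 2 := by
      have h7 := mul_le_mul_of_nonneg_left hδ1 (by positivity : (0 : ℝ) ≤ 2 * n)
      have h8 : 2 * (n : ℝ) * (1 / (n + 1)) ≤ 2 := by
        rw [mul_one_div, div_le_iff₀ (by positivity)]
        linarith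
      linarith
    have hMS : ∑ i, ∑ k, M i k ^ 2 ≤ 4 * S0 + 4 * n * C1 * totalWeight L := by
      have h9 : (2 + 2 * n * δ) * S0 ≤ 4 * S0 :=
        mul_le_mul_of_nonneg_right (by linarith) hS00
      linarith
    have hηN : (N : ℝ) * (12 * η) ≤ ε / 2 := by
      rw [hη, mul_div_assoc', mul_div_assoc', div_le_div_iff₀ (by positivity) (by norm_num)]
      nlinarith
    have hδN : (N : ℝ) * (3 * (n ^ 2 * g ^ 3) * (n * δ)) ≤ ε / 2 := by
      have h10 : (6 * N * n ^ 3 * g ^ 3 + 1 : ℝ) * δ ≤ ε := by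
        rw [le_div_iff₀ (by positivity)] at hδ2
        linarith
      nlinarith [hδ0.le]
    have hfinal : (N : ℝ) * (3 * (η * ∑ i, ∑ k, M i k ^ 2) + 3 * (n ^ 2 * g ^ 3) * E +
        n * g * C1 * totalWeight L) ≤ ε * S0 + (12 * N * η * n * C1 +
          3 * N * n ^ 3 * g ^ 3 * C1 + N * n * g * C1) * totalWeight L := by
      have h11 : (N : ℝ) * (3 * (η * ∑ i, ∑ k, M i k ^ 2)) ≤
          N * (3 * (η * (4 * S0 + 4 * n * C1 * totalWeight L))) := by gcongr
      have h12 := mul_le_mul_of_nonneg_right hηN hS00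
      have h13 := mul_le_mul_of_nonneg_right hδN hS00
      rw [hE]
      nlinarith
    calc centreSum F D P ≤ N * ∑ j, (c j : ℝ) * logHeight (coords (∑ i, b j i • P i)) +
          CC (b, c) * totalWeight L := h1
      _ ≤ N * (3 * (η * ∑ i, ∑ k, M i k ^ 2) + 3 * (n ^ 2 * g ^ 3) * E +
          n * g * C1 * totalWeight L) +
          (∑ bc ∈ hfin.toFinset, CC bc) * totalWeight L := by gcongr
      _ ≤ (ε * S0 + (12 * N * η * n * C1 +
          3 * N * n ^ 3 * g ^ 3 * C1 + N * n * g * C1) * totalWeight L) +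
          (∑ bc ∈ hfin.toFinset, CC bc) * totalWeight L := by gcongr
      _ = _ := by ring

end Pool.Agent.GE
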